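import Pool.Agent.Lib.MP_2d8e53_nt.W.Div12

/-!
CNT: the count of the numbers `Rig` (helper12).
-/

set_option autoImplicit false

namespace Pool.Agent.Lib.MP_2d8e53_nt.W

open Finset Real
open scoped Classical

/-- such a number is odd -/
lemma cnt12_odd {n : ℕ} (h : Rig n) : ∃ ν : ℕ, 1 ≤ ν ∧ n = 2 * ν + 1 := by
  obtain ⟨h1, h2, h3, h4⟩ := h
  rcases Nat.even_or_odd' n with ⟨c, hc | hc⟩
  · exfalso
    have hc1 : c ≠ 1 := by
      rintro rfl
      exact h2 (by rw [hc]; norm_num)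
    have hc0 : c ≠ 0 := by omega
    obtain ⟨q, hq, hqc⟩ := Nat.exists_prime_and_dvd hc1
    have hq2 : q ≠ 2 := by
      rintro rfl
      obtain ⟨e, rfl⟩ := hqc
      have h5 := h3 2 ⟨e, by rw [hc]; ring⟩
      exact absurd (Nat.isUnit_iff.1 h5) (by norm_num)
    have hqn : q ∣ n := by
      rw [hc]
      exact hqc.mul_left _
    obtain ⟨h5, -⟩ := h4 q hq hqn
    obtain ⟨b, hb⟩ := hq.odd_of_ne_two hq2
    have h6 : 2 ∣ n - 1 := (Dvd.intro b (by omega)).trans h5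
    omega
  · exact ⟨c, by omega, hc⟩

/-- the prime divisors -/
lemma cnt12_prime {ν p : ℕ} (h : Rig (2 * ν + 1)) (hp : p.Prime) (hpn : p ∣ 2 * ν + 1) :
    ∃ a : ℕ, 1 ≤ a ∧ p = 2 * a + 1 ∧ a ∣ ν ∧ a + 1 ∣ ν + 1 := by
  obtain ⟨h1, h2, h3, h4⟩ := h
  have hodd : p ≠ 2 := by
    rintro rfl
    omega
  obtain ⟨a, ha⟩ := hp.odd_of_ne_two hodd
  obtain ⟨h5, h6⟩ := h4 p hp hpn
  subst ha
  refine ⟨a, ?_, rfl, ?_, ?_⟩
  · rcases Nat.eq_zero_or_pos a with rfl | h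
    · exact absurd hp (by norm_num)
    · exact h
  · have h7 : 2 * a ∣ 2 * ν := by simpa using h5
    exact Nat.dvd_of_mul_dvd_mul_left (by norm_num) h7
  · have h7 : 2 * (a + 1) ∣ 2 * (ν + 1) := by
      have e1 : 2 * a + 1 + 1 = 2 * (a + 1) := by ring
      have e2 : 2 * ν + 1 + 1 = 2 * (ν + 1) := by ring
      rw [e1, e2] at h6
      exact h6
    exact Nat.dvd_of_mul_dvd_mul_left (by norm_num) h7

/-- the numbers with a given prime divisor -/
lemma cnt12_big (x p : ℕ) (hp : p.Prime) :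
    (((Icc 1 x).filter fun n => Rig n ∧ p ∣ n).card : ℝ) ≤ x / (p : ℝ) ^ 2 := by
  by_cases h2 : p = 2
  · have h3 : ((Icc 1 x).filter fun n => Rig n ∧ p ∣ n) = ∅ := by
      refine Finset.filter_eq_empty_iff.2 ?_
      rintro n - ⟨h4, h5⟩
      obtain ⟨ν, -, rfl⟩ := cnt12_odd h4
      rw [h2] at h5
      omega
    rw [h3]
    simp only [card_empty, Nat.cast_zero]
    positivity
  obtain ⟨a, ha⟩ := hp.odd_of_ne_two h2
  have ha1 : 1 ≤ a := by
    rcases Nat.eq_zero_or_pos a with rfl | h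
    · exact absurd hp (by rw [ha]; norm_num)
    · exact h
  have hsub : ((Icc 1 x).filter fun n => Rig n ∧ p ∣ n) ⊆
      (Icc 1 (x / (p * (2 * a * (a + 1))))).image fun j => p * (2 * a * (a + 1) * j + 1) := by
    intro n hn
    obtain ⟨hn1, hn2, hn3⟩ := Finset.mem_filter.1 hn
    obtain ⟨ν, hν, rfl⟩ := cnt12_odd hn2
    obtain ⟨a', -, ha', h5, h6⟩ := cnt12_prime hn2 hp hn3
    have haa : a' = a := by omega
    subst haa
    obtain ⟨m, hm⟩ := hn3
    have hm1 : m ≠ 1 := by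
      rintro rfl
      exact hn2.2.1 (by rw [hm, mul_one]; exact hp)
    have hm0 : m ≠ 0 := by
      rintro rfl
      omega
    -- `m` is odd
    have hmodd : ∃ k, m = 2 * k + 1 := by
      rcases Nat.even_or_odd' m with ⟨k, hk | hk⟩
      · exfalso
        rw [hk] at hm
        have h7 : 2 ∣ 2 * ν + 1 := ⟨p * k, by rw [hm]; ring⟩
        omega
      · exact ⟨k, hk⟩
    obtain ⟨k, rfl⟩ := hmodd
    -- `ν = a' (2 k + 1) + k`
    have hνk : ν = a' * (2 * k + 1) + k := by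
      rw [ha] at hm
      have : 2 * ν + 1 = 2 * (a' * (2 * k + 1) + k) + 1 := by rw [hm]; ring
      omega
    have h7 : a' ∣ k := by
      rw [hνk] at h5
      exact (Nat.dvd_add_right (dvd_mul_right a' _)).1 h5
    have h8 : a' + 1 ∣ k := by
      -- ν + 1 = (a' + 1) (2 k + 1) - k
      have h9 : (a' + 1) * (2 * k + 1) = (ν + 1) + k := by rw [hνk]; ring
      have h10 : a' + 1 ∣ (ν + 1) + k := by rw [← h9]; exact dvd_mul_right _ _
      exact (Nat.dvd_add_right h6).1 h10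
    have h9 : a' * (a' + 1) ∣ k := Nat.Coprime.mul_dvd_of_dvd_of_dvd (by simp) h7 h8
    obtain ⟨j, hj⟩ := h9
    have hj1 : 1 ≤ j := by
      rcases Nat.eq_zero_or_pos j with rfl | h
      · exfalso
        apply hm1
        rw [hj]
        ring
      · exact h
    have hx : p * (2 * a' * (a' + 1) * j + 1) ≤ x := by
      have := (Finset.mem_Icc.1 hn1).2
      rw [hm, hj] at this
      calc p * (2 * a' * (a' + 1) * j + 1) = p * (2 * (a' * (a' + 1) * j) + 1) := by ring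
        _ ≤ x := this
    refine Finset.mem_image.2 ⟨j, Finset.mem_Icc.2 ⟨hj1, ?_⟩, ?_⟩
    · have hpos : 0 < p * (2 * a' * (a' + 1)) := by
        have := hp.pos
        positivity
      rw [Nat.le_div_iff_mul_le hpos]
      have h10 : j * (p * (2 * a' * (a' + 1))) ≤ p * (2 * a' * (a' + 1) * j + 1) := by
        have : p * (2 * a' * (a' + 1) * j + 1) = j * (p * (2 * a' * (a' + 1))) + p := by ring
        omega
      omega
    · rw [hm, hj]
      ring
  have hap : (p : ℝ) ^ 2 ≤ (p : ℝ) * (2 * a * (a + 1)) := by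
    have h3 : (p : ℝ) = 2 * a + 1 := by
      rw [ha]
      push_cast
      ring
    have h4 : (1 : ℝ) ≤ a := by exact_mod_cast ha1
    rw [h3]
    nlinarith
  have hp0 : (0 : ℝ) < p := by exact_mod_cast hp.pos
  calc (((Icc 1 x).filter fun n => Rig n ∧ p ∣ n).card : ℝ)
      ≤ ((x / (p * (2 * a * (a + 1))) : ℕ) : ℝ) := by
        exact_mod_cast (card_le_card hsub).trans (card_image_le.trans (by simp))
    _ ≤ (x : ℝ) / ((p * (2 * a * (a + 1)) : ℕ) : ℝ) := Nat.cast_div_le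
    _ = (x : ℝ) / ((p : ℝ) * (2 * a * (a + 1))) := by push_cast; ring_nf
    _ ≤ x / (p : ℝ) ^ 2 := by
        apply div_le_div_of_nonneg_left (Nat.cast_nonneg _) (by positivity) hap

/-- the numbers with a large prime divisor -/
lemma cnt12_b (x : ℕ) (y : ℝ) (hy : 2 ≤ y) :
    (((Icc 1 x).filter fun n => Rig n ∧ ∃ p : ℕ, p.Prime ∧ p ∣ n ∧ y < (p : ℝ)).card : ℝ) ≤
      2 * x / y := by
  have hfl : 2 ≤ ⌊y⌋₊ := Nat.le_floor (by exact_mod_cast hy)
  have hfl2 : y / 2 ≤ (⌊y⌋₊ : ℝ) := by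
    have := Nat.lt_floor_add_one y
    linarith
  have hsub : ((Icc 1 x).filter fun n => Rig n ∧ ∃ p : ℕ, p.Prime ∧ p ∣ n ∧ y < (p : ℝ)) ⊆
      ((Ioc ⌊y⌋₊ x).filter Nat.Prime).biUnion fun p => (Icc 1 x).filter fun n => Rig n ∧ p ∣ n := by
    intro n hn
    obtain ⟨hn1, hn2, p, hp, hpn, hyp⟩ := Finset.mem_filter.1 hn
    refine Finset.mem_biUnion.2 ⟨p, Finset.mem_filter.2 ⟨Finset.mem_Ioc.2 ⟨?_, ?_⟩, hp⟩,
      Finset.mem_filter.2 ⟨hn1, hn2, hpn⟩⟩
    · have := Nat.floor_le (show (0 : ℝ) ≤ y by linarith)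
      exact_mod_cast lt_of_le_of_lt this hyp
    · have h1 := (Finset.mem_Icc.1 hn1)
      exact (Nat.le_of_dvd (by omega) hpn).trans h1.2
  have h1 : (((Icc 1 x).filter fun n => Rig n ∧ ∃ p : ℕ, p.Prime ∧ p ∣ n ∧ y < (p : ℝ)).card : ℝ) ≤
      ∑ p ∈ (Ioc ⌊y⌋₊ x).filter Nat.Prime, (x : ℝ) / (p : ℝ) ^ 2 := by
    calc (((Icc 1 x).filter fun n => Rig n ∧ ∃ p : ℕ, p.Prime ∧ p ∣ n ∧ y < (p : ℝ)).card : ℝ)
        ≤ ((((Ioc ⌊y⌋₊ x).filter Nat.Prime).biUnion fun p =>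
            (Icc 1 x).filter fun n => Rig n ∧ p ∣ n).card : ℝ) := by
          exact_mod_cast card_le_card hsub
      _ ≤ ∑ p ∈ (Ioc ⌊y⌋₊ x).filter Nat.Prime,
            (((Icc 1 x).filter fun n => Rig n ∧ p ∣ n).card : ℝ) := by
          exact_mod_cast card_biUnion_le
      _ ≤ _ := Finset.sum_le_sum fun p hp => cnt12_big x p (Finset.mem_filter.1 hp).2
  have h2 : ∑ p ∈ (Ioc ⌊y⌋₊ x).filter Nat.Prime, (x : ℝ) / (p : ℝ) ^ 2 ≤
      x * ∑ p ∈ Ioc ⌊y⌋₊ x, (((p : ℝ) ^ 2)⁻¹) := by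
    rw [Finset.mul_sum]
    refine (Finset.sum_le_sum_of_subset_of_nonneg (Finset.filter_subset _ _) ?_).trans
      (le_of_eq (Finset.sum_congr rfl fun p _ => by rw [div_eq_mul_inv]))
    intros
    positivity
  have h3 : ∑ p ∈ Ioc ⌊y⌋₊ x, (((p : ℝ) ^ 2)⁻¹) ≤ 2 / y := by
    rcases le_or_gt ⌊y⌋₊ x with h | h
    · have h4 := sum_Ioc_inv_sq_le_sub (α := ℝ) (k := ⌊y⌋₊) (n := x) (by omega) h
      have h5 : ((⌊y⌋₊ : ℝ))⁻¹ ≤ 2 / y := by
        rw [show 2 / y = (y / 2)⁻¹ by rw [inv_div]]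
        exact inv_anti₀ (by linarith) hfl2
      have h6 : (0 : ℝ) ≤ (x : ℝ)⁻¹ := by positivity
      linarith
    · rw [Finset.Ioc_eq_empty_of_le h.le]
      simp only [Finset.sum_empty]
      positivity
  calc _ ≤ _ := h1
    _ ≤ _ := h2
    _ ≤ (x : ℝ) * (2 / y) := mul_le_mul_of_nonneg_left h3 (Nat.cast_nonneg _)
    _ = 2 * x / y := by ring

/-- `lcm` of the `(p - 1) / 2` -/
noncomputable def cntA (d : ℕ) : ℕ := d.primeFactors.lcm fun p => (p - 1) / 2

/-- `lcm` of the `(p + 1) / 2` -/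
noncomputable def cntB (d : ℕ) : ℕ := d.primeFactors.lcm fun p => (p + 1) / 2

lemma cnt12_AB {ν d : ℕ} (h : Rig (2 * ν + 1)) (hd : d ∣ 2 * ν + 1) :
    cntA d ∣ ν ∧ cntB d ∣ ν + 1 ∧ Nat.Coprime (cntA d) (cntB d) ∧ 1 ≤ cntA d ∧ 1 ≤ cntB d ∧
      Adm (cntA d) (cntB d) d := by
  have hA : cntA d ∣ ν := by
    refine Finset.lcm_dvd fun p hp => ?_
    obtain ⟨a, ha1, rfl, ha2, ha3⟩ := cnt12_prime h (Nat.prime_of_mem_primeFactors hp)
      ((Nat.dvd_of_mem_primeFactors hp).trans hd)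
    rwa [show (2 * a + 1 - 1) / 2 = a by omega]
  have hB : cntB d ∣ ν + 1 := by
    refine Finset.lcm_dvd fun p hp => ?_
    obtain ⟨a, ha1, rfl, ha2, ha3⟩ := cnt12_prime h (Nat.prime_of_mem_primeFactors hp)
      ((Nat.dvd_of_mem_primeFactors hp).trans hd)
    rwa [show (2 * a + 1 + 1) / 2 = a + 1 by omega]
  have hν : 1 ≤ ν := by
    obtain ⟨ν', h1, h2⟩ := cnt12_odd h
    omega
  refine ⟨hA, hB, ?_, Nat.pos_of_dvd_of_pos hA hν, Nat.pos_of_dvd_of_pos hB (by omega), ?_, ?_⟩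
  · exact Nat.Coprime.of_dvd hA hB (by simp)
  · exact Squarefree.squarefree_of_dvd hd h.2.2.1
  · intro p hp hpd
    have hd0 : d ≠ 0 := by
      rintro rfl
      have := Nat.eq_zero_of_zero_dvd hd
      omega
    obtain ⟨a, ha1, rfl, ha2, ha3⟩ := cnt12_prime h hp (hpd.trans hd)
    have hmem : 2 * a + 1 ∈ d.primeFactors := Nat.mem_primeFactors.2 ⟨hp, hpd, hd0⟩
    refine ⟨a, rfl, ?_, ?_⟩
    · have := Finset.dvd_lcm (f := fun p => (p - 1) / 2) hmem
      simpa [cntA] using this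
    · have := Finset.dvd_lcm (f := fun p => (p + 1) / 2) hmem
      have e : (2 * a + 1 + 1) / 2 = a + 1 := by omega
      simp only [e] at this
      exact this

/-- the numbers with a given divisor -/
lemma cnt12_d (x d : ℕ) (hx : 1 ≤ x) (hd0 : 1 ≤ d) :
    (((Icc 1 x).filter fun n => Rig n ∧ d ∣ n).card : ℝ) ≤
      x / 2 * (1 / ((cntA d : ℝ) * cntB d) * (1 / (d : ℝ))) + 1 := by
  rcases ((Icc 1 x).filter fun n => Rig n ∧ d ∣ n).eq_empty_or_nonempty with he | ⟨n0, hn0⟩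
  · rw [he]
    simp only [card_empty, Nat.cast_zero]
    positivity
  have hAB : 1 ≤ cntA d ∧ 1 ≤ cntB d := by
    obtain ⟨-, h1, h2⟩ := Finset.mem_filter.1 hn0
    obtain ⟨ν, hν, rfl⟩ := cnt12_odd h1
    obtain ⟨-, -, -, h3, h4, -⟩ := cnt12_AB h1 h2
    exact ⟨h3, h4⟩
  set N : ℕ := d * (cntA d * cntB d) with hN
  have hN1 : 1 ≤ N := Nat.mul_pos hd0 (Nat.mul_pos hAB.1 hAB.2)
  have hinj : ((Icc 1 x).filter fun n => Rig n ∧ d ∣ n).card ≤ (range ((x / 2) / N + 1)).card := by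
    refine Finset.card_le_card_of_injOn (fun n => (n / 2) / N) ?_ ?_
    · intro n hn
      obtain ⟨hn1, -, -⟩ := Finset.mem_filter.1 (Finset.mem_coe.1 hn)
      have h1 := (Finset.mem_Icc.1 hn1).2
      refine Finset.mem_coe.2 (Finset.mem_range.2 (Nat.lt_succ_of_le ?_))
      exact Nat.div_le_div_right (Nat.div_le_div_right h1)
    · intro n hn n' hn' heq
      obtain ⟨-, h1, h2⟩ := Finset.mem_filter.1 (Finset.mem_coe.1 hn)
      obtain ⟨-, h1', h2'⟩ := Finset.mem_filter.1 (Finset.mem_coe.1 hn')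
      obtain ⟨ν, hν, rfl⟩ := cnt12_odd h1
      obtain ⟨ν', hν', rfl⟩ := cnt12_odd h1'
      obtain ⟨a1, a2, a3, -, -, -⟩ := cnt12_AB h1 h2
      obtain ⟨b1, b2, -, -, -, -⟩ := cnt12_AB h1' h2'
      have e1 : (2 * ν + 1) / 2 = ν := by omega
      have e2 : (2 * ν' + 1) / 2 = ν' := by omega
      simp only [e1, e2] at heq
      -- congruences
      have c1 : ν ≡ ν' [MOD cntA d] :=
        ((Nat.modEq_zero_iff_dvd).2 a1).trans ((Nat.modEq_zero_iff_dvd).2 b1).symm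
      have c2 : ν ≡ ν' [MOD cntB d] :=
        Nat.ModEq.add_right_cancel' 1
          (((Nat.modEq_zero_iff_dvd).2 a2).trans ((Nat.modEq_zero_iff_dvd).2 b2).symm)
      have hcop2 : Nat.Coprime d 2 := by
        refine Nat.Coprime.of_dvd_left h2 ?_
        rw [Nat.coprime_two_right]
        exact ⟨ν, rfl⟩
      have c3 : ν ≡ ν' [MOD d] := by
        have h3 : 2 * ν + 1 ≡ 2 * ν' + 1 [MOD d] :=
          ((Nat.modEq_zero_iff_dvd).2 h2).trans ((Nat.modEq_zero_iff_dvd).2 h2').symm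
        have h4 : 2 * ν ≡ 2 * ν' [MOD d] := Nat.ModEq.add_right_cancel' 1 h3
        exact Nat.ModEq.cancel_left_of_coprime (by exact hcop2) h4
      have hdA : Nat.Coprime d (cntA d) := by
        refine Nat.Coprime.of_dvd h2 a1 ?_
        rw [show 2 * ν + 1 = 1 + ν * 2 by ring]
        simp
      have hdB : Nat.Coprime d (cntB d) := by
        refine Nat.Coprime.of_dvd h2 a2 ?_
        rw [show 2 * ν + 1 = ν + (ν + 1) by ring]
        simp
      have c4 : ν ≡ ν' [MOD cntA d * cntB d] :=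
        (Nat.modEq_and_modEq_iff_modEq_mul a3).1 ⟨c1, c2⟩
      have c5 : ν ≡ ν' [MOD N] :=
        (Nat.modEq_and_modEq_iff_modEq_mul (Nat.Coprime.mul_right hdA hdB)).1 ⟨c3, c4⟩
      have h5 := Nat.div_add_mod ν N
      have h6 := Nat.div_add_mod ν' N
      have h7 : ν % N = ν' % N := c5
      rw [heq, h7] at h5
      omega
  rw [card_range] at hinj
  have hNr : (N : ℝ) = d * (cntA d * cntB d) := by
    rw [hN]
    push_cast
    ring
  have hd0' : (0 : ℝ) < d := by exact_mod_cast hd0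
  have hA0 : (0 : ℝ) < cntA d := by exact_mod_cast hAB.1
  have hB0 : (0 : ℝ) < cntB d := by exact_mod_cast hAB.2
  calc (((Icc 1 x).filter fun n => Rig n ∧ d ∣ n).card : ℝ)
      ≤ (((x / 2) / N + 1 : ℕ) : ℝ) := by exact_mod_cast hinj
    _ = (((x / 2) / N : ℕ) : ℝ) + 1 := by push_cast; ring
    _ ≤ (((x / 2 : ℕ) : ℝ)) / N + 1 := by
        have := Nat.cast_div_le (α := ℝ) (m := x / 2) (n := N)
        linarith
    _ ≤ ((x : ℝ) / 2) / N + 1 := by
        have h1 : ((x / 2 : ℕ) : ℝ) ≤ (x : ℝ) / 2 := by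
          have := Nat.cast_div_le (α := ℝ) (m := x) (n := 2)
          simpa using this
        have h2 : (0 : ℝ) ≤ N := Nat.cast_nonneg _
        have := div_le_div_of_nonneg_right h1 h2
        linarith
    _ = x / 2 * (1 / ((cntA d : ℝ) * cntB d) * (1 / (d : ℝ))) + 1 := by
        rw [hNr]
        field_simp

/-- module CNT -/
theorem stCnt_12 : StCnt := by
  intro x M y D hx hM hy hD
  set DD : Finset ℕ := (Icc 1 x).filter fun d : ℕ => D < (d : ℝ) ∧ (d : ℝ) ≤ D * y ∧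
    ∃ n : ℕ, Rig n ∧ d ∣ n with hDD
  have hD0 : (0 : ℝ) < D := by linarith
  have hy0 : (0 : ℝ) < y := by linarith
  -- the covering
  have hcov : (Icc 1 x).filter Rig ⊆
      ((Icc 1 x).filter fun n => Rig n ∧ ∃ p : ℕ, p.Prime ∧ p ∣ n ∧ y < (p : ℝ)) ∪
        ((Icc 1 ⌊D⌋₊) ∪ DD.biUnion fun d => (Icc 1 x).filter fun n => Rig n ∧ d ∣ n) := by
    intro n hn
    obtain ⟨hn1, hn2⟩ := Finset.mem_filter.1 hn
    have hn3 := Finset.mem_Icc.1 hn1
    by_cases h1 : ∃ p : ℕ, p.Prime ∧ p ∣ n ∧ y < (p : ℝ)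
    · exact Finset.mem_union_left _ (Finset.mem_filter.2 ⟨hn1, hn2, h1⟩)
    · refine Finset.mem_union_right _ ?_
      push Not at h1
      rcases le_or_gt (n : ℝ) D with h2 | h2
      · exact Finset.mem_union_left _ (Finset.mem_Icc.2 ⟨hn3.1, Nat.le_floor h2⟩)
      · refine Finset.mem_union_right _ ?_
        obtain ⟨d, hd1, hd2, hd3⟩ := div12_greedy hn3.1 h1 hD h2
        have hd4 : d ≤ n := Nat.le_of_dvd hn3.1 hd1
        have hd5 : 1 ≤ d := Nat.pos_of_dvd_of_pos hd1 hn3.1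
        refine Finset.mem_biUnion.2 ⟨d, ?_, Finset.mem_filter.2 ⟨hn1, hn2, hd1⟩⟩
        refine Finset.mem_filter.2 ⟨Finset.mem_Icc.2 ⟨hd5, hd4.trans hn3.2⟩, hd2, ?_, n, hn2, hd1⟩
        rw [mul_comm]
        exact hd3
  have hcard : (((Icc 1 x).filter Rig).card : ℝ) ≤ 2 * x / y + (D + ∑ d ∈ DD,
      (((Icc 1 x).filter fun n => Rig n ∧ d ∣ n).card : ℝ)) := by
    have h1 := card_le_card hcov
    have h2 := h1.trans (card_union_le _ _)
    have h3 := card_union_le (Icc 1 ⌊D⌋₊) (DD.biUnion fun d => (Icc 1 x).filter fun n => Rig n ∧ d ∣ n)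
    have h4 := card_biUnion_le (s := DD) (t := fun d => (Icc 1 x).filter fun n => Rig n ∧ d ∣ n)
    have h5 := cnt12_b x y hy
    have h6 : ((Icc 1 ⌊D⌋₊).card : ℝ) ≤ D := by
      rw [Nat.card_Icc]
      simpa using Nat.floor_le hD0.le
    have h2' : (((Icc 1 x).filter Rig).card : ℝ) ≤
        ((((Icc 1 x).filter fun n => Rig n ∧ ∃ p : ℕ, p.Prime ∧ p ∣ n ∧ y < (p : ℝ)).card : ℕ) : ℝ) +
        (((Icc 1 ⌊D⌋₊ ∪ DD.biUnion fun d => (Icc 1 x).filter fun n => Rig n ∧ d ∣ n).card : ℕ) : ℝ) := by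
      exact_mod_cast h2
    have h3' : (((Icc 1 ⌊D⌋₊ ∪ DD.biUnion fun d => (Icc 1 x).filter fun n => Rig n ∧ d ∣ n).card : ℕ) : ℝ)
        ≤ ((Icc 1 ⌊D⌋₊).card : ℝ) +
          ((DD.biUnion fun d => (Icc 1 x).filter fun n => Rig n ∧ d ∣ n).card : ℝ) := by
      exact_mod_cast h3
    have h4' : ((DD.biUnion fun d => (Icc 1 x).filter fun n => Rig n ∧ d ∣ n).card : ℝ) ≤
        ∑ d ∈ DD, (((Icc 1 x).filter fun n => Rig n ∧ d ∣ n).card : ℝ) := by
      exact_mod_cast h4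
    linarith
  have hDDc : (DD.card : ℝ) ≤ D * y := by
    have h1 : DD ⊆ Icc 1 ⌊D * y⌋₊ := by
      intro d hd
      obtain ⟨hd1, -, hd2, -⟩ := Finset.mem_filter.1 hd
      exact Finset.mem_Icc.2 ⟨(Finset.mem_Icc.1 hd1).1, Nat.le_floor hd2⟩
    have h2 := card_le_card h1
    rw [Nat.card_Icc] at h2
    have h3 : (DD.card : ℝ) ≤ (⌊D * y⌋₊ : ℝ) := by
      exact_mod_cast (by omega : DD.card ≤ ⌊D * y⌋₊)
    exact h3.trans (Nat.floor_le (by positivity))
  have hsum : ∑ d ∈ DD, (((Icc 1 x).filter fun n => Rig n ∧ d ∣ n).card : ℝ) ≤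
      x / 2 * (∑ d ∈ DD, 1 / ((cntA d : ℝ) * cntB d) * (1 / (d : ℝ))) + D * y := by
    calc ∑ d ∈ DD, (((Icc 1 x).filter fun n => Rig n ∧ d ∣ n).card : ℝ)
        ≤ ∑ d ∈ DD, (x / 2 * (1 / ((cntA d : ℝ) * cntB d) * (1 / (d : ℝ))) + 1) := by
          refine Finset.sum_le_sum fun d hd => cnt12_d x d hx ?_
          exact (Finset.mem_Icc.1 (Finset.mem_filter.1 hd).1).1
      _ = x / 2 * (∑ d ∈ DD, 1 / ((cntA d : ℝ) * cntB d) * (1 / (d : ℝ))) + DD.card := by
          rw [Finset.sum_add_distrib, Finset.mul_sum]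
          simp
      _ ≤ _ := by linarith
  -- properties of the members
  have hprop : ∀ d ∈ DD, Nat.Coprime (cntA d) (cntB d) ∧ 1 ≤ cntA d ∧ 1 ≤ cntB d ∧
      Adm (cntA d) (cntB d) d := by
    intro d hd
    obtain ⟨-, -, -, n, h1, h2⟩ := Finset.mem_filter.1 hd
    obtain ⟨ν, hν, rfl⟩ := cnt12_odd h1
    exact (cnt12_AB h1 h2).2.2
  -- split
  set P : Finset (ℕ × ℕ) := ((Icc 1 M) ×ˢ (Icc 1 M)).filter (fun m => Nat.Coprime m.1 m.2) with hP
  have hsplit : ∑ d ∈ DD, 1 / ((cntA d : ℝ) * cntB d) * (1 / (d : ℝ)) ≤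
      (∑ m ∈ P, 1 / ((m.1 : ℝ) * m.2) *
          ∑ d ∈ (Icc 1 x).filter (fun d : ℕ => D < (d : ℝ) ∧ Adm m.1 m.2 d), 1 / (d : ℝ)) +
        1 / M * (1 + log x) := by
    rw [← Finset.sum_filter_add_sum_filter_not DD (fun d => cntA d ≤ M ∧ cntB d ≤ M)]
    refine add_le_add ?_ ?_
    · have hmaps : ∀ d ∈ DD.filter (fun d => cntA d ≤ M ∧ cntB d ≤ M), (cntA d, cntB d) ∈ P := by
        intro d hd
        obtain ⟨hd1, hd2, hd3⟩ := Finset.mem_filter.1 hd
        obtain ⟨h1, h2, h3, -⟩ := hprop d hd1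
        exact Finset.mem_filter.2 ⟨Finset.mem_product.2 ⟨Finset.mem_Icc.2 ⟨h2, hd2⟩,
          Finset.mem_Icc.2 ⟨h3, hd3⟩⟩, h1⟩
      rw [← Finset.sum_fiberwise_of_maps_to hmaps]
      refine Finset.sum_le_sum fun m hm => ?_
      rw [Finset.mul_sum]
      have h1 : ∑ d ∈ (DD.filter (fun d => cntA d ≤ M ∧ cntB d ≤ M)).filter
            (fun d => (cntA d, cntB d) = m), 1 / ((cntA d : ℝ) * cntB d) * (1 / (d : ℝ)) =
          ∑ d ∈ (DD.filter (fun d => cntA d ≤ M ∧ cntB d ≤ M)).filter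
            (fun d => (cntA d, cntB d) = m), 1 / ((m.1 : ℝ) * m.2) * (1 / (d : ℝ)) := by
        refine Finset.sum_congr rfl fun d hd => ?_
        obtain ⟨-, h2⟩ := Finset.mem_filter.1 hd
        rw [← h2]
      rw [h1]
      refine Finset.sum_le_sum_of_subset_of_nonneg ?_ ?_
      · intro d hd
        obtain ⟨hd1, h2⟩ := Finset.mem_filter.1 hd
        obtain ⟨hd2, -⟩ := Finset.mem_filter.1 hd1
        obtain ⟨hd3, hd4, -, -⟩ := Finset.mem_filter.1 hd2
        refine Finset.mem_filter.2 ⟨hd3, hd4, ?_⟩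
        have h3 := (hprop d hd2).2.2.2
        rw [← h2]
        exact h3
      · intros
        positivity
    · calc ∑ d ∈ DD.filter (fun d => ¬ (cntA d ≤ M ∧ cntB d ≤ M)),
            1 / ((cntA d : ℝ) * cntB d) * (1 / (d : ℝ))
          ≤ ∑ d ∈ DD.filter (fun d => ¬ (cntA d ≤ M ∧ cntB d ≤ M)), 1 / (M : ℝ) * (1 / (d : ℝ)) := by
            refine Finset.sum_le_sum fun d hd => ?_
            obtain ⟨hd1, hd2⟩ := Finset.mem_filter.1 hd
            obtain ⟨-, h2, h3, -⟩ := hprop d hd1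
            refine mul_le_mul_of_nonneg_right ?_ (by positivity)
            have hM0 : (0 : ℝ) < M := by exact_mod_cast hM
            have h2' : (1 : ℝ) ≤ cntA d := by exact_mod_cast h2
            have h3' : (1 : ℝ) ≤ cntB d := by exact_mod_cast h3
            refine one_div_le_one_div_of_le hM0 ?_
            by_cases h4 : cntA d ≤ M
            · have h5 : M < cntB d := by
                by_contra h6
                exact hd2 ⟨h4, not_lt.1 h6⟩
              have h5' : (M : ℝ) ≤ cntB d := by exact_mod_cast h5.le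
              nlinarith
            · have h5' : (M : ℝ) ≤ cntA d := by exact_mod_cast (not_le.1 h4).le
              nlinarith
        _ ≤ ∑ d ∈ Icc 1 x, 1 / (M : ℝ) * (1 / (d : ℝ)) := by
            refine Finset.sum_le_sum_of_subset_of_nonneg ?_ ?_
            · exact (Finset.filter_subset _ _).trans (Finset.filter_subset _ _)
            · intros
              positivity
        _ = 1 / (M : ℝ) * ((harmonic x : ℚ) : ℝ) := by
            rw [← Finset.mul_sum, harmonic_eq_sum_Icc]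
            push_cast
            simp only [one_div]
        _ ≤ 1 / M * (1 + log x) := by
            refine mul_le_mul_of_nonneg_left (harmonic_le_one_add_log x) (by positivity)
  have hx0 : (0 : ℝ) ≤ x := Nat.cast_nonneg _
  have hM0 : (0 : ℝ) < M := by exact_mod_cast hM
  have hlog : 0 ≤ log (x : ℝ) := Real.log_natCast_nonneg x
  have hfin := mul_le_mul_of_nonneg_left hsplit (show (0 : ℝ) ≤ x / 2 by positivity)
  have h1 : D ≤ D * y := by nlinarith
  have h2 : 2 * (x : ℝ) / y ≤ 16 * x / y := by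
    apply div_le_div_of_nonneg_right _ hy0.le
    linarith
  have h3 : (x : ℝ) / 2 * (1 / M * (1 + log x)) ≤ x / M * (1 + log x) := by
    have h4 : 0 ≤ (x : ℝ) / M * (1 + log x) := by positivity
    have h5 : (x : ℝ) / 2 * (1 / M * (1 + log x)) = (x / M * (1 + log x)) / 2 := by ring
    rw [h5]
    linarith
  rw [mul_add] at hfin
  linarith

end Pool.Agent.Lib.MP_2d8e53_nt.W
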