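import Pool.Agent.Lib.MP_2d8e53_nt.W.Stmts95

/-!
EU: the Euler product (helper12).
-/

set_option autoImplicit false

namespace Pool.Agent.Lib.MP_2d8e53_nt.W

open Finset Real
open scoped Classical

lemma eu12_inv {t : ℝ} (h0 : 0 ≤ t) (h1 : t ^ 2 ≤ 1 / 2) : (1 - t)⁻¹ ≤ exp (2 * t) := by
  have ht : t < 1 := by nlinarith
  have h2 := Real.quadratic_le_exp_of_nonneg (show 0 ≤ 2 * t by linarith)
  rw [inv_le_iff_one_le_mul₀ (by linarith)]
  have h3 : (1 + 2 * t + (2 * t) ^ 2 / 2) * (1 - t) ≤ exp (2 * t) * (1 - t) :=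
    mul_le_mul_of_nonneg_right h2 (by linarith)
  have h4 : 0 ≤ t * (1 - 2 * t ^ 2) := mul_nonneg h0 (by linarith)
  nlinarith

lemma eu12_sq {δ : ℝ} (hδ : δ ≤ 1 / 2) {q : ℕ} (hq : 2 ≤ q) :
    0 ≤ (q : ℝ) ^ (δ - 1) ∧ ((q : ℝ) ^ (δ - 1)) ^ 2 ≤ 1 / 2 := by
  have hq' : (2 : ℝ) ≤ q := by exact_mod_cast hq
  refine ⟨by positivity, ?_⟩
  have h1 : ((q : ℝ) ^ (δ - 1)) ^ 2 = (q : ℝ) ^ ((δ - 1) * 2) := by
    rw [Real.rpow_mul (by positivity)]
    exact (Real.rpow_natCast _ 2).symm
  rw [h1]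
  calc (q : ℝ) ^ ((δ - 1) * 2) ≤ (q : ℝ) ^ (-1 : ℝ) :=
        Real.rpow_le_rpow_of_exponent_le (by linarith) (by linarith)
    _ = (q : ℝ)⁻¹ := Real.rpow_neg_one _
    _ ≤ 1 / 2 := by
        rw [one_div]
        exact inv_anti₀ (by norm_num) hq'

lemma eu12_EP {δ : ℝ} (hδ : δ ≤ 1 / 2) (m : ℕ) :
    EP δ m ≤ exp (2 * ∑ q ∈ m.primeFactors, (q : ℝ) ^ (δ - 1)) := by
  rw [EP, Finset.mul_sum, Real.exp_sum]
  refine Finset.prod_le_prod (fun q hq => ?_) (fun q hq => ?_)
  · obtain ⟨h1, h2⟩ := eu12_sq hδ (Nat.prime_of_mem_primeFactors hq).two_le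
    rw [inv_nonneg]
    nlinarith
  · obtain ⟨h1, h2⟩ := eu12_sq hδ (Nat.prime_of_mem_primeFactors hq).two_le
    exact eu12_inv h1 h2

lemma eu12_big {z δ : ℝ} (hz : 1 < z) (hδ : δ ≤ 1) {m : ℕ} (hm : 1 ≤ m) (hmz : log m ≤ z) :
    ∑ q ∈ m.primeFactors.filter (fun q : ℕ => z < (q : ℝ)), (q : ℝ) ^ (δ - 1) ≤
      z ^ δ / log z := by
  have hw : 0 < log z := Real.log_pos hz
  have hz0 : 0 < z := by linarith
  calc ∑ q ∈ m.primeFactors.filter (fun q : ℕ => z < (q : ℝ)), (q : ℝ) ^ (δ - 1)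
      ≤ ∑ q ∈ m.primeFactors.filter (fun q : ℕ => z < (q : ℝ)),
          z ^ (δ - 1) / log z * log q := by
        refine Finset.sum_le_sum fun q hq => ?_
        obtain ⟨hq1, hq2⟩ := Finset.mem_filter.1 hq
        have h1 : (q : ℝ) ^ (δ - 1) ≤ z ^ (δ - 1) :=
          Real.rpow_le_rpow_of_nonpos (by linarith) hq2.le (by linarith)
        have h2 : 1 ≤ log q / log z := by
          rw [one_le_div hw]
          exact Real.log_le_log (by linarith) hq2.le
        calc (q : ℝ) ^ (δ - 1) ≤ z ^ (δ - 1) * 1 := by linarith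
          _ ≤ z ^ (δ - 1) * (log q / log z) := mul_le_mul_of_nonneg_left h2 (by positivity)
          _ = z ^ (δ - 1) / log z * log q := by ring
    _ ≤ ∑ q ∈ m.primeFactors, z ^ (δ - 1) / log z * log q := by
        refine Finset.sum_le_sum_of_subset_of_nonneg (Finset.filter_subset _ _) ?_
        intro q hq _
        have := Real.log_natCast_nonneg q
        positivity
    _ = z ^ (δ - 1) / log z * log ((∏ q ∈ m.primeFactors, q : ℕ) : ℝ) := by
        rw [← Finset.mul_sum]
        push_cast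
        rw [Real.log_prod]
        intro q hq
        have := (Nat.prime_of_mem_primeFactors hq).pos
        positivity
    _ ≤ z ^ (δ - 1) / log z * z := by
        refine mul_le_mul_of_nonneg_left ?_ (by positivity)
        refine le_trans ?_ hmz
        have h3 : 0 < ∏ q ∈ m.primeFactors, q :=
          Finset.prod_pos fun q hq => (Nat.prime_of_mem_primeFactors hq).pos
        refine Real.log_le_log (by exact_mod_cast h3) ?_
        exact_mod_cast Nat.le_of_dvd hm (Nat.prod_primeFactors_dvd m)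
    _ = z ^ δ / log z := by
        rw [Real.rpow_sub_one hz0.ne']
        field_simp

lemma eu12_block {j : ℕ} (hj : 1 ≤ j) {δ : ℝ} (hδ : δ ≤ 1) (S : Finset ℕ)
    (hS : ∀ p ∈ S, p.Prime ∧ Nat.log 2 p = j) :
    ∑ p ∈ S, (p : ℝ) ^ (δ - 1) ≤ 4 / j * ((2 : ℝ) ^ δ) ^ j := by
  have h2 : 0 < log 2 := Real.log_pos (by norm_num)
  have hj0 : (0 : ℝ) < j := by exact_mod_cast hj
  have hθ := Chebyshev.theta_le_log4_mul_x (x := (2 : ℝ) ^ (j + 1)) (by positivity)
  have hc : 0 ≤ ((2 : ℝ) ^ j) ^ (δ - 1) / (j * log 2) := by positivity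
  calc ∑ p ∈ S, (p : ℝ) ^ (δ - 1)
      ≤ ∑ p ∈ S, ((2 : ℝ) ^ j) ^ (δ - 1) / (j * log 2) * log p := by
        refine Finset.sum_le_sum fun p hp => ?_
        obtain ⟨h3, h4⟩ := hS p hp
        have h5 : 2 ^ j ≤ p := by
          rw [← h4]
          exact Nat.pow_log_le_self 2 h3.ne_zero
        have h5' : (2 : ℝ) ^ j ≤ p := by exact_mod_cast h5
        have h6 : (p : ℝ) ^ (δ - 1) ≤ ((2 : ℝ) ^ j) ^ (δ - 1) :=
          Real.rpow_le_rpow_of_nonpos (by positivity) h5' (by linarith)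
        have h7 : 1 ≤ log p / (j * log 2) := by
          rw [one_le_div (by positivity), ← Real.log_pow]
          exact Real.log_le_log (by positivity) h5'
        calc (p : ℝ) ^ (δ - 1) ≤ ((2 : ℝ) ^ j) ^ (δ - 1) * 1 := by linarith
          _ ≤ ((2 : ℝ) ^ j) ^ (δ - 1) * (log p / (j * log 2)) :=
              mul_le_mul_of_nonneg_left h7 (by positivity)
          _ = _ := by ring
    _ = ((2 : ℝ) ^ j) ^ (δ - 1) / (j * log 2) * ∑ p ∈ S, log p := by rw [Finset.mul_sum]
    _ ≤ ((2 : ℝ) ^ j) ^ (δ - 1) / (j * log 2) * Chebyshev.theta ((2 : ℝ) ^ (j + 1)) := by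
        refine mul_le_mul_of_nonneg_left ?_ hc
        rw [Chebyshev.theta]
        refine Finset.sum_le_sum_of_subset_of_nonneg ?_ ?_
        · intro p hp
          obtain ⟨h3, h4⟩ := hS p hp
          refine Finset.mem_filter.2 ⟨Finset.mem_Ioc.2 ⟨h3.pos, ?_⟩, h3⟩
          refine Nat.le_floor ?_
          have h5 : p < 2 ^ (j + 1) := by
            rw [← h4]
            exact Nat.lt_pow_succ_log_self (by norm_num) p
          exact_mod_cast h5.le
        · intro p hp _
          exact Real.log_natCast_nonneg p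
    _ ≤ ((2 : ℝ) ^ j) ^ (δ - 1) / (j * log 2) * (log 4 * (2 : ℝ) ^ (j + 1)) :=
        mul_le_mul_of_nonneg_left hθ hc
    _ = 4 / j * ((2 : ℝ) ^ δ) ^ j := by
        have e1 : ((2 : ℝ) ^ j) ^ (δ - 1) = ((2 : ℝ) ^ δ) ^ j / 2 ^ j := by
          rw [Real.rpow_sub_one (by positivity)]
          congr 1
          rw [← Real.rpow_natCast 2 j, ← Real.rpow_mul (by norm_num), mul_comm,
            Real.rpow_mul (by norm_num), Real.rpow_natCast]
        have e2 : log 4 = 2 * log 2 := by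
          rw [show (4 : ℝ) = 2 ^ 2 by norm_num, Real.log_pow]
          norm_num
        rw [e1, e2, pow_succ]
        field_simp
        ring

lemma eu12_small {z δ : ℝ} (hz : 2 ≤ z) (hδ0 : 0 < δ) (hδ : δ ≤ 1 / 2) (m : ℕ) :
    ∑ q ∈ m.primeFactors.filter (fun q : ℕ => ¬ z < (q : ℝ)), (q : ℝ) ^ (δ - 1) ≤
      4 * √(z ^ δ) * (1 + log (Nat.log 2 ⌊z⌋₊)) + 32 * z ^ δ / (δ * Nat.log 2 ⌊z⌋₊) := by
  set J : ℕ := Nat.log 2 ⌊z⌋₊ with hJ
  have hfl : 2 ≤ ⌊z⌋₊ := Nat.le_floor (by exact_mod_cast hz)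
  have hJ1 : 1 ≤ J := Nat.log_pos (by norm_num) hfl
  have hJ0 : (0 : ℝ) < J := by exact_mod_cast hJ1
  have hzJ : (2 : ℝ) ^ J ≤ z := by
    have h1 : 2 ^ J ≤ ⌊z⌋₊ := Nat.pow_log_le_self 2 (by omega)
    have h2 := Nat.floor_le (show (0 : ℝ) ≤ z by linarith)
    exact le_trans (by exact_mod_cast h1) h2
  set r : ℝ := (2 : ℝ) ^ δ with hr
  have hr1 : 1 < r := Real.one_lt_rpow (by norm_num) hδ0
  have hr2 : r ≤ 2 := by
    calc r ≤ (2 : ℝ) ^ (1 : ℝ) := Real.rpow_le_rpow_of_exponent_le (by norm_num) (by linarith)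
      _ = 2 := Real.rpow_one 2
  have hrJ : r ^ J ≤ z ^ δ := by
    rw [hr, ← Real.rpow_natCast, ← Real.rpow_mul (by norm_num), mul_comm,
      Real.rpow_mul (by norm_num), Real.rpow_natCast]
    exact Real.rpow_le_rpow (by positivity) hzJ hδ0.le
  have hr3 : δ / 2 ≤ r - 1 := by
    have h1 : r = exp (log 2 * δ) := by rw [hr, Real.rpow_def_of_pos (by norm_num)]
    have h2 := Real.add_one_le_exp (log 2 * δ)
    have h3 : (0.5 : ℝ) ≤ log 2 := by
      have := Real.log_two_gt_d9
      linarith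
    rw [h1]
    nlinarith
  -- the fibres
  have hmaps : ∀ q ∈ m.primeFactors.filter (fun q : ℕ => ¬ z < (q : ℝ)), Nat.log 2 q ∈ Icc 1 J := by
    intro q hq
    obtain ⟨hq1, hq2⟩ := Finset.mem_filter.1 hq
    have hqp := Nat.prime_of_mem_primeFactors hq1
    refine Finset.mem_Icc.2 ⟨Nat.log_pos (by norm_num) hqp.two_le, ?_⟩
    exact Nat.log_mono_right (Nat.le_floor (not_lt.1 hq2))
  rw [← Finset.sum_fiberwise_of_maps_to hmaps]
  calc ∑ j ∈ Icc 1 J, ∑ q ∈ (m.primeFactors.filter (fun q : ℕ => ¬ z < (q : ℝ))).filter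
          (fun q => Nat.log 2 q = j), (q : ℝ) ^ (δ - 1)
      ≤ ∑ j ∈ Icc 1 J, 4 / (j : ℝ) * r ^ j := by
        refine Finset.sum_le_sum fun j hj => ?_
        refine eu12_block (Finset.mem_Icc.1 hj).1 (by linarith) _ ?_
        intro p hp
        obtain ⟨h1, h2⟩ := Finset.mem_filter.1 hp
        exact ⟨Nat.prime_of_mem_primeFactors (Finset.mem_filter.1 h1).1, h2⟩
    _ ≤ ∑ j ∈ Icc 1 J, (4 * √(z ^ δ) * (j : ℝ)⁻¹ + 8 / J * r ^ j) := by
        refine Finset.sum_le_sum fun j hj => ?_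
        have hj1 := (Finset.mem_Icc.1 hj).1
        have hj0 : (0 : ℝ) < j := by exact_mod_cast hj1
        have hrj : 0 < r ^ j := by positivity
        by_cases h1 : 2 * j ≤ J
        · have h2 : r ^ j ≤ √(z ^ δ) := by
            refine Real.le_sqrt_of_sq_le ?_
            rw [← pow_mul]
            refine le_trans (pow_le_pow_right₀ hr1.le ?_) hrJ
            omega
          have h3 : 4 / (j : ℝ) * r ^ j ≤ 4 * √(z ^ δ) * (j : ℝ)⁻¹ := by
            calc 4 / (j : ℝ) * r ^ j ≤ 4 / (j : ℝ) * √(z ^ δ) :=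
                  mul_le_mul_of_nonneg_left h2 (by positivity)
              _ = _ := by rw [div_eq_mul_inv]; ring
          have h4 : 0 ≤ 8 / (J : ℝ) * r ^ j := by positivity
          linarith
        · have h2 : 4 / (j : ℝ) ≤ 8 / J := by
            rw [div_le_div_iff₀ hj0 hJ0]
            have h3 : (J : ℝ) ≤ 2 * j := by exact_mod_cast (not_le.1 h1).le
            linarith
          have h3 := mul_le_mul_of_nonneg_right h2 hrj.le
          have h4 : 0 ≤ 4 * √(z ^ δ) * (j : ℝ)⁻¹ := by positivity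
          linarith
    _ = 4 * √(z ^ δ) * ∑ j ∈ Icc 1 J, (j : ℝ)⁻¹ + 8 / J * ∑ j ∈ Icc 1 J, r ^ j := by
        rw [Finset.sum_add_distrib, Finset.mul_sum, Finset.mul_sum]
    _ ≤ 4 * √(z ^ δ) * (1 + log J) + 8 / J * (4 * z ^ δ / δ) := by
        refine add_le_add (mul_le_mul_of_nonneg_left ?_ (by positivity))
          (mul_le_mul_of_nonneg_left ?_ (by positivity))
        · have h1 := harmonic_le_one_add_log J
          rw [harmonic_eq_sum_Icc] at h1
          push_cast at h1
          exact h1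
        · have h1 : ∑ j ∈ Icc 1 J, r ^ j ≤ ∑ j ∈ range (J + 1), r ^ j := by
            refine Finset.sum_le_sum_of_subset_of_nonneg ?_ ?_
            · intro j hj
              have := (Finset.mem_Icc.1 hj).2
              exact Finset.mem_range.2 (by omega)
            · intros
              positivity
          have h2 : ∑ j ∈ range (J + 1), r ^ j = (r ^ (J + 1) - 1) / (r - 1) :=
            geom_sum_eq hr1.ne' _
          refine h1.trans ?_
          rw [h2, div_le_div_iff₀ (by linarith) hδ0]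
          have h3 : r ^ (J + 1) ≤ 2 * z ^ δ := by
            rw [pow_succ]
            have h5 : 0 ≤ r ^ J := by positivity
            nlinarith
          have h4 : 0 < z ^ δ := by positivity
          calc (r ^ (J + 1) - 1) * δ ≤ (2 * z ^ δ) * δ :=
                mul_le_mul_of_nonneg_right (by linarith) hδ0.le
            _ = 4 * z ^ δ * (δ / 2) := by ring
            _ ≤ 4 * z ^ δ * (r - 1) := mul_le_mul_of_nonneg_left hr3 (by positivity)
    _ = _ := by
        field_simp
        ring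

/-- module EU -/
theorem stEu_12 : StEu := by
  -- eventual facts in `w`
  have hev1 : ∀ᶠ w : ℝ in Filter.atTop, 4 * log w ≤ w := by
    have h := Real.isLittleO_log_id_atTop.bound (show (0 : ℝ) < 1 / 4 by norm_num)
    filter_upwards [h, Filter.eventually_ge_atTop (1 : ℝ)] with w h1 h2
    rw [Real.norm_of_nonneg (Real.log_nonneg h2)] at h1
    simp only [id, Real.norm_eq_abs, abs_of_nonneg (show (0 : ℝ) ≤ w by linarith)] at h1
    linarith
  have hev2 : ∀ᶠ w : ℝ in Filter.atTop, log w ≤ w ^ (1 / 8 : ℝ) / 2 := by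
    have h := (isLittleO_log_rpow_atTop (show (0 : ℝ) < 1 / 8 by norm_num)).bound
      (show (0 : ℝ) < 1 / 2 by norm_num)
    filter_upwards [h, Filter.eventually_ge_atTop (1 : ℝ)] with w h1 h2
    rw [Real.norm_of_nonneg (Real.log_nonneg h2), Real.norm_of_nonneg (by positivity)] at h1
    linarith
  have hev : ∀ᶠ w : ℝ in Filter.atTop, 10 ≤ w ∧ 4 * log w ≤ w ∧ log w ≤ w ^ (1 / 8 : ℝ) / 2 :=
    (Filter.eventually_ge_atTop 10).and (hev1.and hev2)
  obtain ⟨z₀, hz₀⟩ := Filter.eventually_atTop.1 (Real.tendsto_log_atTop.eventually hev)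
  refine ⟨138, max z₀ 3, by norm_num, ?_⟩
  intro z hz u hu1 hu2 m hm hmz
  obtain ⟨hw10, hw4, hw8⟩ := hz₀ z (le_trans (le_max_left _ _) hz)
  have hz3 : 3 ≤ z := le_trans (le_max_right _ _) hz
  set w : ℝ := log z with hw
  have hw0 : 0 < w := by linarith
  have hz0 : 0 < z := by linarith
  -- `log w`
  have hw2 : 1 < log w := by
    rw [Real.lt_log_iff_exp_lt hw0]
    have := Real.exp_one_lt_d9
    linarith
  have hsw : 1 < √w := by
    rw [Real.lt_sqrt (by norm_num)]
    linarith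
  have hu0 : 1 < u := lt_of_lt_of_le hsw hu1
  have hlu1 : log w / 2 ≤ log u := by
    rw [← Real.log_sqrt hw0.le]
    exact Real.log_le_log (by linarith) hu1
  have hlu2 : log u ≤ 2 * log w := by
    have h1 := Real.log_le_log (by linarith) hu2
    rw [Real.log_pow] at h1
    exact_mod_cast h1
  set δ : ℝ := log u / w with hδ
  have hδ0 : 0 < δ := div_pos (by linarith) hw0
  have hδ1 : δ ≤ 1 / 2 := by
    rw [hδ, div_le_iff₀ hw0]
    linarith
  have hzδ : z ^ δ = u := by
    rw [Real.rpow_def_of_pos hz0, hδ, ← hw, mul_div_cancel₀ _ hw0.ne', Real.exp_log (by linarith)]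
  -- `J`
  set J : ℕ := Nat.log 2 ⌊z⌋₊ with hJ
  have hl2 : (0.6931471803 : ℝ) < log 2 := Real.log_two_gt_d9
  have hl2' : log 2 < (0.6931471808 : ℝ) := Real.log_two_lt_d9
  have hfl : 2 ≤ ⌊z⌋₊ := Nat.le_floor (by
    push_cast
    linarith)
  have hJ1 : 1 ≤ J := Nat.log_pos (by norm_num) hfl
  have hJ0 : (0 : ℝ) < J := by exact_mod_cast hJ1
  have hJw : (J : ℝ) ≤ 2 * w := by
    have h1 : 2 ^ J ≤ ⌊z⌋₊ := Nat.pow_log_le_self 2 (by omega)
    have h2 := Nat.floor_le (show (0 : ℝ) ≤ z by linarith)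
    have h3 : (2 : ℝ) ^ J ≤ z := le_trans (by exact_mod_cast h1) h2
    have h4 := Real.log_le_log (by positivity) h3
    rw [Real.log_pow, ← hw] at h4
    nlinarith
  have hwJ : w ≤ J := by
    have h1 : ⌊z⌋₊ + 1 ≤ 2 ^ (J + 1) := Nat.lt_pow_succ_log_self (by norm_num) _
    have h2 : z < (2 : ℝ) ^ (J + 1) := by
      have h3 := Nat.lt_floor_add_one z
      have h4 : ((⌊z⌋₊ : ℝ)) + 1 ≤ (2 : ℝ) ^ (J + 1) := by exact_mod_cast h1
      linarith
    have h4 := Real.log_lt_log hz0 h2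
    rw [Real.log_pow, ← hw] at h4
    push_cast at h4
    nlinarith
  have hsum : ∑ q ∈ m.primeFactors, (q : ℝ) ^ (δ - 1) ≤ 69 * (u / log w) := by
    rw [← Finset.sum_filter_add_sum_filter_not m.primeFactors (fun q : ℕ => z < (q : ℝ))]
    have h1 := eu12_big (z := z) (δ := δ) (by linarith) (by linarith) hm hmz
    have h2 := eu12_small (z := z) (δ := δ) (by linarith) hδ0 hδ1 m
    rw [hzδ] at h1 h2
    rw [← hw] at h1
    rw [← hJ] at h2
    -- first part
    have h3 : u / w ≤ u / log w := by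
      apply div_le_div_of_nonneg_left (by linarith) (by linarith)
      linarith
    -- last part
    have h4 : 32 * u / (δ * J) ≤ 64 * (u / log w) := by
      have h5 : log w / 2 ≤ δ * J := by
        calc log w / 2 ≤ log u := hlu1
          _ = δ * w := by rw [hδ]; field_simp
          _ ≤ δ * J := mul_le_mul_of_nonneg_left hwJ hδ0.le
      calc 32 * u / (δ * J) ≤ 32 * u / (log w / 2) :=
            div_le_div_of_nonneg_left (by linarith) (by linarith) h5
        _ = 64 * (u / log w) := by field_simp; norm_num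
    -- middle part
    have h5 : 4 * √u * (1 + log J) ≤ 4 * (u / log w) := by
      have h6 : log J ≤ log w + 1 := by
        calc log J ≤ log (2 * w) := Real.log_le_log hJ0 hJw
          _ = log 2 + log w := Real.log_mul (by norm_num) hw0.ne'
          _ ≤ log w + 1 := by linarith
      have h7 : (1 + log J) * log w ≤ √u := by
        have h8 : w ^ (1 / 4 : ℝ) ≤ √u := by
          refine Real.le_sqrt_of_sq_le ?_
          rw [← Real.rpow_natCast, ← Real.rpow_mul hw0.le]
          refine le_trans (le_of_eq ?_) hu1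
          rw [Real.sqrt_eq_rpow]
          norm_num
        refine le_trans ?_ h8
        have h9 : w ^ (1 / 4 : ℝ) = w ^ (1 / 8 : ℝ) * w ^ (1 / 8 : ℝ) := by
          rw [← Real.rpow_add hw0]
          norm_num
        rw [h9]
        have h10 : 1 + log J ≤ 4 * log w := by linarith
        have h11 : (1 + log J) * log w ≤ (4 * log w) * log w :=
          mul_le_mul_of_nonneg_right h10 (by linarith)
        nlinarith
      have h12 : 0 ≤ √u := Real.sqrt_nonneg _
      have h13 : √u * √u = u := Real.mul_self_sqrt (by linarith)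
      calc 4 * √u * (1 + log J) = 4 * (√u * ((1 + log J) * log w) / log w) := by
            field_simp
        _ ≤ 4 * (√u * √u / log w) := by
            have h14 := mul_le_mul_of_nonneg_left h7 h12
            have h15 := div_le_div_of_nonneg_right h14 (show (0 : ℝ) ≤ log w by linarith)
            linarith
        _ = 4 * (u / log w) := by rw [h13]
    linarith
  calc EP δ m ≤ exp (2 * ∑ q ∈ m.primeFactors, (q : ℝ) ^ (δ - 1)) := eu12_EP hδ1 m
    _ ≤ exp (138 * u / log w) := by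
        refine Real.exp_le_exp.2 ?_
        have h1 : 138 * u / log w = 2 * (69 * (u / log w)) := by ring
        rw [h1]
        linarith

end Pool.Agent.Lib.MP_2d8e53_nt.W
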