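import Pool.Agent.Lib.MP_2d8e53_nt.W.Stmts95

/-!
# Rankin's method
-/

set_option autoImplicit false

namespace Pool.Agent.Lib.MP_2d8e53_nt.W

open Finset Real
open scoped Classical

/-- Divisor sums of multiplicative functions are multiplicative. -/
theorem sum_div_coprime (g : ℕ → ℝ) (h1 : g 1 = 1)
    (hmul : ∀ a b : ℕ, Nat.Coprime a b → g (a * b) = g a * g b) (a b : ℕ)
    (hab : Nat.Coprime a b) :
    ∑ d ∈ (a * b).divisors, g d = (∑ d ∈ a.divisors, g d) * ∑ d ∈ b.divisors, g d := by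
  set F : ArithmeticFunction ℝ := ⟨fun n => if n = 0 then 0 else g n, by simp⟩ with hF
  have hFa : ∀ n : ℕ, n ≠ 0 → F n = g n := by
    intro n hn
    simp [hF, hn]
  have hF0 : F 0 = 0 := by simp
  have hFm : F.IsMultiplicative := by
    refine ⟨by rw [hFa 1 one_ne_zero, h1], ?_⟩
    intro m n hmn
    rcases Nat.eq_zero_or_pos m with hm | hm
    · rw [hm, zero_mul, hF0, zero_mul]
    · rcases Nat.eq_zero_or_pos n with hn | hn
      · rw [hn, mul_zero, hF0, mul_zero]
      · rw [hFa _ (Nat.mul_pos hm hn).ne', hFa m hm.ne', hFa n hn.ne', hmul m n hmn]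
  have hS : ∀ n : ℕ, (F * (ArithmeticFunction.zeta : ArithmeticFunction ℝ)) n =
      ∑ d ∈ n.divisors, g d := by
    intro n
    rw [ArithmeticFunction.coe_mul_zeta_apply]
    apply sum_congr rfl
    intro d hd
    exact hFa d (Nat.pos_of_mem_divisors hd).ne'
  rw [← hS, ← hS, ← hS]
  exact (hFm.mul ArithmeticFunction.isMultiplicative_zeta.natCast).map_mul_of_coprime hab

/-- Divisor sums and Euler products. -/
theorem sum_div_le_prod (g : ℕ → ℝ) (r : ℕ → ℝ) (h1 : g 1 = 1) (h0 : ∀ n, 0 ≤ g n)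
    (hmul : ∀ a b : ℕ, Nat.Coprime a b → g (a * b) = g a * g b)
    (hr : ∀ p : ℕ, p.Prime → 0 ≤ r p ∧ r p < 1)
    (hp : ∀ p i : ℕ, p.Prime → g (p ^ i) ≤ r p ^ i) (m : ℕ) :
    ∑ d ∈ m.divisors, g d ≤ ∏ q ∈ m.primeFactors, (1 - r q)⁻¹ := by
  induction m using Nat.recOnPosPrimePosCoprime with
  | prime_pow p n hpp hn =>
    rw [Nat.sum_divisors_prime_pow hpp, Nat.primeFactors_prime_pow hn.ne' hpp, prod_singleton]
    obtain ⟨hr0, hr1⟩ := hr p hpp
    calc ∑ x ∈ range (n + 1), g (p ^ x) ≤ ∑ x ∈ range (n + 1), r p ^ x :=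
          sum_le_sum fun i _ => hp p i hpp
      _ ≤ (1 - r p)⁻¹ := by
          rw [geom_sum_eq hr1.ne, ← neg_div_neg_eq, neg_sub, neg_sub, div_eq_mul_inv]
          have h2 : 0 < (1 - r p)⁻¹ := inv_pos.2 (by linarith)
          have h3 : 0 ≤ r p ^ (n + 1) := pow_nonneg hr0 _
          nlinarith
  | zero => simp
  | one => simp [h1]
  | coprime a b ha hb hab iha ihb =>
    rw [sum_div_coprime g h1 hmul a b hab, hab.primeFactors_mul,
      prod_union hab.disjoint_primeFactors]
    apply mul_le_mul iha ihb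
    · exact sum_nonneg fun d _ => h0 d
    · exact (sum_nonneg fun d _ => h0 d).trans iha

theorem stRk_61 : StRk := by
  intro δ m hδ0 hδ hm
  have hfac : ∀ q : ℕ, q.Prime → 0 < (q : ℝ) ^ (δ - 1) ∧ (q : ℝ) ^ (δ - 1) < 1 ∧
      (q : ℝ)⁻¹ ≤ (q : ℝ) ^ (δ - 1) := by
    intro q hq
    have hq1 : (1 : ℝ) < q := by exact_mod_cast hq.one_lt
    refine ⟨rpow_pos_of_pos (by linarith) _, rpow_lt_one_of_one_lt_of_neg hq1 (by linarith), ?_⟩
    rw [← rpow_neg_one]
    exact rpow_le_rpow_of_exponent_le hq1.le (by linarith)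
  have hinv : ∀ q : ℕ, q.Prime → 1 ≤ (1 - (q : ℝ) ^ (δ - 1))⁻¹ := by
    intro q hq
    obtain ⟨h1, h2, _⟩ := hfac q hq
    rw [one_le_inv₀ (by linarith)]
    linarith
  have hEP1 : 1 ≤ EP δ m := by
    unfold EP
    apply Finset.one_le_prod
    intro q hq
    exact hinv q (Nat.prime_of_mem_primeFactors hq)
  have hb : ∑ d ∈ m.divisors, (d : ℝ) ^ (δ - 1) ≤ EP δ m := by
    unfold EP
    apply sum_div_le_prod (fun d => (d : ℝ) ^ (δ - 1)) (fun q => (q : ℝ) ^ (δ - 1))
    · simp
    · intro n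
      positivity
    · intro a b _
      push_cast
      rw [mul_rpow (Nat.cast_nonneg a) (Nat.cast_nonneg b)]
    · intro p hp
      exact ⟨(hfac p hp).1.le, (hfac p hp).2.1⟩
    · intro p i hp
      push_cast
      rw [← rpow_natCast, ← rpow_natCast, ← rpow_mul (Nat.cast_nonneg p),
        ← rpow_mul (Nat.cast_nonneg p), mul_comm]
  refine ⟨hEP1, hb, ?_, ?_, ?_⟩
  · intro y hy
    calc ((m.divisors.filter fun d : ℕ => (d : ℝ) ≤ y).card : ℝ)
        = ∑ d ∈ m.divisors.filter (fun d : ℕ => (d : ℝ) ≤ y), (1 : ℝ) := by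
          rw [sum_const, nsmul_eq_mul, mul_one]
      _ ≤ ∑ d ∈ m.divisors.filter (fun d : ℕ => (d : ℝ) ≤ y),
            y ^ (1 - δ) * (d : ℝ) ^ (δ - 1) := by
          apply sum_le_sum
          intro d hd
          rw [mem_filter] at hd
          have hd0 : (0 : ℝ) < d := by exact_mod_cast Nat.pos_of_mem_divisors hd.1
          have h1 : (d : ℝ) ^ (1 - δ) ≤ y ^ (1 - δ) :=
            rpow_le_rpow hd0.le hd.2 (by linarith)
          have h2 : (d : ℝ) ^ (1 - δ) * (d : ℝ) ^ (δ - 1) = 1 := by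
            rw [← rpow_add hd0]
            norm_num
          have h3 : 0 ≤ (d : ℝ) ^ (δ - 1) := by positivity
          nlinarith [mul_le_mul_of_nonneg_right h1 h3]
      _ = y ^ (1 - δ) * ∑ d ∈ m.divisors.filter (fun d : ℕ => (d : ℝ) ≤ y),
            (d : ℝ) ^ (δ - 1) := by rw [mul_sum]
      _ ≤ y ^ (1 - δ) * EP δ m := by
          apply mul_le_mul_of_nonneg_left _ (by positivity)
          refine le_trans ?_ hb
          exact sum_le_sum_of_subset_of_nonneg (filter_subset _ _)
            (fun d _ _ => by positivity)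
  · intro y hy
    calc ∑ d ∈ m.divisors.filter (fun d : ℕ => y < (d : ℝ)), 1 / (d : ℝ)
        ≤ ∑ d ∈ m.divisors.filter (fun d : ℕ => y < (d : ℝ)),
            y ^ (-δ) * (d : ℝ) ^ (δ - 1) := by
          apply sum_le_sum
          intro d hd
          rw [mem_filter] at hd
          have hd0 : (0 : ℝ) < d := by exact_mod_cast Nat.pos_of_mem_divisors hd.1
          have h1 : (d : ℝ) ^ (-δ) ≤ y ^ (-δ) :=
            rpow_le_rpow_of_nonpos hy hd.2.le (by linarith)
          have h2 : 1 / (d : ℝ) = (d : ℝ) ^ (-δ) * (d : ℝ) ^ (δ - 1) := by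
            rw [← rpow_add hd0, one_div, ← rpow_neg_one]
            congr 1
            ring
          rw [h2]
          exact mul_le_mul_of_nonneg_right h1 (by positivity)
      _ = y ^ (-δ) * ∑ d ∈ m.divisors.filter (fun d : ℕ => y < (d : ℝ)),
            (d : ℝ) ^ (δ - 1) := by rw [mul_sum]
      _ ≤ y ^ (-δ) * EP δ m := by
          apply mul_le_mul_of_nonneg_left _ (by positivity)
          refine le_trans ?_ hb
          exact sum_le_sum_of_subset_of_nonneg (filter_subset _ _)
            (fun d _ _ => by positivity)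
  · intro f hf
    have hf1 := Nat.pos_of_mem_divisors hf
    have hfm := Nat.dvd_of_mem_divisors hf
    have hsub : f.primeFactors ⊆ m.primeFactors :=
      Nat.primeFactors_mono hfm (by omega)
    have h1 : (f.totient : ℝ) = f * ∏ p ∈ f.primeFactors, (1 - (p : ℝ)⁻¹) := by
      have := Nat.totient_eq_mul_prod_factors f
      have h2 : ((f.totient : ℚ) : ℝ) = ((f * ∏ p ∈ f.primeFactors, (1 - (p : ℚ)⁻¹) : ℚ) : ℝ) := by
        rw [this]
      push_cast at h2
      exact h2
    have h2 : ∏ p ∈ f.primeFactors, (1 - (p : ℝ)⁻¹)⁻¹ ≤ EP δ m := by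
      calc ∏ p ∈ f.primeFactors, (1 - (p : ℝ)⁻¹)⁻¹
          ≤ ∏ p ∈ f.primeFactors, (1 - (p : ℝ) ^ (δ - 1))⁻¹ := by
            apply prod_le_prod
            · intro p hp
              have := (Nat.prime_of_mem_primeFactors hp).one_lt
              have h3 : (1 : ℝ) < p := by exact_mod_cast this
              have h4 : (p : ℝ)⁻¹ < 1 := inv_lt_one_of_one_lt₀ h3
              exact inv_nonneg.2 (by linarith)
            · intro p hp
              obtain ⟨h3, h4, h5⟩ := hfac p (Nat.prime_of_mem_primeFactors hp)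
              apply inv_anti₀ (by linarith)
              linarith
        _ ≤ EP δ m := by
            unfold EP
            rw [← prod_sdiff hsub]
            apply le_mul_of_one_le_left
            · apply prod_nonneg
              intro p hp
              exact zero_le_one.trans (hinv p (Nat.prime_of_mem_primeFactors hp))
            · apply Finset.one_le_prod
              intro p hp
              exact hinv p (Nat.prime_of_mem_primeFactors (sdiff_subset hp))
    have h3 : 0 < ∏ p ∈ f.primeFactors, (1 - (p : ℝ)⁻¹) := by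
      apply prod_pos
      intro p hp
      have := (Nat.prime_of_mem_primeFactors hp).one_lt
      have h3 : (1 : ℝ) < p := by exact_mod_cast this
      have h4 : (p : ℝ)⁻¹ < 1 := inv_lt_one_of_one_lt₀ h3
      linarith
    have h4 : (f : ℝ) = (∏ p ∈ f.primeFactors, (1 - (p : ℝ)⁻¹)⁻¹) * f.totient := by
      rw [h1, prod_inv_distrib, mul_comm (f : ℝ), ← mul_assoc, inv_mul_cancel₀ h3.ne', one_mul]
    calc (f : ℝ) = (∏ p ∈ f.primeFactors, (1 - (p : ℝ)⁻¹)⁻¹) * f.totient := h4
      _ ≤ EP δ m * f.totient := mul_le_mul_of_nonneg_right h2 (Nat.cast_nonneg _)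

end Pool.Agent.Lib.MP_2d8e53_nt.W
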