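import Mathlib

/-!
# Carmichael numbers with `p + 1 ∣ n + 1`: an upper bound for their number

Statements of the modules; text in the team store, W95.md.
-/

set_option autoImplicit false

namespace Pool.Agent.Lib.MP_2d8e53_nt.W

open Finset Real
open scoped Classical

/-! ## Rankin's method -/

/-- The Euler product `∏ (1 - q ^ (δ - 1))⁻¹` over the primes `q ∣ m`. -/
noncomputable def EP (δ : ℝ) (m : ℕ) : ℝ := ∏ q ∈ m.primeFactors, (1 - (q : ℝ) ^ (δ - 1))⁻¹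

/-- Module RK. -/
def StRk : Prop := ∀ (δ : ℝ) (m : ℕ), 0 ≤ δ → δ ≤ 1 / 2 → 1 ≤ m →
  1 ≤ EP δ m ∧
  (∑ d ∈ m.divisors, (d : ℝ) ^ (δ - 1) ≤ EP δ m) ∧
  (∀ y : ℝ, 0 < y →
    ((m.divisors.filter fun d : ℕ => (d : ℝ) ≤ y).card : ℝ) ≤ y ^ (1 - δ) * EP δ m) ∧
  (∀ y : ℝ, 0 < y →
    ∑ d ∈ m.divisors.filter (fun d : ℕ => y < (d : ℝ)), 1 / (d : ℝ) ≤ y ^ (-δ) * EP δ m) ∧
  (∀ f ∈ m.divisors, (f : ℝ) ≤ EP δ m * (f.totient : ℝ))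

/-- Module EU. With `z ^ δ = u` the Euler product is `exp (O(u / log log z))`. -/
def StEu : Prop := ∃ C z₀ : ℝ, 0 < C ∧ ∀ z : ℝ, z₀ ≤ z → ∀ u : ℝ, √(log z) ≤ u →
  u ≤ log z ^ 2 → ∀ m : ℕ, 1 ≤ m → log m ≤ z →
    EP (log u / log z) m ≤ exp (C * u / log (log z))

/-- All prime divisors of `b` are larger than `Z`. -/
def Rough (Z : ℝ) (b : ℕ) : Prop := ∀ q : ℕ, q.Prime → q ∣ b → Z < (q : ℝ)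

/-- Module BIG. Few divisors have a large divisor without small prime factors. -/
def StBig : Prop := ∃ z₀ : ℝ, ∀ z : ℝ, z₀ ≤ z → ∀ (δ : ℝ) (m : ℕ), 0 ≤ δ → δ ≤ 1 / 16 → 1 ≤ m →
  log m ≤ z → ∀ T Y : ℝ, 1 ≤ T → 1 ≤ Y →
    ((m.divisors.filter fun a : ℕ => (a : ℝ) ≤ T ∧
      ∃ b : ℕ, b ∣ a ∧ Y < (b : ℝ) ∧ Rough (z ^ 2) b).card : ℝ) ≤
        8 * T ^ (1 - δ) * EP δ m * Y ^ (-(1 / 4 : ℝ))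

/-- Module DIV. Divisors in given ranges. -/
def StDiv : Prop := ∀ (Z Y : ℝ) (a : ℕ), 2 ≤ Z → 1 ≤ Y → 1 ≤ a →
  (∀ b : ℕ, b ∣ a → Rough Z b → (b : ℝ) ≤ Y) →
  (∀ F : ℝ, 1 ≤ F → F * Y < a → ∃ f : ℕ, f ∣ a ∧ F < (f : ℝ) ∧ (f : ℝ) ≤ Z * F) ∧
  (∀ H E : ℝ, 1 ≤ H → 1 ≤ E → Z * H * E * Y < a → ∃ h e g : ℕ, a = h * e * g ∧
    H < (h : ℝ) ∧ (h : ℝ) ≤ Z * H ∧ E < (e : ℝ) ∧ (e : ℝ) ≤ Z * E)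

/-! ## Characters -/

/-- The sum of `‖∑ χ n‖ ^ 2` over the primitive characters modulo `r`. -/
noncomputable def V2 (r : ℕ) [NeZero r] (S : Finset ℕ) : ℝ :=
  ∑ χ ∈ (univ : Finset (DirichletCharacter ℂ r)).filter (fun χ => χ.IsPrimitive),
    ‖∑ n ∈ S, χ n‖ ^ 2

/-- The sum of `‖∑ χ a‖ ‖∑ χ b‖ ‖∑ χ c‖` over the primitive characters modulo `r`. -/
noncomputable def V3 (r : ℕ) [NeZero r] (A B C : Finset ℕ) : ℝ :=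
  ∑ χ ∈ (univ : Finset (DirichletCharacter ℂ r)).filter (fun χ => χ.IsPrimitive),
    ‖∑ n ∈ A, χ n‖ * ‖∑ n ∈ B, χ n‖ * ‖∑ n ∈ C, χ n‖

/-- Module MLP. The large sieve for the primitive characters. -/
def StMlp : Prop := ∃ C : ℝ, 0 < C ∧ ∀ (x M : ℕ) (S : Finset ℕ), 1 ≤ x → 1 ≤ M →
  S ⊆ Ioc M (2 * M) → ∑ r ∈ range x, V2 (r + 1) S ≤ C * (M + (x : ℝ) ^ 2) * (S.card : ℝ)

/-- Module CH. The congruence `a b c ≡ -1` modulo `f`, for `f` in a finite set. -/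
def StCh : Prop := ∀ (F A B C : Finset ℕ) (Q : ℕ), (∀ f ∈ F, 1 ≤ f ∧ f ≤ Q) →
  (∀ f ∈ F, (∀ a ∈ A, Nat.Coprime a f) ∧ (∀ b ∈ B, Nat.Coprime b f) ∧
    ∀ c ∈ C, Nat.Coprime c f) →
  ∑ f ∈ F, ((((A ×ˢ B) ×ˢ C).filter fun x => f ∣ x.1.1 * x.1.2 * x.2 + 1).card : ℝ) ≤
    ∑ r ∈ range Q, (∑ f ∈ F.filter (fun f => r + 1 ∣ f), 1 / (f.totient : ℝ)) * V3 (r + 1) A B C

/-- The divisors of `m` in `(M, 2 M]`. -/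
def Dv (m M : ℕ) : Finset ℕ := m.divisors.filter fun d => M < d ∧ d ≤ 2 * M

/-- Module BOX. -/
def StBox : Prop := ∃ C : ℝ, 0 < C ∧ ∀ (m₁ m₂ H E G Q : ℕ) (δ K F R₀ : ℝ),
  Nat.Coprime m₁ m₂ → 1 ≤ m₁ → 1 ≤ m₂ → 0 ≤ δ → δ ≤ 1 / 16 → EP δ m₁ ≤ K → EP δ m₂ ≤ K →
  1 ≤ H → 1 ≤ E → 1 ≤ G → 1 ≤ F → 1 ≤ R₀ → R₀ ≤ Q → R₀ ^ 2 ≤ H →
  ∑ f ∈ m₂.divisors.filter (fun f : ℕ => F < (f : ℝ) ∧ f ≤ Q),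
      ((((Dv m₁ H ×ˢ Dv m₁ E) ×ˢ Dv m₁ G).filter fun x => f ∣ x.1.1 * x.1.2 * x.2 + 1).card : ℝ) ≤
    C * K ^ 4 * F ^ (-δ) * H * ((E : ℝ) * G) ^ (1 - δ) * (1 + log Q) *
      (R₀ ^ δ + ((E : ℝ) * G) ^ (δ / 2) * (Q : ℝ) ^ δ *
        (1 / R₀ + √(1 / (E : ℝ) + 1 / G) + Q / √((E : ℝ) * G)))

/-- Module T. Divisors `a` of `m₁` with `a + 1 ∣ m₂`, in a dyadic interval. -/
def StT : Prop := ∀ ε : ℝ, 0 < ε → ∃ z₀ : ℝ, ∀ z : ℝ, z₀ ≤ z → ∀ u : ℝ,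
  log z / log (log z) ≤ u → u ≤ log z ^ 2 → ∀ m₁ m₂ : ℕ, Nat.Coprime m₁ m₂ → 1 ≤ m₁ → 1 ≤ m₂ →
  log m₁ ≤ z → log m₂ ≤ z →
    ((m₁.divisors.filter fun a : ℕ => z ^ u < (a : ℝ) ∧ (a : ℝ) ≤ 2 * z ^ u ∧ a + 1 ∣ m₂).card : ℝ)
      ≤ z ^ u * exp (-((3 / 2 - ε) * u * log u))

/-- Module E. -/
def StE : Prop := ∀ κ : ℝ, 1 ≤ κ → κ < 3 / 2 → ∀ η : ℝ, 0 < η → ∃ z₀ : ℝ, ∀ z : ℝ, z₀ ≤ z →
  ∀ m₁ m₂ : ℕ, Nat.Coprime m₁ m₂ → 1 ≤ m₁ → 1 ≤ m₂ → log m₁ ≤ z → log m₂ ≤ z →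
    ∑ a ∈ m₁.divisors.filter (fun a => a + 1 ∣ m₂), (a : ℝ) ^ (κ * log (log z) / log z - 1) ≤
      η * z / log z

/-! ## The reduction -/

/-- `n` is composite and squarefree, and `p - 1 ∣ n - 1` and `p + 1 ∣ n + 1` for all primes
`p ∣ n`. -/
def Rig (n : ℕ) : Prop :=
  1 < n ∧ ¬ n.Prime ∧ Squarefree n ∧ ∀ p : ℕ, p.Prime → p ∣ n → p - 1 ∣ n - 1 ∧ p + 1 ∣ n + 1

/-- `d` is squarefree and every prime divisor of `d` is `2 a + 1` with `a ∣ m₁` and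
`a + 1 ∣ m₂`. -/
def Adm (m₁ m₂ d : ℕ) : Prop :=
  Squarefree d ∧ ∀ p : ℕ, p.Prime → p ∣ d → ∃ a : ℕ, p = 2 * a + 1 ∧ a ∣ m₁ ∧ a + 1 ∣ m₂

/-- Module CNT. -/
def StCnt : Prop := ∀ (x M : ℕ) (y D : ℝ), 1 ≤ x → 1 ≤ M → 2 ≤ y → 1 ≤ D →
  (((Icc 1 x).filter Rig).card : ℝ) ≤
    16 * x / y + 2 * D * y + x / M * (1 + log x) +
      x / 2 * ∑ m ∈ ((Icc 1 M) ×ˢ (Icc 1 M)).filter (fun m => Nat.Coprime m.1 m.2),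
        1 / ((m.1 : ℝ) * m.2) *
          ∑ d ∈ (Icc 1 x).filter (fun d : ℕ => D < (d : ℝ) ∧ Adm m.1 m.2 d), 1 / (d : ℝ)

/-- Module ADM. -/
def StAdm : Prop := ∀ (x m₁ m₂ : ℕ) (D δ : ℝ), 1 ≤ m₁ → 1 ≤ m₂ → 1 ≤ D → 0 ≤ δ → δ ≤ 1 →
  ∑ d ∈ (Icc 1 x).filter (fun d : ℕ => D < (d : ℝ) ∧ Adm m₁ m₂ d), 1 / (d : ℝ) ≤
    D ^ (-δ) * exp (∑ a ∈ m₁.divisors.filter (fun a => a + 1 ∣ m₂), (a : ℝ) ^ (δ - 1))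

/-- The theorem. -/
def StFin : Prop := ∀ κ : ℝ, κ < 3 / 2 → ∃ X : ℝ, ∀ x : ℕ, X ≤ x →
  (((Icc 1 x).filter Rig).card : ℝ) ≤
    x * exp (-(κ * log x * log (log (log x)) / log (log x)))

end Pool.Agent.Lib.MP_2d8e53_nt.W
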