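import Mathlib
import Pool.Agent.Lib.MP_2d8e53_nt.W.Stmts95

set_option autoImplicit false

namespace Pool.Agent.Lib.MP_2d8e53_nt.W

open Finset Real
open scoped Classical

theorem adm_prod_31 (m₁ m₂ d : ℕ) (h : Adm m₁ m₂ d) (h1 : 1 ≤ m₁) :
    ∏ a ∈ (m₁.divisors.filter fun a => a + 1 ∣ m₂).filter
      (fun a => (2 * a + 1) ∈ d.primeFactors), (2 * a + 1) = d := by
  obtain ⟨hsq, hp⟩ := h
  have hd0 : d ≠ 0 := hsq.ne_zero
  set T := (m₁.divisors.filter fun a => a + 1 ∣ m₂).filter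
      (fun a => (2 * a + 1) ∈ d.primeFactors) with hT
  have himg : T.image (fun a => 2 * a + 1) = d.primeFactors := by
    ext p
    simp only [mem_image, hT, mem_filter]
    constructor
    · rintro ⟨a, ⟨_, ha⟩, rfl⟩
      exact ha
    · intro hpd
      obtain ⟨a, ha, ham, ham2⟩ := hp p (Nat.prime_of_mem_primeFactors hpd)
        (Nat.dvd_of_mem_primeFactors hpd)
      refine ⟨a, ⟨⟨?_, ham2⟩, ha ▸ hpd⟩, ha.symm⟩
      exact Nat.mem_divisors.2 ⟨ham, by omega⟩
  have : ∏ p ∈ T.image (fun a => 2 * a + 1), p = ∏ a ∈ T, (2 * a + 1) := by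
    rw [prod_image]
    intro a _ b _ hab
    simp only at hab
    omega
  rw [← this, himg]
  exact Nat.prod_primeFactors_of_squarefree hsq

theorem stAdm_31 : StAdm := by
  intro x m₁ m₂ D δ h1 h2 hD h0 hδ
  set A : Finset ℕ := m₁.divisors.filter (fun a => a + 1 ∣ m₂) with hA
  set T : ℕ → Finset ℕ := fun d => A.filter (fun a => (2 * a + 1) ∈ d.primeFactors) with hT
  set I : Finset ℕ := (Icc 1 x).filter (fun d : ℕ => D < (d : ℝ) ∧ Adm m₁ m₂ d) with hI
  set c : ℕ → ℝ := fun a => ((2 * a + 1 : ℕ) : ℝ) ^ (δ - 1) with hc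
  have hc0 : ∀ a, 0 ≤ c a := fun a => rpow_nonneg (by positivity) _
  have hprod : ∀ d ∈ I, ∏ a ∈ T d, (2 * a + 1) = d := by
    intro d hd
    exact adm_prod_31 m₁ m₂ d (mem_filter.1 hd).2.2 h1
  have hterm : ∀ d ∈ I, 1 / (d : ℝ) ≤ D ^ (-δ) * ∏ a ∈ T d, c a := by
    intro d hd
    have hdD : D < d := (mem_filter.1 hd).2.1
    have hd0 : (0 : ℝ) < d := by linarith
    have e1 : ∏ a ∈ T d, c a = (d : ℝ) ^ (δ - 1) := by
      have : (d : ℝ) = ∏ a ∈ T d, ((2 * a + 1 : ℕ) : ℝ) := by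
        rw [← Nat.cast_prod, hprod d hd]
      rw [this, ← Real.finsetProd_rpow]
      intro i _
      positivity
    rw [e1, rpow_sub_one hd0.ne']
    have e2 : 1 ≤ D ^ (-δ) * (d : ℝ) ^ δ := by
      rw [rpow_neg (by linarith)]
      have hDp : 0 < D ^ δ := rpow_pos_of_pos (by linarith) _
      rw [inv_mul_eq_div, le_div_iff₀ hDp, one_mul]
      exact rpow_le_rpow (by linarith) hdD.le h0
    rw [← mul_div_assoc]
    exact div_le_div_of_nonneg_right e2 hd0.le
  have hinj : Set.InjOn T I := by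
    intro d hd e he hde
    rw [← hprod d hd, ← hprod e he]
    rw [hde]
  calc ∑ d ∈ I, 1 / (d : ℝ) ≤ ∑ d ∈ I, D ^ (-δ) * ∏ a ∈ T d, c a := sum_le_sum hterm
    _ = D ^ (-δ) * ∑ d ∈ I, ∏ a ∈ T d, c a := by rw [mul_sum]
    _ ≤ D ^ (-δ) * ∑ S ∈ A.powerset, ∏ a ∈ S, c a := by
        refine mul_le_mul_of_nonneg_left ?_ (rpow_nonneg (by linarith) _)
        rw [← sum_image (f := fun S => ∏ a ∈ S, c a) hinj]
        refine sum_le_sum_of_subset_of_nonneg ?_ ?_
        · intro S hS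
          obtain ⟨d, _, rfl⟩ := mem_image.1 hS
          exact mem_powerset.2 (filter_subset _ _)
        · intro S _ _
          exact prod_nonneg fun a _ => hc0 a
    _ = D ^ (-δ) * ∏ a ∈ A, (1 + c a) := by rw [Finset.prod_one_add]
    _ ≤ D ^ (-δ) * exp (∑ a ∈ A, (a : ℝ) ^ (δ - 1)) := by
        refine mul_le_mul_of_nonneg_left ?_ (rpow_nonneg (by linarith) _)
        rw [exp_sum]
        refine prod_le_prod (fun a _ => by linarith [hc0 a]) ?_
        intro a ha
        have ha1 : 1 ≤ a := Nat.pos_of_mem_divisors (mem_filter.1 ha).1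
        have : c a ≤ (a : ℝ) ^ (δ - 1) := by
          refine rpow_le_rpow_of_nonpos (by positivity) ?_ (by linarith)
          push_cast
          have : (0 : ℝ) ≤ a := by positivity
          linarith
        calc 1 + c a ≤ (a : ℝ) ^ (δ - 1) + 1 := by linarith
          _ ≤ exp ((a : ℝ) ^ (δ - 1)) := add_one_le_exp _

end Pool.Agent.Lib.MP_2d8e53_nt.W
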