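import Pool.Agent.Lib.MP_2d8e53_nt.W.Rk61

/-!
# Divisors with a large rough divisor
-/

set_option autoImplicit false

namespace Pool.Agent.Lib.MP_2d8e53_nt.W

open Finset Real
open scoped Classical

theorem rough_one (Z : ℝ) : Rough Z 1 := by
  intro q hq h
  exact absurd (Nat.dvd_one.1 h) hq.one_lt.ne'

theorem rough_mul (Z : ℝ) (a b : ℕ) : Rough Z (a * b) ↔ Rough Z a ∧ Rough Z b := by
  constructor
  · intro h
    exact ⟨fun q hq hqa => h q hq (hqa.mul_right b), fun q hq hqb => h q hq (hqb.mul_left a)⟩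
  · rintro ⟨h1, h2⟩ q hq h
    rcases hq.dvd_mul.1 h with h | h
    · exact h1 q hq h
    · exact h2 q hq h

/-- The sum over the rough divisors. -/
theorem sum_rough (z : ℝ) (hz : 4 ≤ z) (s : ℝ) (hs : s ≤ -(11 / 16)) (m : ℕ) (hm : 1 ≤ m)
    (hmz : log m ≤ z) :
    ∑ b ∈ m.divisors.filter (fun b : ℕ => Rough (z ^ 2) b), (b : ℝ) ^ s ≤ 8 := by
  set Z := z ^ 2 with hZ
  have hZ16 : 16 ≤ Z := by rw [hZ]; nlinarith
  have hs0 : s < 0 := by linarith
  set g : ℕ → ℝ := fun b => if Rough Z b then (b : ℝ) ^ s else 0 with hg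
  set r : ℕ → ℝ := fun q => if Z < (q : ℝ) then (q : ℝ) ^ s else 0 with hr
  have hrb : ∀ q : ℕ, r q ≤ z ^ (-(11 / 8 : ℝ)) := by
    intro q
    simp only [hr]
    split_ifs with h
    · calc (q : ℝ) ^ s ≤ Z ^ s := rpow_le_rpow_of_nonpos (by linarith) h.le hs0.le
        _ ≤ Z ^ (-(11 / 16 : ℝ)) := rpow_le_rpow_of_exponent_le (by linarith) hs
        _ = z ^ (-(11 / 8 : ℝ)) := by
            rw [hZ, ← rpow_natCast z 2, ← rpow_mul (by linarith)]
            norm_num
    · positivity
  have hr0 : ∀ q : ℕ, 0 ≤ r q := by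
    intro q
    simp only [hr]
    split_ifs
    · positivity
    · exact le_refl _
  have hzz : z ^ (-(11 / 8 : ℝ)) ≤ 1 / 4 := by
    calc z ^ (-(11 / 8 : ℝ)) ≤ z ^ (-(1 : ℝ)) :=
          rpow_le_rpow_of_exponent_le (by linarith) (by norm_num)
      _ ≤ 1 / 4 := by
          rw [rpow_neg_one, ← one_div]
          exact one_div_le_one_div_of_le (by norm_num) hz
  have hmain := sum_div_le_prod g r (by
      simp only [hg]
      rw [if_pos (rough_one Z)]
      simp) (by
      intro n
      simp only [hg]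
      split_ifs
      · positivity
      · exact le_refl _) (by
      intro a b _
      simp only [hg]
      by_cases ha : Rough Z a
      · by_cases hb : Rough Z b
        · rw [if_pos ((rough_mul Z a b).2 ⟨ha, hb⟩), if_pos ha, if_pos hb]
          push_cast
          rw [mul_rpow (Nat.cast_nonneg a) (Nat.cast_nonneg b)]
        · rw [if_neg (fun h => hb ((rough_mul Z a b).1 h).2), if_neg hb, mul_zero]
      · rw [if_neg (fun h => ha ((rough_mul Z a b).1 h).1), if_neg ha, zero_mul])
    (fun p _ => ⟨hr0 p, (hrb p).trans_lt (by linarith)⟩) (by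
      intro p i hp
      simp only [hg, hr]
      rcases Nat.eq_zero_or_pos i with hi | hi
      · rw [hi, pow_zero, pow_zero, if_pos (rough_one Z)]
        simp
      · by_cases hZp : Z < (p : ℝ)
        · rw [if_pos hZp]
          split_ifs
          · push_cast
            rw [← rpow_natCast, ← rpow_natCast, ← rpow_mul (Nat.cast_nonneg p),
              ← rpow_mul (Nat.cast_nonneg p), mul_comm]
          · positivity
        · rw [if_neg hZp, if_neg]
          · positivity
          · intro h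
            exact hZp (h p hp (dvd_pow_self p hi.ne'))) m
  have h1 : ∑ b ∈ m.divisors.filter (fun b : ℕ => Rough Z b), (b : ℝ) ^ s =
      ∑ b ∈ m.divisors, g b := by
    rw [sum_filter]
  rw [h1]
  refine hmain.trans ?_
  -- the product
  have h2 : ∏ q ∈ m.primeFactors, (1 - r q)⁻¹ ≤ ∏ q ∈ m.primeFactors, exp (2 * r q) := by
    apply prod_le_prod
    · intro q _
      have := hrb q
      exact inv_nonneg.2 (by linarith)
    · intro q _
      have h3 := hrb q
      have h4 := hr0 q
      have h5 : 0 < 1 - r q := by linarith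
      rw [← one_div, div_le_iff₀ h5]
      have h6 := add_one_le_exp (2 * r q)
      nlinarith
  refine h2.trans ?_
  rw [← exp_sum]
  have h3 : ∑ q ∈ m.primeFactors, 2 * r q ≤ 2 := by
    have h4 : ∀ q ∈ m.primeFactors, 2 * r q ≤ (2 / z) * log q := by
      intro q hq
      have hqp := Nat.prime_of_mem_primeFactors hq
      have hq1 : (1 : ℝ) ≤ q := by exact_mod_cast hqp.one_lt.le
      by_cases hZq : Z < (q : ℝ)
      · have h5 := hrb q
        have h6 : z ^ (-(11 / 8 : ℝ)) ≤ 1 / z := by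
          rw [one_div, ← rpow_neg_one]
          exact rpow_le_rpow_of_exponent_le (by linarith) (by norm_num)
        have h7 : 1 ≤ log q := by
          have h8 : (exp 1 : ℝ) ≤ q := by
            have := exp_one_lt_d9
            linarith
          rw [← log_exp 1]
          exact log_le_log (exp_pos _) h8
        have h9 : 0 < 2 / z := by positivity
        calc 2 * r q ≤ 2 / z := by
              have := h5.trans h6
              calc 2 * r q ≤ 2 * (1 / z) := by linarith
                _ = 2 / z := by ring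
          _ ≤ 2 / z * log q := le_mul_of_one_le_right h9.le h7
      · simp only [hr]
        rw [if_neg hZq, mul_zero]
        have := log_nonneg hq1
        positivity
    calc ∑ q ∈ m.primeFactors, 2 * r q ≤ ∑ q ∈ m.primeFactors, (2 / z) * log q := sum_le_sum h4
      _ = (2 / z) * ∑ q ∈ m.primeFactors, log q := by rw [mul_sum]
      _ ≤ (2 / z) * z := by
          apply mul_le_mul_of_nonneg_left _ (by positivity)
          refine le_trans ?_ hmz
          rw [← log_prod (fun q hq => by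
            have := (Nat.prime_of_mem_primeFactors hq).pos
            exact_mod_cast this.ne')]
          apply log_le_log
          · apply prod_pos
            intro q hq
            have := (Nat.prime_of_mem_primeFactors hq).pos
            exact_mod_cast this
          · have h5 : ∏ q ∈ m.primeFactors, q ≤ m :=
              Nat.le_of_dvd (by omega) (Nat.prod_primeFactors_dvd m)
            rw [← Nat.cast_prod]
            exact_mod_cast h5
      _ = 2 := by field_simp
  calc exp (∑ q ∈ m.primeFactors, 2 * r q) ≤ exp 2 := exp_le_exp.2 h3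
    _ ≤ 8 := by
        have h4 := exp_one_lt_d9
        have h5 : exp 2 = exp 1 * exp 1 := by
          rw [← exp_add]
          norm_num
        rw [h5]
        have := exp_pos 1
        nlinarith

theorem stBig_61 (hRk : StRk) : StBig := by
  refine ⟨4, ?_⟩
  intro z hz δ m hδ0 hδ hm hmz T Y hT hY
  obtain ⟨hE1, _, hcount, _, _⟩ := hRk δ m hδ0 (by linarith) hm
  set Bs := m.divisors.filter (fun b : ℕ => Y < (b : ℝ) ∧ Rough (z ^ 2) b) with hBs
  have hcov : (m.divisors.filter fun a : ℕ => (a : ℝ) ≤ T ∧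
      ∃ b : ℕ, b ∣ a ∧ Y < (b : ℝ) ∧ Rough (z ^ 2) b) ⊆
      Bs.biUnion (fun b => (m.divisors.filter fun c : ℕ => (c : ℝ) ≤ T / b).image (fun c => b * c)) := by
    intro a ha
    rw [mem_filter, Nat.mem_divisors] at ha
    obtain ⟨⟨ha1, ha2⟩, ha3, b, hb1, hb2, hb3⟩ := ha
    obtain ⟨c, rfl⟩ := hb1
    have hb0 : 0 < b := by
      rcases Nat.eq_zero_or_pos b with h | h
      · rw [h, Nat.cast_zero] at hb2
        linarith
      · exact h
    have hb0' : (0 : ℝ) < b := by exact_mod_cast hb0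
    rw [mem_biUnion]
    refine ⟨b, ?_, ?_⟩
    · rw [hBs, mem_filter, Nat.mem_divisors]
      exact ⟨⟨(Dvd.intro c rfl).trans ha1, ha2⟩, hb2, hb3⟩
    · rw [mem_image]
      refine ⟨c, ?_, rfl⟩
      rw [mem_filter, Nat.mem_divisors]
      refine ⟨⟨(Dvd.intro_left b rfl).trans ha1, ha2⟩, ?_⟩
      rw [le_div_iff₀ hb0', mul_comm]
      exact_mod_cast ha3
  have hcard : ((m.divisors.filter fun a : ℕ => (a : ℝ) ≤ T ∧
      ∃ b : ℕ, b ∣ a ∧ Y < (b : ℝ) ∧ Rough (z ^ 2) b).card : ℝ) ≤
      ∑ b ∈ Bs, ((m.divisors.filter fun c : ℕ => (c : ℝ) ≤ T / b).card : ℝ) := by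
    have h1 := (card_le_card hcov).trans card_biUnion_le
    have h2 : ∑ b ∈ Bs,
        ((m.divisors.filter fun c : ℕ => (c : ℝ) ≤ T / b).image (fun c => b * c)).card ≤
        ∑ b ∈ Bs, (m.divisors.filter fun c : ℕ => (c : ℝ) ≤ T / b).card :=
      sum_le_sum fun b _ => card_image_le
    exact_mod_cast h1.trans h2
  refine hcard.trans ?_
  have hEP0 : 0 ≤ EP δ m := zero_le_one.trans hE1
  have hterm : ∀ b ∈ Bs, ((m.divisors.filter fun c : ℕ => (c : ℝ) ≤ T / b).card : ℝ) ≤
      T ^ (1 - δ) * EP δ m * Y ^ (-(1 / 4 : ℝ)) * (b : ℝ) ^ (δ - 3 / 4) := by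
    intro b hb
    rw [hBs, mem_filter] at hb
    have hb0 : (0 : ℝ) < b := by linarith [hb.2.1]
    have h1 := hcount (T / b) (by positivity)
    have h2 : (T / b) ^ (1 - δ) = T ^ (1 - δ) * (b : ℝ) ^ (δ - 1) := by
      rw [div_rpow (by linarith) hb0.le, div_eq_mul_inv, ← rpow_neg hb0.le]
      congr 2
      ring
    have h3 : (b : ℝ) ^ (δ - 1) = (b : ℝ) ^ (-(1 / 4 : ℝ)) * (b : ℝ) ^ (δ - 3 / 4) := by
      rw [← rpow_add hb0]
      congr 1
      ring
    have h4 : (b : ℝ) ^ (-(1 / 4 : ℝ)) ≤ Y ^ (-(1 / 4 : ℝ)) :=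
      rpow_le_rpow_of_nonpos (by linarith) hb.2.1.le (by norm_num)
    calc ((m.divisors.filter fun c : ℕ => (c : ℝ) ≤ T / b).card : ℝ)
        ≤ (T / b) ^ (1 - δ) * EP δ m := h1
      _ = T ^ (1 - δ) * EP δ m * ((b : ℝ) ^ (-(1 / 4 : ℝ)) * (b : ℝ) ^ (δ - 3 / 4)) := by
          rw [h2, h3]
          ring
      _ ≤ T ^ (1 - δ) * EP δ m * (Y ^ (-(1 / 4 : ℝ)) * (b : ℝ) ^ (δ - 3 / 4)) := by
          apply mul_le_mul_of_nonneg_left _ (by positivity)
          exact mul_le_mul_of_nonneg_right h4 (by positivity)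
      _ = _ := by ring
  calc ∑ b ∈ Bs, ((m.divisors.filter fun c : ℕ => (c : ℝ) ≤ T / b).card : ℝ)
      ≤ ∑ b ∈ Bs, T ^ (1 - δ) * EP δ m * Y ^ (-(1 / 4 : ℝ)) * (b : ℝ) ^ (δ - 3 / 4) :=
        sum_le_sum hterm
    _ = T ^ (1 - δ) * EP δ m * Y ^ (-(1 / 4 : ℝ)) * ∑ b ∈ Bs, (b : ℝ) ^ (δ - 3 / 4) := by
        rw [mul_sum]
    _ ≤ T ^ (1 - δ) * EP δ m * Y ^ (-(1 / 4 : ℝ)) * 8 := by
        apply mul_le_mul_of_nonneg_left _ (by positivity)
        refine le_trans ?_ (sum_rough z hz (δ - 3 / 4) (by linarith) m hm hmz)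
        apply sum_le_sum_of_subset_of_nonneg
        · intro b hb
          rw [hBs, mem_filter] at hb
          rw [mem_filter]
          exact ⟨hb.1, hb.2.2⟩
        · intro b _ _
          positivity
    _ = _ := by ring

end Pool.Agent.Lib.MP_2d8e53_nt.W
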