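import Pool.Agent.Lib.MP_2d8e53_nt.W.Stmts95

/-!
# The large sieve estimate for one box
-/

set_option autoImplicit false

namespace Pool.Agent.Lib.MP_2d8e53_nt.W

open Finset Real
open scoped Classical

theorem Dv_subset (m M : ℕ) : Dv m M ⊆ Ioc M (2 * M) := by
  intro d hd
  unfold Dv at hd
  rw [mem_filter] at hd
  exact mem_Ioc.2 hd.2

theorem card_Dv_le (m M : ℕ) : ((Dv m M).card : ℝ) ≤ M := by
  have h := card_le_card (Dv_subset m M)
  rw [Nat.card_Ioc] at h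
  have h2 : (Dv m M).card ≤ M := by omega
  exact_mod_cast h2

theorem card_Dv_rk (hRk : StRk) (m M : ℕ) (δ K : ℝ) (hm : 1 ≤ m) (hM : 1 ≤ M) (hδ0 : 0 ≤ δ)
    (hδ : δ ≤ 1 / 16) (hK : EP δ m ≤ K) : ((Dv m M).card : ℝ) ≤ 2 * (M : ℝ) ^ (1 - δ) * K := by
  obtain ⟨hE1, _, hcount, _, _⟩ := hRk δ m hδ0 (by linarith) hm
  have hM0 : (0 : ℝ) < M := by exact_mod_cast hM
  have h1 := hcount (2 * M) (by positivity)
  have h2 : ((Dv m M).card : ℝ) ≤ ((m.divisors.filter fun d : ℕ => (d : ℝ) ≤ 2 * M).card : ℝ) := by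
    have : Dv m M ⊆ m.divisors.filter fun d : ℕ => (d : ℝ) ≤ 2 * M := by
      intro d hd
      unfold Dv at hd
      rw [mem_filter] at hd ⊢
      exact ⟨hd.1, by exact_mod_cast hd.2.2⟩
    exact_mod_cast card_le_card this
  have h3 : (2 * (M : ℝ)) ^ (1 - δ) ≤ 2 * (M : ℝ) ^ (1 - δ) := by
    rw [mul_rpow (by norm_num) hM0.le]
    apply mul_le_mul_of_nonneg_right _ (by positivity)
    calc (2 : ℝ) ^ (1 - δ) ≤ 2 ^ (1 : ℝ) :=
          rpow_le_rpow_of_exponent_le (by norm_num) (by linarith)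
      _ = 2 := rpow_one 2
  calc ((Dv m M).card : ℝ) ≤ (2 * (M : ℝ)) ^ (1 - δ) * EP δ m := h2.trans h1
    _ ≤ 2 * (M : ℝ) ^ (1 - δ) * K := by
        apply mul_le_mul h3 hK (zero_le_one.trans hE1) (by positivity)

theorem norm_sum_le_card {r : ℕ} (χ : DirichletCharacter ℂ r) (S : Finset ℕ) :
    ‖∑ n ∈ S, χ n‖ ≤ (S.card : ℝ) := by
  calc ‖∑ n ∈ S, χ n‖ ≤ ∑ n ∈ S, ‖χ n‖ := norm_sum_le _ _
    _ ≤ ∑ n ∈ S, (1 : ℝ) := sum_le_sum fun n _ => DirichletCharacter.norm_le_one χ _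
    _ = S.card := by rw [sum_const, nsmul_eq_mul, mul_one]

theorem V2_nonneg (r : ℕ) [NeZero r] (S : Finset ℕ) : 0 ≤ V2 r S := by
  unfold V2
  exact sum_nonneg fun _ _ => sq_nonneg _

/-- Small moduli. -/
theorem V3_small (x : ℕ) (A B C : Finset ℕ) :
    ∑ r ∈ range x, V3 (r + 1) A B C ≤
      (B.card : ℝ) * C.card * (x * √(∑ r ∈ range x, V2 (r + 1) A)) := by
  have h1 : ∀ r ∈ range x, V3 (r + 1) A B C ≤
      (B.card : ℝ) * C.card * (√(x : ℝ) * √(V2 (r + 1) A)) := by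
    intro r hr
    rw [mem_range] at hr
    unfold V3
    set P := (univ : Finset (DirichletCharacter ℂ (r + 1))).filter (fun χ => χ.IsPrimitive)
      with hP
    calc ∑ χ ∈ P, ‖∑ n ∈ A, χ n‖ * ‖∑ n ∈ B, χ n‖ * ‖∑ n ∈ C, χ n‖
        ≤ ∑ χ ∈ P, (B.card : ℝ) * C.card * (1 * ‖∑ n ∈ A, χ n‖) := by
          apply sum_le_sum
          intro χ _
          have hb := norm_sum_le_card χ B
          have hc := norm_sum_le_card χ C
          have hbc := mul_le_mul hb hc (norm_nonneg _) (Nat.cast_nonneg _)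
          have := mul_le_mul_of_nonneg_left hbc (norm_nonneg (∑ n ∈ A, χ n))
          linarith
      _ = (B.card : ℝ) * C.card * ∑ χ ∈ P, 1 * ‖∑ n ∈ A, χ n‖ := by rw [mul_sum]
      _ ≤ (B.card : ℝ) * C.card * (√(x : ℝ) * √(V2 (r + 1) A)) := by
          apply mul_le_mul_of_nonneg_left _ (by positivity)
          refine (Real.sum_mul_le_sqrt_mul_sqrt P (fun _ => (1 : ℝ))
            (fun χ => ‖∑ n ∈ A, χ n‖)).trans ?_
          unfold V2
          apply mul_le_mul_of_nonneg_right _ (sqrt_nonneg _)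
          apply sqrt_le_sqrt
          rw [one_pow, sum_const, nsmul_eq_mul, mul_one]
          have h2 : P.card ≤ x := by
            calc P.card ≤ (univ : Finset (DirichletCharacter ℂ (r + 1))).card :=
                  card_le_card (filter_subset _ _)
              _ = (r + 1).totient := by
                  rw [card_univ, ← Nat.card_eq_fintype_card]
                  exact DirichletCharacter.card_eq_totient_of_hasEnoughRootsOfUnity ℂ (r + 1)
              _ ≤ r + 1 := Nat.totient_le _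
              _ ≤ x := hr
          exact_mod_cast h2
  calc ∑ r ∈ range x, V3 (r + 1) A B C
      ≤ ∑ r ∈ range x, (B.card : ℝ) * C.card * (√(x : ℝ) * √(V2 (r + 1) A)) := sum_le_sum h1
    _ = (B.card : ℝ) * C.card * ∑ r ∈ range x, √(x : ℝ) * √(V2 (r + 1) A) := by rw [mul_sum]
    _ ≤ (B.card : ℝ) * C.card * (x * √(∑ r ∈ range x, V2 (r + 1) A)) := by
        apply mul_le_mul_of_nonneg_left _ (by positivity)
        refine (Real.sum_sqrt_mul_sqrt_le (range x) (f := fun _ => (x : ℝ))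
          (g := fun r => V2 (r + 1) A) (fun _ => Nat.cast_nonneg x)
          (fun r => V2_nonneg (r + 1) A)).trans ?_
        apply mul_le_mul_of_nonneg_right _ (sqrt_nonneg _)
        rw [sum_const, card_range, nsmul_eq_mul, sqrt_mul_self (Nat.cast_nonneg x)]

/-- Large moduli. -/
theorem V3_large (x : ℕ) (A B C : Finset ℕ) :
    ∑ r ∈ range x, V3 (r + 1) A B C ≤
      (A.card : ℝ) * (√(∑ r ∈ range x, V2 (r + 1) B) * √(∑ r ∈ range x, V2 (r + 1) C)) := by
  have h1 : ∀ r ∈ range x, V3 (r + 1) A B C ≤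
      (A.card : ℝ) * (√(V2 (r + 1) B) * √(V2 (r + 1) C)) := by
    intro r _
    unfold V3
    set P := (univ : Finset (DirichletCharacter ℂ (r + 1))).filter (fun χ => χ.IsPrimitive)
      with hP
    calc ∑ χ ∈ P, ‖∑ n ∈ A, χ n‖ * ‖∑ n ∈ B, χ n‖ * ‖∑ n ∈ C, χ n‖
        ≤ ∑ χ ∈ P, (A.card : ℝ) * (‖∑ n ∈ B, χ n‖ * ‖∑ n ∈ C, χ n‖) := by
          apply sum_le_sum
          intro χ _
          rw [mul_assoc]
          exact mul_le_mul_of_nonneg_right (norm_sum_le_card χ A)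
            (mul_nonneg (norm_nonneg _) (norm_nonneg _))
      _ = (A.card : ℝ) * ∑ χ ∈ P, ‖∑ n ∈ B, χ n‖ * ‖∑ n ∈ C, χ n‖ := by rw [mul_sum]
      _ ≤ (A.card : ℝ) * (√(V2 (r + 1) B) * √(V2 (r + 1) C)) := by
          apply mul_le_mul_of_nonneg_left _ (by positivity)
          exact Real.sum_mul_le_sqrt_mul_sqrt P (fun χ => ‖∑ n ∈ B, χ n‖)
            (fun χ => ‖∑ n ∈ C, χ n‖)
  calc ∑ r ∈ range x, V3 (r + 1) A B C
      ≤ ∑ r ∈ range x, (A.card : ℝ) * (√(V2 (r + 1) B) * √(V2 (r + 1) C)) := sum_le_sum h1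
    _ = (A.card : ℝ) * ∑ r ∈ range x, √(V2 (r + 1) B) * √(V2 (r + 1) C) := by rw [mul_sum]
    _ ≤ _ := by
        apply mul_le_mul_of_nonneg_left _ (by positivity)
        exact Real.sum_sqrt_mul_sqrt_le (range x) (f := fun r => V2 (r + 1) B)
          (g := fun r => V2 (r + 1) C) (fun r => V2_nonneg (r + 1) B)
          (fun r => V2_nonneg (r + 1) C)

/-- One dyadic block of moduli. -/
theorem block_bound (C₀ : ℝ) (hC₀ : 0 < C₀)
    (hsieve : ∀ (x M : ℕ) (S : Finset ℕ), 1 ≤ x → 1 ≤ M →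
      S ⊆ Ioc M (2 * M) → ∑ r ∈ range x, V2 (r + 1) S ≤ C₀ * (M + (x : ℝ) ^ 2) * (S.card : ℝ))
    (A B C : Finset ℕ) (H E G Q : ℕ) (δ K R₀ : ℝ) (hA : A ⊆ Ioc H (2 * H))
    (hB : B ⊆ Ioc E (2 * E)) (hC : C ⊆ Ioc G (2 * G)) (hAc : (A.card : ℝ) ≤ H)
    (hBc : (B.card : ℝ) ≤ 2 * (E : ℝ) ^ (1 - δ) * K)
    (hCc : (C.card : ℝ) ≤ 2 * (G : ℝ) ^ (1 - δ) * K)
    (hδ0 : 0 ≤ δ) (hδ : δ ≤ 1 / 16) (hK : 1 ≤ K) (hH : 1 ≤ H) (hE : 1 ≤ E) (hG : 1 ≤ G)
    (hR₀ : 1 ≤ R₀) (hRH : R₀ ^ 2 ≤ H) (R : ℕ) (hR1 : 1 ≤ R) (hRQ : R ≤ Q) :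
    (R : ℝ) ^ (δ - 1) * ∑ r ∈ range (2 * R), V3 (r + 1) A B C ≤
      (8 * √(5 * C₀) + 8 * C₀) * K ^ 2 * H * ((E : ℝ) * G) ^ (1 - δ) *
      (R₀ ^ δ + ((E : ℝ) * G) ^ (δ / 2) * (Q : ℝ) ^ δ *
        (1 / R₀ + √(1 / (E : ℝ) + 1 / G) + Q / √((E : ℝ) * G))) := by
  have hRr : (1 : ℝ) ≤ R := by exact_mod_cast hR1
  have hRQr : (R : ℝ) ≤ Q := by exact_mod_cast hRQ
  have hHr : (1 : ℝ) ≤ H := by exact_mod_cast hH
  have hEr : (1 : ℝ) ≤ E := by exact_mod_cast hE
  have hGr : (1 : ℝ) ≤ G := by exact_mod_cast hG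
  have hR0 : (0 : ℝ) < R := by linarith
  have hK0 : 0 < K := by linarith
  set P := (E : ℝ) * G with hP
  have hP0 : 0 < P := by rw [hP]; nlinarith
  have hBC : (B.card : ℝ) * C.card ≤ 4 * K ^ 2 * P ^ (1 - δ) := by
    calc (B.card : ℝ) * C.card ≤ (2 * (E : ℝ) ^ (1 - δ) * K) * (2 * (G : ℝ) ^ (1 - δ) * K) :=
          mul_le_mul hBc hCc (Nat.cast_nonneg _) (by positivity)
      _ = 4 * K ^ 2 * P ^ (1 - δ) := by
          rw [hP, mul_rpow (by linarith) (by linarith)]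
          ring
  have hx : ((2 * R : ℕ) : ℝ) = 2 * R := by push_cast; ring
  have hRd : (R : ℝ) ^ (δ - 1) * R = (R : ℝ) ^ δ := by
    rw [← rpow_add_one hR0.ne']
    congr 1
    ring
  set T₂ := P ^ (δ / 2) * (Q : ℝ) ^ δ * (1 / R₀ + √(1 / (E : ℝ) + 1 / G) + Q / √P) with hT₂
  have hT₂0 : 0 ≤ T₂ := by
    have : 0 < R₀ := by linarith
    positivity
  have hRδ0 : 0 ≤ R₀ ^ δ := by
    have : 0 < R₀ := by linarith
    positivity
  rcases le_total (R : ℝ) R₀ with hRR | hRR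
  · -- small moduli
    have h1 := V3_small (2 * R) A B C
    have h2 := hsieve (2 * R) H A (by omega) hH hA
    have h3 : ∑ r ∈ range (2 * R), V2 (r + 1) A ≤ (5 * C₀) * (H : ℝ) ^ 2 := by
      have h4 : (R : ℝ) ^ 2 ≤ H := by
        have : (R : ℝ) ^ 2 ≤ R₀ ^ 2 := pow_le_pow_left₀ hR0.le hRR 2
        linarith
      calc ∑ r ∈ range (2 * R), V2 (r + 1) A ≤ C₀ * (H + ((2 * R : ℕ) : ℝ) ^ 2) * A.card := h2
        _ ≤ C₀ * (5 * H) * H := by
            apply mul_le_mul _ hAc (Nat.cast_nonneg _) (by positivity)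
            apply mul_le_mul_of_nonneg_left _ hC₀.le
            rw [hx]
            nlinarith
        _ = _ := by ring
    have h4 : √(∑ r ∈ range (2 * R), V2 (r + 1) A) ≤ √(5 * C₀) * H := by
      calc √(∑ r ∈ range (2 * R), V2 (r + 1) A) ≤ √((5 * C₀) * (H : ℝ) ^ 2) := sqrt_le_sqrt h3
        _ = √(5 * C₀) * H := by
            rw [sqrt_mul (by positivity), sqrt_sq (by positivity)]
    have h5 : (R : ℝ) ^ δ ≤ R₀ ^ δ := rpow_le_rpow hR0.le hRR hδ0
    calc (R : ℝ) ^ (δ - 1) * ∑ r ∈ range (2 * R), V3 (r + 1) A B C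
        ≤ (R : ℝ) ^ (δ - 1) * ((B.card : ℝ) * C.card *
            (((2 * R : ℕ) : ℝ) * √(∑ r ∈ range (2 * R), V2 (r + 1) A))) :=
          mul_le_mul_of_nonneg_left h1 (by positivity)
      _ ≤ (R : ℝ) ^ (δ - 1) * ((4 * K ^ 2 * P ^ (1 - δ)) * ((2 * R) * (√(5 * C₀) * H))) := by
          apply mul_le_mul_of_nonneg_left _ (by positivity)
          apply mul_le_mul hBC _ (by positivity) (by positivity)
          rw [hx]
          exact mul_le_mul_of_nonneg_left h4 (by positivity)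
      _ = 8 * √(5 * C₀) * K ^ 2 * H * P ^ (1 - δ) * ((R : ℝ) ^ (δ - 1) * R) := by ring
      _ = 8 * √(5 * C₀) * K ^ 2 * H * P ^ (1 - δ) * (R : ℝ) ^ δ := by rw [hRd]
      _ ≤ (8 * √(5 * C₀) + 8 * C₀) * K ^ 2 * H * P ^ (1 - δ) * (R₀ ^ δ + T₂) := by
          apply mul_le_mul _ (by linarith) (by positivity) (by positivity)
          have : 0 ≤ 8 * C₀ * (K ^ 2 * H * P ^ (1 - δ)) := by positivity
          nlinarith
  · -- large moduli
    have h1 := V3_large (2 * R) A B C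
    have h2 := hsieve (2 * R) E B (by omega) hE hB
    have h3 := hsieve (2 * R) G C (by omega) hG hC
    rw [hx] at h2 h3
    have hQ0 : (0 : ℝ) < Q := by linarith
    have hR₀0 : 0 < R₀ := by linarith
    have h4 : √(∑ r ∈ range (2 * R), V2 (r + 1) B) * √(∑ r ∈ range (2 * R), V2 (r + 1) C) ≤
        C₀ * √(((E : ℝ) + (2 * R) ^ 2) * (G + (2 * R) ^ 2)) * (2 * K * P ^ ((1 - δ) / 2)) := by
      calc √(∑ r ∈ range (2 * R), V2 (r + 1) B) * √(∑ r ∈ range (2 * R), V2 (r + 1) C)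
          ≤ √(C₀ * (E + (2 * R : ℝ) ^ 2) * B.card) * √(C₀ * (G + (2 * R : ℝ) ^ 2) * C.card) :=
            mul_le_mul (sqrt_le_sqrt h2) (sqrt_le_sqrt h3) (sqrt_nonneg _) (sqrt_nonneg _)
        _ = √((C₀ ^ 2 * ((E + (2 * R) ^ 2) * (G + (2 * R) ^ 2))) * (B.card * C.card)) := by
            rw [← sqrt_mul (by positivity)]
            congr 1
            ring
        _ ≤ √((C₀ ^ 2 * ((E + (2 * R) ^ 2) * (G + (2 * R) ^ 2))) *
              (2 * K * P ^ ((1 - δ) / 2)) ^ 2) := by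
            apply sqrt_le_sqrt
            apply mul_le_mul_of_nonneg_left _ (by positivity)
            refine hBC.trans (le_of_eq ?_)
            rw [mul_pow, ← rpow_natCast (P ^ ((1 - δ) / 2)) 2, ← rpow_mul hP0.le]
            have : (1 - δ) / 2 * ((2 : ℕ) : ℝ) = 1 - δ := by push_cast; ring
            rw [this]
            ring
        _ = C₀ * √(((E : ℝ) + (2 * R) ^ 2) * (G + (2 * R) ^ 2)) * (2 * K * P ^ ((1 - δ) / 2)) := by
            rw [sqrt_mul (by positivity), sqrt_sq (by positivity), sqrt_mul (by positivity),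
              sqrt_sq hC₀.le]
    have h5 : √(((E : ℝ) + (2 * R) ^ 2) * (G + (2 * R) ^ 2)) ≤
        √P + 2 * R * √(E + G) + 4 * R ^ 2 := by
      rw [← sqrt_sq (show (0 : ℝ) ≤ √P + 2 * R * √((E : ℝ) + G) + 4 * R ^ 2 by positivity)]
      apply sqrt_le_sqrt
      have e1 : √P ^ 2 = P := sq_sqrt hP0.le
      have e2 : √((E : ℝ) + G) ^ 2 = E + G := sq_sqrt (by linarith)
      have e3 : 0 ≤ √P := sqrt_nonneg _
      have e4 : 0 ≤ √((E : ℝ) + G) := sqrt_nonneg _
      have e5 : (√P + 2 * R * √((E : ℝ) + G) + 4 * R ^ 2) ^ 2 =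
          √P ^ 2 + 4 * R ^ 2 * √((E : ℝ) + G) ^ 2 + 16 * R ^ 4 +
          (4 * R * (√P * √((E : ℝ) + G)) + 8 * R ^ 2 * √P + 16 * R ^ 3 * √((E : ℝ) + G)) := by
        ring
      rw [e5, e1, e2]
      have e6 : 0 ≤ 4 * R * (√P * √((E : ℝ) + G)) + 8 * R ^ 2 * √P +
          16 * R ^ 3 * √((E : ℝ) + G) := by positivity
      have e7 : ((E : ℝ) + (2 * R) ^ 2) * (G + (2 * R) ^ 2) =
          P + 4 * R ^ 2 * (E + G) + 16 * R ^ 4 := by
        rw [hP]
        ring
      rw [e7]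
      linarith
    have h6 : √((E : ℝ) + G) = √P * √(1 / (E : ℝ) + 1 / G) := by
      rw [← sqrt_mul hP0.le]
      congr 1
      rw [hP]
      field_simp
      ring
    have h7 : (R : ℝ) ^ (δ - 1) * (√P + 2 * R * √(E + G) + 4 * R ^ 2) ≤
        4 * √P * (Q : ℝ) ^ δ * (1 / R₀ + √(1 / (E : ℝ) + 1 / G) + Q / √P) := by
      have e1 : (R : ℝ) ^ (δ - 1) = (R : ℝ) ^ δ * (1 / R) := by
        rw [rpow_sub_one hR0.ne']
        ring
      have e2 : (R : ℝ) ^ δ ≤ (Q : ℝ) ^ δ := rpow_le_rpow hR0.le hRQr hδ0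
      have e3 : (1 / (R : ℝ)) * (√P + 2 * R * √(E + G) + 4 * R ^ 2) ≤
          4 * (√P * (1 / R₀ + √(1 / (E : ℝ) + 1 / G) + Q / √P)) := by
        have e4 : (1 / (R : ℝ)) * (√P + 2 * R * √(E + G) + 4 * R ^ 2) =
            √P * (1 / R) + 2 * √((E : ℝ) + G) + 4 * R := by
          field_simp
        have e5 : √P * (1 / R₀ + √(1 / (E : ℝ) + 1 / G) + Q / √P) =
            √P * (1 / R₀) + √((E : ℝ) + G) + Q := by
          rw [h6, mul_add, mul_add, mul_div_cancel₀ _ (sqrt_pos.2 hP0).ne']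
        rw [e4, e5]
        have e6 : 1 / (R : ℝ) ≤ 1 / R₀ := one_div_le_one_div_of_le hR₀0 hRR
        have e7 := mul_le_mul_of_nonneg_left e6 (sqrt_nonneg P)
        have e8 : 0 ≤ √P * (1 / R₀) := by positivity
        have e9 : 0 ≤ √((E : ℝ) + G) := sqrt_nonneg _
        linarith
      rw [e1, mul_assoc]
      calc (R : ℝ) ^ δ * ((1 / (R : ℝ)) * (√P + 2 * R * √(E + G) + 4 * R ^ 2))
          ≤ (Q : ℝ) ^ δ * (4 * (√P * (1 / R₀ + √(1 / (E : ℝ) + 1 / G) + Q / √P))) :=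
            mul_le_mul e2 e3 (by positivity) (by positivity)
        _ = _ := by ring
    have h8 : P ^ ((1 - δ) / 2) * √P = P ^ (1 - δ) * P ^ (δ / 2) := by
      rw [sqrt_eq_rpow, ← rpow_add hP0, ← rpow_add hP0]
      congr 1
      ring
    calc (R : ℝ) ^ (δ - 1) * ∑ r ∈ range (2 * R), V3 (r + 1) A B C
        ≤ (R : ℝ) ^ (δ - 1) * (H * (C₀ * √(((E : ℝ) + (2 * R) ^ 2) * (G + (2 * R) ^ 2)) *
            (2 * K * P ^ ((1 - δ) / 2)))) := by
          apply mul_le_mul_of_nonneg_left _ (by positivity)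
          exact h1.trans (mul_le_mul hAc h4 (by positivity) (by positivity))
      _ ≤ (R : ℝ) ^ (δ - 1) * (H * (C₀ * (√P + 2 * R * √(E + G) + 4 * R ^ 2) *
            (2 * K * P ^ ((1 - δ) / 2)))) := by
          apply mul_le_mul_of_nonneg_left _ (by positivity)
          apply mul_le_mul_of_nonneg_left _ (by positivity)
          apply mul_le_mul_of_nonneg_right _ (by positivity)
          exact mul_le_mul_of_nonneg_left h5 hC₀.le
      _ = 2 * C₀ * K * H * P ^ ((1 - δ) / 2) *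
            ((R : ℝ) ^ (δ - 1) * (√P + 2 * R * √(E + G) + 4 * R ^ 2)) := by ring
      _ ≤ 2 * C₀ * K * H * P ^ ((1 - δ) / 2) *
            (4 * √P * (Q : ℝ) ^ δ * (1 / R₀ + √(1 / (E : ℝ) + 1 / G) + Q / √P)) :=
          mul_le_mul_of_nonneg_left h7 (by positivity)
      _ = 8 * C₀ * K * H * (P ^ ((1 - δ) / 2) * √P) * ((Q : ℝ) ^ δ *
            (1 / R₀ + √(1 / (E : ℝ) + 1 / G) + Q / √P)) := by ring
      _ = 8 * C₀ * K * H * P ^ (1 - δ) * T₂ := by
          rw [h8, hT₂]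
          ring
      _ ≤ (8 * √(5 * C₀) + 8 * C₀) * K ^ 2 * H * P ^ (1 - δ) * (R₀ ^ δ + T₂) := by
          apply mul_le_mul _ (by linarith) hT₂0 (by positivity)
          apply mul_le_mul_of_nonneg_right _ (by positivity)
          apply mul_le_mul_of_nonneg_right _ (by positivity)
          apply mul_le_mul
          · have := sqrt_nonneg (5 * C₀)
            linarith
          · nlinarith
          · positivity
          · positivity

theorem stBox_61 (hRk : StRk) (hMlp : StMlp) (hCh : StCh) : StBox := by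
  obtain ⟨C₀, hC₀, hsieve⟩ := hMlp
  refine ⟨2 * (8 * √(5 * C₀) + 8 * C₀), by positivity, ?_⟩
  intro m₁ m₂ H E G Q δ K F R₀ hcop hm₁ hm₂ hδ0 hδ hK₁ hK₂ hH hE hG hF hR₀ hRQ hRH
  obtain ⟨hE1, _, _, htail, htot⟩ := hRk δ m₂ hδ0 (by linarith) hm₂
  have hK : 1 ≤ K := hE1.trans hK₂
  have hK0 : 0 < K := by linarith
  have hF0 : 0 < F := by linarith
  have hHr : (1 : ℝ) ≤ H := by exact_mod_cast hH
  have hEr : (1 : ℝ) ≤ E := by exact_mod_cast hE
  have hGr : (1 : ℝ) ≤ G := by exact_mod_cast hG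
  have hQr : (1 : ℝ) ≤ Q := hR₀.trans hRQ
  have hQ1 : 1 ≤ Q := by exact_mod_cast hQr
  set A := Dv m₁ H with hA
  set B := Dv m₁ E with hB
  set C := Dv m₁ G with hC
  set Fs := m₂.divisors.filter (fun f : ℕ => F < (f : ℝ) ∧ f ≤ Q) with hFs
  have hcopD : ∀ M : ℕ, ∀ f ∈ Fs, ∀ a ∈ Dv m₁ M, Nat.Coprime a f := by
    intro M f hf a ha
    unfold Dv at ha
    rw [mem_filter] at ha
    rw [hFs, mem_filter] at hf
    exact (hcop.coprime_dvd_left (Nat.dvd_of_mem_divisors ha.1)).coprime_dvd_right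
      (Nat.dvd_of_mem_divisors hf.1)
  have hch := hCh Fs A B C Q (by
    intro f hf
    rw [hFs, mem_filter] at hf
    exact ⟨Nat.pos_of_mem_divisors hf.1, hf.2.2⟩)
    (fun f hf => ⟨hcopD H f hf, hcopD E f hf, hcopD G f hf⟩)
  refine hch.trans ?_
  -- the weights
  have hW : ∀ r ∈ range Q, ∑ f ∈ Fs.filter (fun f => r + 1 ∣ f), 1 / (f.totient : ℝ) ≤
      K ^ 2 * F ^ (-δ) * ((r : ℝ) + 1) ^ (δ - 1) := by
    intro r _
    have hr0 : (0 : ℝ) < (r : ℝ) + 1 := by positivity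
    have h1 : ∀ f ∈ Fs.filter (fun f => r + 1 ∣ f), 1 / (f.totient : ℝ) ≤
        K / ((r : ℝ) + 1) * (1 / ((f / (r + 1) : ℕ) : ℝ)) := by
      intro f hf
      rw [mem_filter, hFs, mem_filter] at hf
      have hf0 : 0 < f := Nat.pos_of_mem_divisors hf.1.1
      have h2 := htot f hf.1.1
      have h3 : (0 : ℝ) < f.totient := by exact_mod_cast Nat.totient_pos.2 hf0
      have h4 : (f : ℝ) = ((r : ℝ) + 1) * ((f / (r + 1) : ℕ) : ℝ) := by
        have := Nat.mul_div_cancel' hf.2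
        exact_mod_cast this.symm
      have h5 : (0 : ℝ) < f := by exact_mod_cast hf0
      have h6 : K / ((r : ℝ) + 1) * (1 / ((f / (r + 1) : ℕ) : ℝ)) = K / f := by
        rw [h4]
        field_simp
      rw [h6, div_le_div_iff₀ h3 h5, one_mul]
      exact h2.trans (mul_le_mul_of_nonneg_right hK₂ h3.le)
    calc ∑ f ∈ Fs.filter (fun f => r + 1 ∣ f), 1 / (f.totient : ℝ)
        ≤ ∑ f ∈ Fs.filter (fun f => r + 1 ∣ f),
            K / ((r : ℝ) + 1) * (1 / ((f / (r + 1) : ℕ) : ℝ)) := sum_le_sum h1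
      _ = K / ((r : ℝ) + 1) * ∑ f ∈ Fs.filter (fun f => r + 1 ∣ f),
            1 / ((f / (r + 1) : ℕ) : ℝ) := by rw [mul_sum]
      _ = K / ((r : ℝ) + 1) * ∑ d ∈ (Fs.filter (fun f => r + 1 ∣ f)).image (fun f => f / (r + 1)),
            1 / (d : ℝ) := by
          rw [sum_image]
          intro f hf f' hf' h
          rw [mem_coe, mem_filter] at hf hf'
          simp only at h
          rw [← Nat.mul_div_cancel' hf.2, h, Nat.mul_div_cancel' hf'.2]
      _ ≤ K / ((r : ℝ) + 1) * ∑ d ∈ m₂.divisors.filter (fun d : ℕ => F / ((r : ℝ) + 1) < (d : ℝ)),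
            1 / (d : ℝ) := by
          apply mul_le_mul_of_nonneg_left _ (by positivity)
          apply sum_le_sum_of_subset_of_nonneg
          · intro d hd
            rw [mem_image] at hd
            obtain ⟨f, hf, rfl⟩ := hd
            rw [mem_filter, hFs, mem_filter] at hf
            have hfd := Nat.dvd_of_mem_divisors hf.1.1
            rw [mem_filter, Nat.mem_divisors]
            refine ⟨⟨(Nat.div_dvd_of_dvd hf.2).trans hfd, by omega⟩, ?_⟩
            rw [div_lt_iff₀ hr0]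
            have h4 : (f : ℝ) = ((r : ℝ) + 1) * ((f / (r + 1) : ℕ) : ℝ) := by
              have := Nat.mul_div_cancel' hf.2
              exact_mod_cast this.symm
            rw [mul_comm, ← h4]
            exact hf.1.2.1
          · intro d _ _
            positivity
      _ ≤ K / ((r : ℝ) + 1) * ((F / ((r : ℝ) + 1)) ^ (-δ) * EP δ m₂) := by
          apply mul_le_mul_of_nonneg_left _ (by positivity)
          exact htail (F / ((r : ℝ) + 1)) (by positivity)
      _ ≤ K / ((r : ℝ) + 1) * ((F / ((r : ℝ) + 1)) ^ (-δ) * K) := by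
          apply mul_le_mul_of_nonneg_left _ (by positivity)
          exact mul_le_mul_of_nonneg_left hK₂ (by positivity)
      _ = K ^ 2 * F ^ (-δ) * ((r : ℝ) + 1) ^ (δ - 1) := by
          rw [div_rpow hF0.le hr0.le, rpow_neg hr0.le, rpow_sub_one hr0.ne']
          field_simp
  have hV3 : ∀ r : ℕ, 0 ≤ V3 (r + 1) A B C := by
    intro r
    unfold V3
    exact sum_nonneg fun χ _ => by positivity
  set Bd := (8 * √(5 * C₀) + 8 * C₀) * K ^ 2 * H * ((E : ℝ) * G) ^ (1 - δ) *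
      (R₀ ^ δ + ((E : ℝ) * G) ^ (δ / 2) * (Q : ℝ) ^ δ *
        (1 / R₀ + √(1 / (E : ℝ) + 1 / G) + Q / √((E : ℝ) * G))) with hBd
  have hBd0 : 0 ≤ Bd := by
    have : 0 < R₀ := by linarith
    positivity
  have hmaps : ∀ r ∈ range Q, Nat.log 2 (r + 1) ∈ range (Nat.log 2 Q + 1) := by
    intro r hr
    rw [mem_range] at hr ⊢
    exact Nat.lt_succ_of_le (Nat.log_mono_right hr)
  have hdy : ∑ r ∈ range Q, ((r : ℝ) + 1) ^ (δ - 1) * V3 (r + 1) A B C ≤
      (Nat.log 2 Q + 1 : ℕ) * Bd := by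
    rw [← sum_fiberwise_of_maps_to hmaps]
    calc ∑ i ∈ range (Nat.log 2 Q + 1), ∑ r ∈ (range Q).filter (fun r => Nat.log 2 (r + 1) = i),
          ((r : ℝ) + 1) ^ (δ - 1) * V3 (r + 1) A B C
        ≤ ∑ i ∈ range (Nat.log 2 Q + 1), Bd := by
          apply sum_le_sum
          intro i hi
          rw [mem_range] at hi
          have hpow : 2 ^ i ≤ Q := (Nat.pow_le_pow_right (by norm_num) (by omega)).trans
            (Nat.pow_log_le_self 2 (by omega))
          have h1 := block_bound C₀ hC₀ hsieve A B C H E G Q δ K R₀ (Dv_subset m₁ H)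
            (Dv_subset m₁ E) (Dv_subset m₁ G) (card_Dv_le m₁ H)
            (card_Dv_rk hRk m₁ E δ K hm₁ hE hδ0 hδ hK₁)
            (card_Dv_rk hRk m₁ G δ K hm₁ hG hδ0 hδ hK₁) hδ0 hδ hK hH hE hG hR₀ hRH (2 ^ i)
            Nat.one_le_two_pow hpow
          refine le_trans ?_ h1
          calc ∑ r ∈ (range Q).filter (fun r => Nat.log 2 (r + 1) = i),
                ((r : ℝ) + 1) ^ (δ - 1) * V3 (r + 1) A B C
              ≤ ∑ r ∈ (range Q).filter (fun r => Nat.log 2 (r + 1) = i),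
                ((2 ^ i : ℕ) : ℝ) ^ (δ - 1) * V3 (r + 1) A B C := by
                apply sum_le_sum
                intro r hr
                rw [mem_filter] at hr
                have h5 := (Nat.log_eq_iff (Or.inr ⟨by norm_num, by omega⟩)).1 hr.2
                apply mul_le_mul_of_nonneg_right _ (hV3 r)
                apply rpow_le_rpow_of_nonpos (by positivity) _ (by linarith)
                exact_mod_cast h5.1
            _ = ((2 ^ i : ℕ) : ℝ) ^ (δ - 1) *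
                  ∑ r ∈ (range Q).filter (fun r => Nat.log 2 (r + 1) = i),
                    V3 (r + 1) A B C := by rw [mul_sum]
            _ ≤ ((2 ^ i : ℕ) : ℝ) ^ (δ - 1) * ∑ r ∈ range (2 * 2 ^ i), V3 (r + 1) A B C := by
                apply mul_le_mul_of_nonneg_left _ (by positivity)
                apply sum_le_sum_of_subset_of_nonneg
                · intro r hr
                  rw [mem_filter] at hr
                  have h5 := (Nat.log_eq_iff (Or.inr ⟨by norm_num, by omega⟩)).1 hr.2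
                  rw [mem_range]
                  rw [pow_succ] at h5
                  omega
                · intro r _ _
                  exact hV3 r
      _ = _ := by rw [sum_const, card_range, nsmul_eq_mul]
  have hlogQ : ((Nat.log 2 Q + 1 : ℕ) : ℝ) ≤ 2 * (1 + log Q) := by
    have h1 : (2 : ℝ) ^ (Nat.log 2 Q) ≤ Q := by
      have := Nat.pow_log_le_self 2 (show Q ≠ 0 by omega)
      exact_mod_cast this
    have h2 := log_le_log (by positivity) h1
    rw [log_pow] at h2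
    have hl2 := log_two_gt_d9
    have h3 : (0 : ℝ) ≤ Nat.log 2 Q := Nat.cast_nonneg _
    push_cast
    nlinarith
  calc ∑ r ∈ range Q, (∑ f ∈ Fs.filter (fun f => r + 1 ∣ f), 1 / (f.totient : ℝ)) *
        V3 (r + 1) A B C
      ≤ ∑ r ∈ range Q, (K ^ 2 * F ^ (-δ) * ((r : ℝ) + 1) ^ (δ - 1)) * V3 (r + 1) A B C :=
        sum_le_sum fun r hr => mul_le_mul_of_nonneg_right (hW r hr) (hV3 r)
    _ = K ^ 2 * F ^ (-δ) * ∑ r ∈ range Q, ((r : ℝ) + 1) ^ (δ - 1) * V3 (r + 1) A B C := by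
        rw [mul_sum]
        exact sum_congr rfl fun r _ => by ring
    _ ≤ K ^ 2 * F ^ (-δ) * ((Nat.log 2 Q + 1 : ℕ) * Bd) :=
        mul_le_mul_of_nonneg_left hdy (by positivity)
    _ ≤ K ^ 2 * F ^ (-δ) * ((2 * (1 + log Q)) * Bd) := by
        apply mul_le_mul_of_nonneg_left _ (by positivity)
        exact mul_le_mul_of_nonneg_right hlogQ hBd0
    _ = _ := by
        rw [hBd]
        ring

end Pool.Agent.Lib.MP_2d8e53_nt.W
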