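import Mathlib
import Pool.Agent.Lib.MP_2d8e53_nt.W.Stmts95

set_option autoImplicit false

namespace Pool.Agent.Lib.MP_2d8e53_nt.W

open Finset Real
open scoped Classical

/-- The product of the norms of the three character sums. -/
noncomputable def G3_31 {f : ℕ} (A B C : Finset ℕ) (χ : DirichletCharacter ℂ f) : ℝ :=
  ‖∑ n ∈ A, χ n‖ * ‖∑ n ∈ B, χ n‖ * ‖∑ n ∈ C, χ n‖

theorem ch_orth_31 (A B C : Finset ℕ) (f : ℕ) [NeZero f] :
    ((((A ×ˢ B) ×ˢ C).filter fun x => f ∣ x.1.1 * x.1.2 * x.2 + 1).card : ℝ) * f.totient ≤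
      ∑ χ : DirichletCharacter ℂ f, G3_31 A B C χ := by
  have hu : IsUnit (-1 : ZMod f) := isUnit_one.neg
  have hiff : ∀ x : (ℕ × ℕ) × ℕ, (f ∣ x.1.1 * x.1.2 * x.2 + 1) ↔
      ((-1 : ZMod f) = ((x.1.1 : ZMod f) * x.1.2 * x.2)) := by
    intro x
    rw [← ZMod.natCast_eq_zero_iff]
    push_cast
    constructor
    · intro h
      linear_combination -h
    · intro h
      linear_combination -h
  have hkey : ((((A ×ˢ B) ×ˢ C).filter fun x => f ∣ x.1.1 * x.1.2 * x.2 + 1).card : ℂ) *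
      f.totient = ∑ χ : DirichletCharacter ℂ f, χ (-1 : ZMod f)⁻¹ *
        ((∑ n ∈ A, χ n) * (∑ n ∈ B, χ n) * (∑ n ∈ C, χ n)) := by
    have e1 : ∀ x : (ℕ × ℕ) × ℕ, (if f ∣ x.1.1 * x.1.2 * x.2 + 1 then (f.totient : ℂ) else 0) =
        ∑ χ : DirichletCharacter ℂ f, χ (-1 : ZMod f)⁻¹ * χ ((x.1.1 : ZMod f) * x.1.2 * x.2) := by
      intro x
      rw [DirichletCharacter.sum_char_inv_mul_char_eq ℂ hu]
      simp only [hiff x]
    calc ((((A ×ˢ B) ×ˢ C).filter fun x => f ∣ x.1.1 * x.1.2 * x.2 + 1).card : ℂ) * f.totient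
        = ∑ x ∈ (A ×ˢ B) ×ˢ C, if f ∣ x.1.1 * x.1.2 * x.2 + 1 then (f.totient : ℂ) else 0 := by
          rw [← sum_filter, sum_const, nsmul_eq_mul]
      _ = ∑ χ : DirichletCharacter ℂ f, ∑ x ∈ (A ×ˢ B) ×ˢ C,
            χ (-1 : ZMod f)⁻¹ * χ ((x.1.1 : ZMod f) * x.1.2 * x.2) := by
          rw [sum_comm]
          exact sum_congr rfl fun x _ => e1 x
      _ = _ := by
          refine sum_congr rfl fun χ _ => ?_
          rw [← mul_sum]
          congr 1
          rw [sum_product, sum_product, sum_mul_sum, sum_mul]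
          refine sum_congr rfl fun a _ => ?_
          rw [sum_mul]
          refine sum_congr rfl fun b _ => ?_
          rw [mul_sum]
          refine sum_congr rfl fun c _ => ?_
          simp only [map_mul]
  have hnorm := congrArg norm hkey
  rw [norm_mul, Complex.norm_natCast, Complex.norm_natCast] at hnorm
  rw [hnorm]
  refine (norm_sum_le _ _).trans (sum_le_sum fun χ _ => ?_)
  rw [norm_mul, norm_mul, norm_mul]
  refine mul_le_of_le_one_left ?_ (DirichletCharacter.norm_le_one χ _)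
  positivity

theorem ch_level_31 (A B C : Finset ℕ) (f Q : ℕ) [NeZero f] (hfQ : f ≤ Q)
    (hA : ∀ a ∈ A, Nat.Coprime a f) (hB : ∀ b ∈ B, Nat.Coprime b f)
    (hC : ∀ c ∈ C, Nat.Coprime c f) :
    ∑ χ : DirichletCharacter ℂ f, G3_31 A B C χ ≤
      ∑ r ∈ (range Q).filter (fun r => r + 1 ∣ f), V3 (r + 1) A B C := by
  have hG : ∀ χ : DirichletCharacter ℂ f, 0 ≤ G3_31 A B C χ := fun χ => by
    unfold G3_31; positivity
  have hmaps : ∀ χ ∈ (univ : Finset (DirichletCharacter ℂ f)),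
      χ.conductor - 1 ∈ (range Q).filter (fun r => r + 1 ∣ f) := by
    intro χ _
    have h1 : χ.conductor ≠ 0 := χ.conductor_ne_zero
    have h2 : χ.conductor ∣ f := χ.conductor_dvd_level
    have h3 : χ.conductor ≤ f := Nat.le_of_dvd (Nat.pos_of_ne_zero (NeZero.ne f)) h2
    rw [mem_filter, mem_range]
    refine ⟨by omega, ?_⟩
    rwa [Nat.sub_add_cancel (by omega)]
  rw [← sum_fiberwise_of_maps_to hmaps]
  refine sum_le_sum fun r hr => ?_
  have hrf : r + 1 ∣ f := (mem_filter.1 hr).2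
  have hsub : (univ : Finset (DirichletCharacter ℂ f)).filter (fun χ => χ.conductor - 1 = r) ⊆
      ((univ : Finset (DirichletCharacter ℂ (r + 1))).filter (fun ψ => ψ.IsPrimitive)).image
        (fun ψ => DirichletCharacter.changeLevel hrf ψ) := by
    intro χ hχ
    have h0 : χ.conductor - 1 = r := (mem_filter.1 hχ).2
    have h1 : χ.conductor ≠ 0 := χ.conductor_ne_zero
    have h2 : χ.conductor = r + 1 := by omega
    have h3 : DirichletCharacter.FactorsThrough χ (r + 1) := h2 ▸ χ.factorsThrough_conductor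
    obtain ⟨h4, χ₀, h5⟩ := h3
    rw [mem_image]
    refine ⟨χ₀, ?_, h5.symm⟩
    rw [mem_filter]
    refine ⟨mem_univ _, ?_⟩
    rw [DirichletCharacter.isPrimitive_def, ← DirichletCharacter.conductor_changeLevel χ₀ h4, ← h5]
    exact h2
  refine (sum_le_sum_of_subset_of_nonneg hsub fun χ _ _ => hG χ).trans ?_
  rw [sum_image]
  · unfold V3
    refine le_of_eq (sum_congr rfl fun ψ _ => ?_)
    have hval : ∀ n : ℕ, Nat.Coprime n f →
        (DirichletCharacter.changeLevel hrf ψ) (n : ZMod f) = ψ (n : ZMod (r + 1)) := by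
      intro n hn
      have := DirichletCharacter.changeLevel_eq_cast_of_dvd' ψ hrf (a := (n : ℤ))
        (Nat.isCoprime_iff_coprime.2 hn)
      simpa using this
    unfold G3_31
    rw [sum_congr rfl fun n hn => hval n (hA n hn), sum_congr rfl fun n hn => hval n (hB n hn),
      sum_congr rfl fun n hn => hval n (hC n hn)]
  · intro ψ _ ψ' _ h
    exact DirichletCharacter.changeLevel_injective hrf h

theorem stCh_31 : StCh := by
  intro F A B C Q hF hco
  have hV : ∀ r, 0 ≤ V3 (r + 1) A B C := fun r => by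
    unfold V3
    exact sum_nonneg fun _ _ => by positivity
  have hterm : ∀ f ∈ F,
      ((((A ×ˢ B) ×ˢ C).filter fun x => f ∣ x.1.1 * x.1.2 * x.2 + 1).card : ℝ) ≤
        ∑ r ∈ range Q, if r + 1 ∣ f then 1 / (f.totient : ℝ) * V3 (r + 1) A B C else 0 := by
    intro f hf
    obtain ⟨h1, h2⟩ := hF f hf
    have : NeZero f := ⟨by omega⟩
    have hφ : (0 : ℝ) < f.totient := by exact_mod_cast Nat.totient_pos.2 (by omega)
    have h3 := (ch_orth_31 A B C f).trans
      (ch_level_31 A B C f Q h2 (hco f hf).1 (hco f hf).2.1 (hco f hf).2.2)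
    rw [← sum_filter, ← mul_sum, one_div, inv_mul_eq_div, le_div_iff₀ hφ]
    exact h3
  refine (sum_le_sum hterm).trans (le_of_eq ?_)
  rw [sum_comm]
  refine sum_congr rfl fun r _ => ?_
  rw [sum_filter, sum_mul]
  refine sum_congr rfl fun f _ => ?_
  split_ifs <;> simp

end Pool.Agent.Lib.MP_2d8e53_nt.W
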