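import Pool.Agent.Lib.MP_2d8e53_nt.W.Stmts95

/-!
DIV: divisors in given ranges (helper12).
-/

set_option autoImplicit false

namespace Pool.Agent.Lib.MP_2d8e53_nt.W

open Finset Real
open scoped Classical

/-- the smooth and the rough part -/
lemma div12_split (Z : ℝ) (a : ℕ) (ha : 1 ≤ a) :
    ∃ s b : ℕ, a = s * b ∧ (∀ q : ℕ, q.Prime → q ∣ s → (q : ℝ) ≤ Z) ∧ Rough Z b := by
  induction a using Nat.strong_induction_on with
  | _ a ih =>
    rcases Nat.eq_or_lt_of_le ha with h | h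
    · refine ⟨1, 1, by omega, ?_, ?_⟩
      · intro q hq hq1
        exact absurd (Nat.dvd_one.1 hq1) hq.one_lt.ne'
      · intro q hq hq1
        exact absurd (Nat.dvd_one.1 hq1) hq.one_lt.ne'
    · obtain ⟨q, hq, c, rfl⟩ := Nat.exists_prime_and_dvd (show a ≠ 1 by omega)
      have hc : 1 ≤ c := by
        rcases Nat.eq_zero_or_pos c with rfl | h1
        · simp at h
        · exact h1
      obtain ⟨s, b, h1, h2, h3⟩ := ih c (by
        have := hq.two_le
        nlinarith) hc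
      by_cases hqZ : (q : ℝ) ≤ Z
      · refine ⟨q * s, b, by rw [h1]; ring, ?_, h3⟩
        intro r hr hrs
        rcases (Nat.Prime.dvd_mul hr).1 hrs with h4 | h4
        · rw [(Nat.prime_dvd_prime_iff_eq hr hq).1 h4]
          exact hqZ
        · exact h2 r hr h4
      · refine ⟨s, q * b, by rw [h1]; ring, h2, ?_⟩
        intro r hr hrs
        rcases (Nat.Prime.dvd_mul hr).1 hrs with h4 | h4
        · rw [(Nat.prime_dvd_prime_iff_eq hr hq).1 h4]
          exact not_le.1 hqZ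
        · exact h3 r hr h4

/-- greedy divisors -/
lemma div12_greedy {Z : ℝ} {s : ℕ} (hs1 : 1 ≤ s) (hs : ∀ q : ℕ, q.Prime → q ∣ s → (q : ℝ) ≤ Z)
    {F : ℝ} (hF : 1 ≤ F) (hFs : F < s) : ∃ f : ℕ, f ∣ s ∧ F < (f : ℝ) ∧ (f : ℝ) ≤ Z * F := by
  have hex : ∃ f : ℕ, f ∣ s ∧ F < (f : ℝ) := ⟨s, dvd_rfl, hFs⟩
  obtain ⟨f, ⟨hf1, hf2⟩, hmin⟩ : ∃ f : ℕ, (f ∣ s ∧ F < (f : ℝ)) ∧
      ∀ g < f, ¬ (g ∣ s ∧ F < (g : ℝ)) :=
    ⟨Nat.find hex, Nat.find_spec hex, fun g hg => Nat.find_min hex hg⟩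
  refine ⟨f, hf1, hf2, ?_⟩
  have hf0 : f ≠ 1 := by
    rintro rfl
    rw [Nat.cast_one] at hf2
    linarith
  obtain ⟨q, hq, c, rfl⟩ := Nat.exists_prime_and_dvd hf0
  have hc : c ≠ 0 := by
    rintro rfl
    simp at hf2
    linarith
  have h1 : c < q * c := by
    have := hq.two_le
    have hc' := Nat.pos_of_ne_zero hc
    nlinarith
  have h2 := hmin c h1
  have h3 : (c : ℝ) ≤ F := by
    by_contra hcon
    push Not at hcon
    exact h2 ⟨(dvd_mul_left c q).trans hf1, hcon⟩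
  have h4 := hs q hq ((dvd_mul_right q c).trans hf1)
  push_cast
  exact mul_le_mul h4 h3 (Nat.cast_nonneg _) ((Nat.cast_nonneg _).trans h4)

/-- module DIV -/
theorem stDiv_12 : StDiv := by
  intro Z Y a hZ hY ha hr
  obtain ⟨s, b, hab, hs, hb⟩ := div12_split Z a ha
  have hs1 : 1 ≤ s := by
    rcases Nat.eq_zero_or_pos s with rfl | h
    · simp at hab
      omega
    · exact h
  have hbY : (b : ℝ) ≤ Y := hr b (by rw [hab]; exact dvd_mul_left _ _) hb
  have hs0 : (0 : ℝ) < s := by exact_mod_cast hs1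
  have haY : (a : ℝ) ≤ s * Y := by
    rw [hab]
    push_cast
    exact mul_le_mul_of_nonneg_left hbY hs0.le
  have hY0 : (0 : ℝ) < Y := by linarith
  refine ⟨?_, ?_⟩
  · intro F hF hFa
    have h1 : F < s := by
      have := lt_of_lt_of_le hFa haY
      exact lt_of_mul_lt_mul_right this hY0.le
    obtain ⟨f, h2, h3, h4⟩ := div12_greedy hs1 hs hF h1
    exact ⟨f, h2.trans (by rw [hab]; exact dvd_mul_right _ _), h3, h4⟩
  · intro H E hH hE hHE
    have h1 : Z * H * E < s := by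
      have := lt_of_lt_of_le hHE haY
      exact lt_of_mul_lt_mul_right this hY0.le
    have h2 : H < s := by
      have h3 : H * 1 ≤ H * E := mul_le_mul_of_nonneg_left hE (by linarith)
      have h4 : (H * E) * 1 ≤ (H * E) * Z := mul_le_mul_of_nonneg_left (by linarith) (by nlinarith)
      nlinarith
    obtain ⟨h, h5, h6, h7⟩ := div12_greedy hs1 hs hH h2
    obtain ⟨s', rfl⟩ := h5
    have hs'1 : 1 ≤ s' := by
      rcases Nat.eq_zero_or_pos s' with rfl | h8
      · simp at hs1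
      · exact h8
    have h8 : E < s' := by
      push_cast at h1
      have h9 : (h : ℝ) * s' ≤ Z * H * s' :=
        mul_le_mul_of_nonneg_right h7 (Nat.cast_nonneg _)
      have h10 : Z * H * E < Z * H * s' := lt_of_lt_of_le h1 h9
      exact lt_of_mul_lt_mul_left h10 (by nlinarith)
    obtain ⟨e, ⟨g, hg⟩, h11, h12⟩ := div12_greedy hs'1
      (fun q hq hqs => hs q hq (hqs.mul_left _)) hE h8
    refine ⟨h, e, g * b, ?_, h6, h7, h11, h12⟩
    rw [hab, hg]
    ring

end Pool.Agent.Lib.MP_2d8e53_nt.W
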