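import Pool.Agent.Lib.MP_2d8e53_nt.W.Stmts95

/-!
# The sum over the divisors `a` of `m₁` with `a + 1 ∣ m₂`
-/

set_option autoImplicit false

namespace Pool.Agent.Lib.MP_2d8e53_nt.W

open Finset Real
open scoped Classical

/-- Dyadic decomposition. -/
theorem split_dyadic (A : Finset ℕ) (f : ℕ → ℝ) (i₀ n : ℕ) (h : i₀ ≤ n) :
    ∑ a ∈ A, f a = ∑ a ∈ A.filter (fun a => a ≤ 2 ^ i₀), f a +
      ∑ i ∈ Ico i₀ n, ∑ a ∈ A.filter (fun a => 2 ^ i < a ∧ a ≤ 2 ^ (i + 1)), f a +
      ∑ a ∈ A.filter (fun a => 2 ^ n < a), f a := by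
  induction n, h using Nat.le_induction with
  | base =>
    rw [Ico_self, sum_empty, add_zero, ← sum_filter_add_sum_filter_not A (fun a => a ≤ 2 ^ i₀)]
    congr 2
    ext a
    simp only [mem_filter, not_le]
  | succ n hn ih =>
    rw [ih, sum_Ico_succ_top hn]
    have h1 : ∑ a ∈ A.filter (fun a => 2 ^ n < a), f a =
        ∑ a ∈ A.filter (fun a => 2 ^ n < a ∧ a ≤ 2 ^ (n + 1)), f a +
        ∑ a ∈ A.filter (fun a => 2 ^ (n + 1) < a), f a := by
      rw [← sum_filter_add_sum_filter_not (A.filter (fun a => 2 ^ n < a))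
        (fun a => a ≤ 2 ^ (n + 1)), filter_filter, filter_filter]
      congr 2
      ext a
      simp only [mem_filter, not_le, and_congr_right_iff, and_iff_right_iff_imp]
      intro _ h
      rw [pow_succ] at h
      omega
    rw [h1]
    ring

/-- The small divisors. -/
theorem small_div (A : Finset ℕ) (hA : ∀ a ∈ A, 1 ≤ a) (d : ℝ) (hd : 0 ≤ d) (i : ℕ) :
    ∑ a ∈ A.filter (fun a => a ≤ 2 ^ i), (a : ℝ) ^ (d - 1) ≤
      exp (d * (i * log 2)) * (1 + i * log 2) := by
  have h2i : ((2 ^ i : ℕ) : ℝ) = exp (i * log 2) := by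
    rw [← log_rpow (by norm_num), exp_log (by positivity), rpow_natCast]
    push_cast
    rfl
  calc ∑ a ∈ A.filter (fun a => a ≤ 2 ^ i), (a : ℝ) ^ (d - 1)
      ≤ ∑ a ∈ (Icc 1 (2 ^ i) : Finset ℕ), (a : ℝ) ^ (d - 1) := by
        apply sum_le_sum_of_subset_of_nonneg
        · intro a ha
          rw [mem_filter] at ha
          exact mem_Icc.2 ⟨hA a ha.1, ha.2⟩
        · intro a _ _
          positivity
    _ ≤ ∑ a ∈ (Icc 1 (2 ^ i) : Finset ℕ), exp (d * (i * log 2)) * ((a : ℝ)⁻¹) := by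
        apply sum_le_sum
        intro a ha
        rw [mem_Icc] at ha
        have ha0 : (0 : ℝ) < a := by exact_mod_cast ha.1
        rw [rpow_sub_one ha0.ne', div_eq_mul_inv]
        apply mul_le_mul_of_nonneg_right _ (by positivity)
        have h3 : (a : ℝ) ≤ exp (i * log 2) := by
          rw [← h2i]
          exact_mod_cast ha.2
        calc (a : ℝ) ^ d ≤ exp (i * log 2) ^ d := rpow_le_rpow ha0.le h3 hd
          _ = exp (d * (i * log 2)) := by
              rw [← exp_mul]
              ring_nf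
    _ = exp (d * (i * log 2)) * ∑ a ∈ (Icc 1 (2 ^ i) : Finset ℕ), ((a : ℝ)⁻¹) := by rw [mul_sum]
    _ ≤ exp (d * (i * log 2)) * (1 + i * log 2) := by
        apply mul_le_mul_of_nonneg_left _ (exp_pos _).le
        have h1 := harmonic_le_one_add_log (2 ^ i)
        rw [harmonic_eq_sum_Icc] at h1
        push_cast at h1
        rw [log_pow] at h1
        exact h1

/-- One block, with Rankin's method. -/
theorem block_rankin (hRk : StRk) (m : ℕ) (hm : 1 ≤ m) (A : Finset ℕ) (hA : A ⊆ m.divisors)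
    (d δ T : ℝ) (hd1 : d ≤ 1) (hδ0 : 0 ≤ δ) (hδ : δ ≤ 1 / 2) (hT : EP δ m ≤ T) (i : ℕ) :
    ∑ a ∈ A.filter (fun a => 2 ^ i < a ∧ a ≤ 2 ^ (i + 1)), (a : ℝ) ^ (d - 1) ≤
      2 * exp ((d - δ) * (i * log 2)) * T := by
  obtain ⟨hE1, _, hcount, _, _⟩ := hRk δ m hδ0 hδ hm
  have h2i : ((2 ^ i : ℕ) : ℝ) = exp (i * log 2) := by
    rw [← log_rpow (by norm_num), exp_log (by positivity), rpow_natCast]
    push_cast
    rfl
  set t := exp (i * log 2) with ht
  have ht0 : 0 < t := exp_pos _
  have hc := hcount (2 * t) (by positivity)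
  have hcard : ((A.filter (fun a => 2 ^ i < a ∧ a ≤ 2 ^ (i + 1))).card : ℝ) ≤
      (2 * t) ^ (1 - δ) * EP δ m := by
    refine le_trans ?_ hc
    have : A.filter (fun a => 2 ^ i < a ∧ a ≤ 2 ^ (i + 1)) ⊆
        m.divisors.filter fun d : ℕ => (d : ℝ) ≤ 2 * t := by
      intro a ha
      rw [mem_filter] at ha
      rw [mem_filter]
      refine ⟨hA ha.1, ?_⟩
      rw [← h2i]
      have h3 := ha.2.2
      rw [pow_succ, mul_comm] at h3
      exact_mod_cast h3
    exact_mod_cast card_le_card this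
  have h3 : (2 * t) ^ (1 - δ) ≤ 2 * t ^ (1 - δ) := by
    rw [mul_rpow (by norm_num) ht0.le]
    apply mul_le_mul_of_nonneg_right _ (by positivity)
    calc (2 : ℝ) ^ (1 - δ) ≤ 2 ^ (1 : ℝ) :=
          rpow_le_rpow_of_exponent_le (by norm_num) (by linarith)
      _ = 2 := rpow_one 2
  have hEP0 : 0 ≤ EP δ m := zero_le_one.trans hE1
  calc ∑ a ∈ A.filter (fun a => 2 ^ i < a ∧ a ≤ 2 ^ (i + 1)), (a : ℝ) ^ (d - 1)
      ≤ ∑ a ∈ A.filter (fun a => 2 ^ i < a ∧ a ≤ 2 ^ (i + 1)), t ^ (d - 1) := by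
        apply sum_le_sum
        intro a ha
        rw [mem_filter] at ha
        apply rpow_le_rpow_of_nonpos ht0 _ (by linarith)
        rw [← h2i]
        exact_mod_cast ha.2.1.le
    _ = ((A.filter (fun a => 2 ^ i < a ∧ a ≤ 2 ^ (i + 1))).card : ℝ) * t ^ (d - 1) := by
        rw [sum_const, nsmul_eq_mul]
    _ ≤ (2 * t ^ (1 - δ) * T) * t ^ (d - 1) := by
        apply mul_le_mul_of_nonneg_right _ (by positivity)
        exact hcard.trans (mul_le_mul h3 hT hEP0 (by positivity))
    _ = 2 * (t ^ (1 - δ) * t ^ (d - 1)) * T := by ring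
    _ = 2 * exp ((d - δ) * (i * log 2)) * T := by
        rw [← rpow_add ht0, ht, ← exp_mul]
        congr 3
        ring

/-- The large divisors. -/
theorem large_div (hRk : StRk) (m : ℕ) (hm : 1 ≤ m) (A : Finset ℕ) (hA : A ⊆ m.divisors)
    (d δ T : ℝ) (hdδ : d ≤ δ) (hδ0 : 0 ≤ δ) (hδ : δ ≤ 1 / 2) (hT : EP δ m ≤ T) (n : ℕ) :
    ∑ a ∈ A.filter (fun a => 2 ^ n < a), (a : ℝ) ^ (d - 1) ≤
      exp (-((δ - d) * (n * log 2))) * T := by
  obtain ⟨hE1, hsum, _, _, _⟩ := hRk δ m hδ0 hδ hm
  have h2i : ((2 ^ n : ℕ) : ℝ) = exp (n * log 2) := by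
    rw [← log_rpow (by norm_num), exp_log (by positivity), rpow_natCast]
    push_cast
    rfl
  set t := exp (n * log 2) with ht
  have ht0 : 0 < t := exp_pos _
  calc ∑ a ∈ A.filter (fun a => 2 ^ n < a), (a : ℝ) ^ (d - 1)
      ≤ ∑ a ∈ A.filter (fun a => 2 ^ n < a), t ^ (d - δ) * (a : ℝ) ^ (δ - 1) := by
        apply sum_le_sum
        intro a ha
        rw [mem_filter] at ha
        have h3 : t < a := by
          rw [← h2i]
          exact_mod_cast ha.2
        have ha0 : (0 : ℝ) < a := ht0.trans h3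
        have h4 : (a : ℝ) ^ (d - 1) = (a : ℝ) ^ (d - δ) * (a : ℝ) ^ (δ - 1) := by
          rw [← rpow_add ha0]
          congr 1
          ring
        rw [h4]
        apply mul_le_mul_of_nonneg_right _ (by positivity)
        exact rpow_le_rpow_of_nonpos ht0 h3.le (by linarith)
    _ = t ^ (d - δ) * ∑ a ∈ A.filter (fun a => 2 ^ n < a), (a : ℝ) ^ (δ - 1) := by
        rw [mul_sum]
    _ ≤ t ^ (d - δ) * T := by
        apply mul_le_mul_of_nonneg_left _ (by positivity)
        refine le_trans ?_ (hsum.trans hT)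
        exact sum_le_sum_of_subset_of_nonneg ((filter_subset _ _).trans hA)
          (fun a _ _ => by positivity)
    _ = _ := by
        rw [ht, ← exp_mul]
        congr 2
        ring

theorem stE_61 (hRk : StRk) (hEu : StEu) (hT : StT) : StE := by
  intro κ hκ1 hκ2 η hη
  obtain ⟨C, zE, hC, hEu⟩ := hEu
  set c := (3 - 2 * κ) / 3 with hc
  have hc0 : 0 < c := by rw [hc]; linarith
  have hc1 : c ≤ 1 / 3 := by rw [hc]; linarith
  set κ' := (3 / 2 + κ) / 2 with hκ'
  have hκκ' : κ < κ' := by rw [hκ']; linarith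
  have hκ'2 : κ' < 3 / 2 := by rw [hκ']; linarith
  obtain ⟨zT, hT⟩ := hT (3 / 2 - κ') (by linarith)
  -- the conditions on `log log z`
  have hv : ∀ᶠ v : ℝ in Filter.atTop, 1 ≤ v ∧ log v + log (κ / (1 - c)) + C / v ≤ c * v ∧
      κ * v ≤ κ' * (v - log v) ∧ C / v ≤ 1 / 2 * v := by
    have h1 := isLittleO_log_id_atTop.def (show (0 : ℝ) < c / 3 by positivity)
    have h2 := isLittleO_log_id_atTop.def (show (0 : ℝ) < (κ' - κ) / κ' by
      apply div_pos <;> linarith)
    filter_upwards [h1, h2, Filter.eventually_ge_atTop 1,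
      Filter.eventually_ge_atTop (3 * |log (κ / (1 - c))| / c),
      Filter.eventually_ge_atTop (3 * C / c), Filter.eventually_ge_atTop (2 * C)]
      with v h1 h2 h3 h4 h5 h6
    simp only [id, norm_eq_abs] at h1 h2
    rw [abs_of_nonneg (log_nonneg h3), abs_of_nonneg (by linarith)] at h1 h2
    rw [div_le_iff₀ hc0] at h4 h5
    have h7 : C / v ≤ C := div_le_self hC.le h3
    refine ⟨h3, ?_, ?_, ?_⟩
    · have := le_abs_self (log (κ / (1 - c)))
      linarith
    · have h8 : κ' * log v ≤ κ' * ((κ' - κ) / κ' * v) :=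
        mul_le_mul_of_nonneg_left h2 (by linarith)
      have h9 : κ' * ((κ' - κ) / κ' * v) = (κ' - κ) * v := by
        have : κ' ≠ 0 := by linarith
        field_simp
      linarith
    · linarith
  have hw : ∀ᶠ w : ℝ in Filter.atTop, 1 ≤ w ∧ log w ≤ (1 - c) / κ * √w ∧ log w ≤ w / 4 ∧
      13 * w ^ 4 ≤ η * exp (c * w) := by
    have h1 := (isLittleO_log_rpow_atTop (show (0 : ℝ) < 1 / 2 by norm_num)).def
      (show (0 : ℝ) < (1 - c) / κ by apply div_pos <;> linarith)
    have h2 := isLittleO_log_id_atTop.def (show (0 : ℝ) < 1 / 4 by norm_num)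
    have h3 := (isLittleO_pow_exp_pos_mul_atTop (k := 4) hc0).def
      (show (0 : ℝ) < η / 13 by positivity)
    filter_upwards [h1, h2, h3, Filter.eventually_ge_atTop 1] with w h1 h2 h3 h4
    simp only [id, norm_eq_abs] at h1 h2 h3
    rw [abs_of_nonneg (log_nonneg h4), abs_of_nonneg (by positivity), ← sqrt_eq_rpow] at h1
    rw [abs_of_nonneg (log_nonneg h4), abs_of_nonneg (by linarith)] at h2
    rw [abs_of_nonneg (by positivity), abs_of_nonneg (exp_pos _).le] at h3
    refine ⟨h4, h1, by linarith, by linarith⟩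
  have hev : ∀ᶠ z : ℝ in Filter.atTop, (zE ≤ z ∧ zT ≤ z ∧ 1 < z) ∧
      (1 ≤ log (log z) ∧ log (log (log z)) + log (κ / (1 - c)) + C / log (log z) ≤
        c * log (log z) ∧ κ * log (log z) ≤ κ' * (log (log z) - log (log (log z))) ∧
        C / log (log z) ≤ 1 / 2 * log (log z)) ∧
      (1 ≤ log z ∧ log (log z) ≤ (1 - c) / κ * √(log z) ∧ log (log z) ≤ log z / 4 ∧
        13 * log z ^ 4 ≤ η * exp (c * log z)) := by
    have h1 : Filter.Tendsto (fun z : ℝ => log (log z)) Filter.atTop Filter.atTop :=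
      tendsto_log_atTop.comp tendsto_log_atTop
    filter_upwards [Filter.eventually_ge_atTop zE, Filter.eventually_ge_atTop zT,
      Filter.eventually_gt_atTop 1, h1.eventually hv, tendsto_log_atTop.eventually hw]
      with z h1 h2 h3 h4 h5
    exact ⟨⟨h1, h2, h3⟩, h4, h5⟩
  obtain ⟨z₀, hz₀⟩ := Filter.eventually_atTop.1 hev
  refine ⟨z₀, ?_⟩
  intro z hz m₁ m₂ hcop hm₁ hm₂ hl₁ hl₂
  obtain ⟨⟨hzE, hzT, hz1⟩, ⟨hv1, hv2, hv3, hv4⟩, hw1, hw2, hw3, hw4⟩ := hz₀ z hz
  set w := log z with hwdef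
  set v := log w with hvdef
  have hz0 : 0 < z := by linarith
  have hexpw : exp w = z := exp_log hz0
  have hexpv : exp v = w := exp_log (by linarith)
  have hv0 : 0 < v := by linarith
  have hw0 : 0 < w := by linarith
  have hκ0 : 0 < κ := by linarith
  have h1c : 0 < 1 - c := by linarith
  set d := κ * v / w with hd
  have hd0 : 0 ≤ d := by positivity
  have hd1 : d ≤ 1 := by
    rw [hd, div_le_one hw0]
    have h1 : κ * v ≤ 3 / 2 * v := mul_le_mul_of_nonneg_right hκ2.le hv0.le
    linarith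
  have hl2 := log_two_gt_d9
  have hl3 := log_two_lt_d9
  have hlog2 : 0 < log 2 := by linarith
  set u₁ := (1 - c) * w / (κ * v) with hu₁
  have hu₁0 : 0 < u₁ := by positivity
  have hu₁w : u₁ ≤ w := by
    rw [hu₁, div_le_iff₀ (by positivity)]
    have h1 : 1 * 1 ≤ κ * v := mul_le_mul hκ1 hv1 (by norm_num) hκ0.le
    have h2 : w * 1 ≤ w * (κ * v) := mul_le_mul_of_nonneg_left (by linarith) hw0.le
    have h3 : 0 ≤ c * w := by positivity
    linarith
  have hu₁s : √w ≤ u₁ := by
    rw [hu₁, le_div_iff₀ (by positivity)]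
    have h1 : κ * v ≤ (1 - c) * √w := by
      have h2 := mul_le_mul_of_nonneg_left hw2 hκ0.le
      have h3 : κ * ((1 - c) / κ * √w) = (1 - c) * √w := by field_simp
      linarith
    calc √w * (κ * v) ≤ √w * ((1 - c) * √w) := mul_le_mul_of_nonneg_left h1 (sqrt_nonneg _)
      _ = (1 - c) * (√w * √w) := by ring
      _ = (1 - c) * w := by rw [mul_self_sqrt hw0.le]
  have hsw : 1 ≤ √w := by
    rw [← sqrt_one]
    exact sqrt_le_sqrt hw1
  set i₀ := ⌈u₁ * w / log 2⌉₊ with hi₀
  set i₁ := ⌈w ^ 3 / log 2⌉₊ with hi₁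
  have hi₀a : u₁ * w ≤ i₀ * log 2 := by
    have := Nat.le_ceil (u₁ * w / log 2)
    rwa [div_le_iff₀ hlog2] at this
  have hi₀b : i₀ * log 2 ≤ u₁ * w + log 2 := by
    have := (Nat.ceil_lt_add_one (show 0 ≤ u₁ * w / log 2 by positivity)).le
    rw [← hi₀] at this
    have h2 := mul_le_mul_of_nonneg_right this hlog2.le
    have h3 : (u₁ * w / log 2 + 1) * log 2 = u₁ * w + log 2 := by field_simp
    linarith
  have hi₁a : w ^ 3 ≤ i₁ * log 2 := by
    have := Nat.le_ceil (w ^ 3 / log 2)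
    rwa [div_le_iff₀ hlog2] at this
  have hi₁b : (i₁ : ℝ) < w ^ 3 / log 2 + 1 :=
    Nat.ceil_lt_add_one (show 0 ≤ w ^ 3 / log 2 by positivity)
  have hi₁c : (i₁ : ℝ) ≤ 2 * w ^ 3 + 1 := by
    have h1 : w ^ 3 / log 2 ≤ 2 * w ^ 3 := by
      rw [div_le_iff₀ hlog2]
      have h2 : 0 ≤ w ^ 3 := by positivity
      have h3 : w ^ 3 * 1 ≤ w ^ 3 * (2 * log 2) := mul_le_mul_of_nonneg_left (by linarith) h2
      linarith
    linarith
  have hi₀₁ : i₀ ≤ i₁ := by
    apply Nat.ceil_mono
    apply div_le_div_of_nonneg_right _ hlog2.le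
    calc u₁ * w ≤ w * w := mul_le_mul_of_nonneg_right hu₁w hw0.le
      _ = w ^ 2 := by ring
      _ ≤ w ^ 3 := pow_le_pow_right₀ hw1 (by norm_num)
  set A := m₁.divisors.filter (fun a => a + 1 ∣ m₂) with hA
  have hAs : A ⊆ m₁.divisors := filter_subset _ _
  set B := exp ((1 - c) * w) with hB
  have hB1 : 1 ≤ B := one_le_exp (by positivity)
  -- the small divisors
  have hS1 : ∑ a ∈ A.filter (fun a => a ≤ 2 ^ i₀), (a : ℝ) ^ (d - 1) ≤ 2 * B * (2 + w ^ 2) := by
    refine (small_div A (fun a ha => Nat.pos_of_mem_divisors (hAs ha)) d hd0 i₀).trans ?_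
    have h1 : d * (i₀ * log 2) ≤ (1 - c) * w + log 2 := by
      have h2 : d * (u₁ * w) = (1 - c) * w := by
        rw [hd, hu₁]
        field_simp
      have h3 := mul_le_mul_of_nonneg_left hi₀b hd0
      have h4 : d * log 2 ≤ 1 * log 2 := mul_le_mul_of_nonneg_right hd1 hlog2.le
      rw [mul_add, h2] at h3
      linarith
    have h5 : exp (d * (i₀ * log 2)) ≤ 2 * B := by
      calc exp (d * (i₀ * log 2)) ≤ exp ((1 - c) * w + log 2) := exp_le_exp.2 h1
        _ = 2 * B := by rw [exp_add, exp_log (by norm_num), mul_comm]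
    apply mul_le_mul h5 _ (by positivity) (by positivity)
    have h6 : u₁ * w ≤ w * w := mul_le_mul_of_nonneg_right hu₁w hw0.le
    have h7 : w * w = w ^ 2 := by ring
    linarith
  -- the large divisors
  have hS3 : ∑ a ∈ A.filter (fun a => 2 ^ i₁ < a), (a : ℝ) ^ (d - 1) ≤ 1 := by
    have h1 := hEu z hzE (w ^ 2) (by
      calc √w ≤ w := by
            rw [sqrt_le_left hw0.le]
            exact le_self_pow₀ hw1 (by norm_num)
        _ ≤ w ^ 2 := le_self_pow₀ hw1 (by norm_num)) le_rfl m₁ hm₁ hl₁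
    rw [← hwdef, ← hvdef, log_pow, ← hvdef] at h1
    push_cast at h1
    have hδ1 : 2 * v / w ≤ 1 / 2 := by
      rw [div_le_iff₀ hw0]
      linarith
    have h2 := large_div hRk m₁ hm₁ A hAs d (2 * v / w) _ (by
      rw [hd]
      apply div_le_div_of_nonneg_right _ hw0.le
      exact mul_le_mul_of_nonneg_right (by linarith) hv0.le) (by positivity) hδ1 h1 i₁
    refine h2.trans ?_
    rw [← exp_add]
    apply exp_le_one_iff.2
    have h3 : 2 * v / w - d = (2 - κ) * v / w := by
      rw [hd]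
      ring
    rw [h3]
    have h4 : (2 - κ) * v * w ^ 2 ≤ (2 - κ) * v / w * (i₁ * log 2) := by
      have h5 : 0 ≤ (2 - κ) * v / w := by
        apply div_nonneg _ hw0.le
        exact mul_nonneg (by linarith) hv0.le
      have h6 := mul_le_mul_of_nonneg_left hi₁a h5
      have h7 : (2 - κ) * v / w * w ^ 3 = (2 - κ) * v * w ^ 2 := by field_simp
      linarith
    have h5 : C * w ^ 2 / v ≤ (2 - κ) * v * w ^ 2 := by
      have h6 : C * w ^ 2 / v = C / v * w ^ 2 := by ring
      rw [h6]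
      apply mul_le_mul_of_nonneg_right _ (by positivity)
      have h7 : 1 / 2 * v ≤ (2 - κ) * v := mul_le_mul_of_nonneg_right (by linarith) hv0.le
      linarith
    linarith
  -- the blocks
  have hblock : ∀ i ∈ Ico i₀ i₁,
      ∑ a ∈ A.filter (fun a => 2 ^ i < a ∧ a ≤ 2 ^ (i + 1)), (a : ℝ) ^ (d - 1) ≤ 2 * B := by
    intro i hi
    rw [mem_Ico] at hi
    set u := i * log 2 / w with hu
    have huw : u * w = i * log 2 := by
      rw [hu]
      field_simp
    have hu1 : u₁ ≤ u := by
      rw [hu, le_div_iff₀ hw0]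
      have h1 : (i₀ : ℝ) * log 2 ≤ i * log 2 :=
        mul_le_mul_of_nonneg_right (by exact_mod_cast hi.1) hlog2.le
      linarith
    have hu2 : u ≤ w ^ 2 := by
      rw [hu, div_le_iff₀ hw0]
      have h1 : (i : ℝ) + 1 ≤ i₁ := by exact_mod_cast hi.2
      have h2 : (i : ℝ) < w ^ 3 / log 2 := by linarith
      rw [lt_div_iff₀ hlog2] at h2
      have h3 : w ^ 2 * w = w ^ 3 := by ring
      linarith
    have hu0 : 0 < u := hu₁0.trans_le hu1
    have hu1' : 1 ≤ u := by linarith
    have hlu0 : 0 ≤ log u := log_nonneg hu1'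
    have hlogu₁ : log u₁ = v - log v - log (κ / (1 - c)) := by
      have h1 : u₁ = w / v / (κ / (1 - c)) := by
        rw [hu₁]
        field_simp
      rw [h1, log_div (by positivity) (by positivity), log_div hw0.ne' hv0.ne']
    rcases le_total u (2 * w / v) with huu | huu
    · -- Rankin
      have hlu : log u ≤ 2 * v := by
        calc log u ≤ log (w ^ 2) := log_le_log hu0 hu2
          _ = 2 * v := by
              rw [log_pow, ← hvdef]
              norm_num
      have h1 := hEu z hzE u (hu₁s.trans hu1) hu2 m₁ hm₁ hl₁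
      rw [← hwdef, ← hvdef] at h1
      have h2 := block_rankin hRk m₁ hm₁ A hAs d (log u / w) _ hd1 (by positivity) (by
        rw [div_le_iff₀ hw0]
        linarith) h1 i
      refine h2.trans ?_
      rw [mul_assoc, ← exp_add]
      apply mul_le_mul_of_nonneg_left _ (by norm_num)
      apply exp_le_exp.2
      rw [← huw]
      have h3 : (d - log u / w) * (u * w) + C * u / v = u * (κ * v - log u + C / v) := by
        rw [hd]
        field_simp
      rw [h3]
      have h4 : log u₁ ≤ log u := log_le_log hu₁0 hu1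
      rw [hlogu₁] at h4
      have h5 : κ * v - log u + C / v ≤ (κ - 1 + c) * v := by
        have h7 : (κ - 1 + c) * v = κ * v - v + c * v := by ring
        rw [h7]
        linarith
      have h6 : 0 ≤ (κ - 1 + c) * v := by
        apply mul_nonneg _ hv0.le
        linarith
      calc u * (κ * v - log u + C / v) ≤ u * ((κ - 1 + c) * v) :=
            mul_le_mul_of_nonneg_left h5 hu0.le
        _ ≤ (2 * w / v) * ((κ - 1 + c) * v) := mul_le_mul_of_nonneg_right huu h6
        _ = 2 * (κ - 1 + c) * w := by field_simp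
        _ = (1 - c) * w := by
            rw [hc]
            ring
    · -- the sieve
      have hzu : z ^ u = ((2 ^ i : ℕ) : ℝ) := by
        rw [rpow_def_of_pos hz0, ← hwdef, mul_comm, huw, ← log_rpow (by norm_num),
          exp_log (by positivity), rpow_natCast]
        push_cast
        rfl
      have h1 := hT z hzT u (by
        rw [← hwdef, ← hvdef]
        refine le_trans ?_ huu
        apply div_le_div_of_nonneg_right _ hv0.le
        linarith) hu2 m₁ m₂ hcop hm₁ hm₂ hl₁ hl₂
      set t := ((2 ^ i : ℕ) : ℝ) with ht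
      have ht0 : 0 < t := by
        rw [ht]
        positivity
      rw [hzu] at h1
      have h2 : ((A.filter (fun a => 2 ^ i < a ∧ a ≤ 2 ^ (i + 1))).card : ℝ) ≤
          t * exp (-((3 / 2 - (3 / 2 - κ')) * u * log u)) := by
        refine le_trans ?_ h1
        have : A.filter (fun a => 2 ^ i < a ∧ a ≤ 2 ^ (i + 1)) ⊆
            m₁.divisors.filter fun a : ℕ => t < (a : ℝ) ∧ (a : ℝ) ≤ 2 * t ∧ a + 1 ∣ m₂ := by
          intro a ha
          rw [mem_filter, hA, mem_filter] at ha
          rw [mem_filter]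
          refine ⟨ha.1.1, ?_, ?_, ha.1.2⟩
          · rw [ht]
            exact_mod_cast ha.2.1
          · have h3 := ha.2.2
            rw [pow_succ, mul_comm] at h3
            rw [ht]
            exact_mod_cast h3
        exact_mod_cast card_le_card this
      calc ∑ a ∈ A.filter (fun a => 2 ^ i < a ∧ a ≤ 2 ^ (i + 1)), (a : ℝ) ^ (d - 1)
          ≤ ∑ a ∈ A.filter (fun a => 2 ^ i < a ∧ a ≤ 2 ^ (i + 1)), t ^ (d - 1) := by
            apply sum_le_sum
            intro a ha
            rw [mem_filter] at ha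
            apply rpow_le_rpow_of_nonpos ht0 _ (by linarith)
            rw [ht]
            exact_mod_cast ha.2.1.le
        _ = ((A.filter (fun a => 2 ^ i < a ∧ a ≤ 2 ^ (i + 1))).card : ℝ) * t ^ (d - 1) := by
            rw [sum_const, nsmul_eq_mul]
        _ ≤ t * exp (-((3 / 2 - (3 / 2 - κ')) * u * log u)) * t ^ (d - 1) :=
            mul_le_mul_of_nonneg_right h2 (by positivity)
        _ = (t ^ (d - 1) * t) * exp (-(κ' * u * log u)) := by
            rw [sub_sub_cancel]
            ring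
        _ = t ^ d * exp (-(κ' * u * log u)) := by
            rw [← rpow_add_one ht0.ne']
            congr 2
            ring
        _ = exp (u * (κ * v - κ' * log u)) := by
            rw [← hzu, ← rpow_mul hz0.le, rpow_def_of_pos hz0, ← hwdef, ← exp_add]
            congr 1
            rw [hd]
            field_simp
            ring
        _ ≤ 1 := by
            apply exp_le_one_iff.2
            have h3 : v - log v ≤ log u := by
              have h4 : log (w / v) ≤ log u := by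
                apply log_le_log (by positivity)
                refine le_trans ?_ huu
                apply div_le_div_of_nonneg_right _ hv0.le
                linarith
              rwa [log_div hw0.ne' hv0.ne'] at h4
            have h4 : κ' * (v - log v) ≤ κ' * log u :=
              mul_le_mul_of_nonneg_left h3 (by linarith)
            apply mul_nonpos_of_nonneg_of_nonpos hu0.le
            linarith
        _ ≤ 2 * B := by linarith
  -- the total
  have hgoal : ∑ a ∈ A, (a : ℝ) ^ (d - 1) ≤ η * z / w := by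
    rw [split_dyadic A (fun a => (a : ℝ) ^ (d - 1)) i₀ i₁ hi₀₁]
    have h1 : ∑ i ∈ Ico i₀ i₁, ∑ a ∈ A.filter (fun a => 2 ^ i < a ∧ a ≤ 2 ^ (i + 1)),
        (a : ℝ) ^ (d - 1) ≤ (2 * w ^ 3 + 1) * (2 * B) := by
      calc _ ≤ ∑ i ∈ Ico i₀ i₁, 2 * B := sum_le_sum hblock
        _ = ((i₁ - i₀ : ℕ) : ℝ) * (2 * B) := by rw [sum_const, Nat.card_Ico, nsmul_eq_mul]
        _ ≤ (2 * w ^ 3 + 1) * (2 * B) := by
            apply mul_le_mul_of_nonneg_right _ (by positivity)
            have h2 : ((i₁ - i₀ : ℕ) : ℝ) ≤ i₁ := by exact_mod_cast Nat.sub_le i₁ i₀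
            linarith
    have h2 : 2 * B * (2 + w ^ 2) + (2 * w ^ 3 + 1) * (2 * B) + 1 ≤ 13 * w ^ 3 * B := by
      have h3 : 1 ≤ w ^ 3 := one_le_pow₀ hw1
      have h4 : w ^ 2 ≤ w ^ 3 := pow_le_pow_right₀ hw1 (by norm_num)
      have h5 : B ≤ w ^ 3 * B := le_mul_of_one_le_left (by positivity) h3
      have h6 : w ^ 2 * B ≤ w ^ 3 * B := mul_le_mul_of_nonneg_right h4 (by positivity)
      have h7 : 2 * B * (2 + w ^ 2) + (2 * w ^ 3 + 1) * (2 * B) + 1 =
          6 * B + 2 * (w ^ 2 * B) + 4 * (w ^ 3 * B) + 1 := by ring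
      have h8 : 13 * w ^ 3 * B = 13 * (w ^ 3 * B) := by ring
      rw [h7, h8]
      linarith
    have h3 : 13 * w ^ 3 * B ≤ η * z / w := by
      rw [le_div_iff₀ hw0]
      have h4 : z = B * exp (c * w) := by
        rw [hB, ← exp_add, ← hexpw]
        congr 1
        ring
      calc 13 * w ^ 3 * B * w = (13 * w ^ 4) * B := by ring
        _ ≤ (η * exp (c * w)) * B := mul_le_mul_of_nonneg_right hw4 (by positivity)
        _ = η * z := by
            rw [h4]
            ring
    linarith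
  exact hgoal

end Pool.Agent.Lib.MP_2d8e53_nt.W
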