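import Mathlib
import Pool.Agent.Lib.MP_2d8e53_nt.W.Stmts95

set_option autoImplicit false

namespace Pool.Agent.Lib.MP_2d8e53_nt.W

open Finset Real
open scoped Classical

/-- Everything that is needed for large `z`. -/
theorem fin_large_31 (κ' ε : ℝ) (hκ : 1 ≤ κ') (hε : 0 < ε) : ∃ Z : ℝ, ∀ z : ℝ, Z ≤ z →
    9 ≤ z ∧ 1 ≤ log z ∧ 1 ≤ log (log z) ∧ 16 * κ' * log (log z) ≤ ε * log z ∧
    16 * log (log z) ≤ log z ∧
    16 * log z ≤ ε * (z * log (log z) / log z) ∧ 4 * log z ≤ z * log (log z) / log z := by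
  have hl : Filter.Tendsto log Filter.atTop Filter.atTop := tendsto_log_atTop
  have hll : Filter.Tendsto (fun z => log (log z)) Filter.atTop Filter.atTop := hl.comp hl
  have e1 := Filter.eventually_ge_atTop (9 : ℝ)
  have e2 := hl.eventually_ge_atTop (1 : ℝ)
  have e3 := hll.eventually_ge_atTop (1 : ℝ)
  have hc : 0 < min (ε / (16 * κ')) (1 / 16) := by positivity
  have e4 := hl.eventually ((isLittleO_log_id_atTop).bound hc)
  have hd : 0 < min (ε / 16) (1 / 4) := by positivity
  have e5 := (isLittleO_pow_log_id_atTop (n := 2)).bound hd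
  obtain ⟨Z, hZ⟩ := Filter.eventually_atTop.1 (((((e1.and e2).and e3).and e4).and e5))
  refine ⟨Z, fun z hz => ?_⟩
  obtain ⟨⟨⟨⟨h1, h2⟩, h3⟩, h4⟩, h5⟩ := hZ z hz
  have h4' : log (log z) ≤ min (ε / (16 * κ')) (1 / 16) * log z := by
    have := h4
    rwa [id, Real.norm_of_nonneg (by linarith), Real.norm_of_nonneg (by linarith)] at this
  have h5' : log z ^ 2 ≤ min (ε / 16) (1 / 4) * z := by
    have := h5
    rwa [id, Real.norm_of_nonneg (by positivity), Real.norm_of_nonneg (by linarith)] at this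
  have h4a : log (log z) ≤ ε / (16 * κ') * log z :=
    h4'.trans (mul_le_mul_of_nonneg_right (min_le_left _ _) (by linarith))
  have h4b : log (log z) ≤ 1 / 16 * log z :=
    h4'.trans (mul_le_mul_of_nonneg_right (min_le_right _ _) (by linarith))
  have h5a : log z ^ 2 ≤ ε / 16 * z :=
    h5'.trans (mul_le_mul_of_nonneg_right (min_le_left _ _) (by linarith))
  have h5b : log z ^ 2 ≤ 1 / 4 * z :=
    h5'.trans (mul_le_mul_of_nonneg_right (min_le_right _ _) (by linarith))
  have hlam : z / log z ≤ z * log (log z) / log z := by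
    refine div_le_div_of_nonneg_right ?_ (by linarith)
    nlinarith
  refine ⟨h1, h2, h3, ?_, by linarith, ?_, ?_⟩
  · have : 16 * κ' * (ε / (16 * κ') * log z) = ε * log z := by
      field_simp
    calc 16 * κ' * log (log z) ≤ 16 * κ' * (ε / (16 * κ') * log z) :=
          mul_le_mul_of_nonneg_left h4a (by positivity)
      _ = _ := this
  · refine le_trans ?_ (mul_le_mul_of_nonneg_left hlam hε.le)
    rw [← mul_div_assoc, le_div_iff₀ (by linarith)]
    nlinarith
  · refine le_trans ?_ hlam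
    rw [le_div_iff₀ (by linarith)]
    nlinarith

/-- Sum of the reciprocals. -/
theorem harm_31 (M : ℕ) : ∑ m ∈ Icc 1 M, 1 / (m : ℝ) ≤ 1 + log M := by
  have := harmonic_le_one_add_log M
  rw [harmonic_eq_sum_Icc] at this
  push_cast at this
  simpa [one_div] using this

theorem stFin_31 (hC : StCnt) (hA : StAdm) (hE : StE) : StFin := by
  intro κ hκ
  set κ' : ℝ := (max κ 1 + 3 / 2) / 2 with hκ'
  have hm1 : (1 : ℝ) ≤ max κ 1 := le_max_right _ _
  have hm2 : κ ≤ max κ 1 := le_max_left _ _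
  have hm3 : max κ 1 < 3 / 2 := max_lt hκ (by norm_num)
  have hk1 : 1 ≤ κ' := by rw [hκ']; linarith
  have hk2 : κ' < 3 / 2 := by rw [hκ']; linarith
  have hk3 : κ < κ' := by rw [hκ']; linarith
  set ε : ℝ := κ' - κ with hε
  have hε0 : 0 < ε := by rw [hε]; linarith
  obtain ⟨z₀, hz₀⟩ := hE κ' hk1 hk2 (ε / 4) (by positivity)
  obtain ⟨Z, hZ⟩ := fin_large_31 κ' ε hk1 hε0
  refine ⟨exp (max z₀ Z), fun x hx => ?_⟩
  have hx0 : (0 : ℝ) < x := lt_of_lt_of_le (exp_pos _) hx
  set z : ℝ := log x with hz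
  have hxz : exp z = x := exp_log hx0
  have hzz : max z₀ Z ≤ z := (le_log_iff_exp_le hx0).2 hx
  have hzz0 : z₀ ≤ z := (le_max_left _ _).trans hzz
  obtain ⟨a1, a2, a3, a4, a5, a6, a7⟩ := hZ z ((le_max_right _ _).trans hzz)
  set w : ℝ := log z with hw
  set w2 : ℝ := log w with hw2
  have hx1 : 1 ≤ x := by
    have : (0 : ℕ) < x := by exact_mod_cast hx0
    exact this
  set lam : ℝ := z * w2 / w with hlam
  have hwp : 0 < w := by linarith
  have hlam1 : 4 ≤ lam := by linarith
  have hlamz : 16 * lam ≤ z := by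
    rw [hlam, ← mul_div_assoc, div_le_iff₀ hwp]
    have := mul_le_mul_of_nonneg_left a5 (show (0 : ℝ) ≤ z by linarith)
    linarith
  set y : ℝ := exp (2 * lam) with hy
  set D : ℝ := x * exp (-(4 * lam)) with hD
  set M : ℕ := ⌊exp (2 * lam)⌋₊ with hM
  have hy2 : 2 ≤ y := by
    have := add_one_le_exp (2 * lam)
    linarith
  have hDe : D = exp (z - 4 * lam) := by
    rw [hD, ← hxz, ← exp_add]
    ring_nf
  have hD1 : 1 ≤ D := by
    rw [hDe]
    exact one_le_exp (by linarith)
  have hM1 : 1 ≤ M := by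
    rw [hM]
    refine Nat.le_floor ?_
    push_cast
    linarith
  have hMle : (M : ℝ) ≤ y := Nat.floor_le (by positivity)
  have hMge : y / 2 ≤ M := by
    have := Nat.lt_floor_add_one (exp (2 * lam))
    rw [← hM, ← hy] at this
    linarith
  have hlogM : log M ≤ 2 * lam := by
    have : log (M : ℝ) ≤ log y := log_le_log (by exact_mod_cast hM1) hMle
    rwa [hy, log_exp] at this
  have hcnt := hC x M y D hx1 hM1 hy2 hD1
  set δ : ℝ := κ' * w2 / w with hδ
  have hδ0 : 0 ≤ δ := by positivity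
  have hδ1 : δ ≤ 1 := by
    rw [hδ, div_le_one hwp]
    have := mul_le_mul_of_nonneg_right hk2.le (show (0 : ℝ) ≤ w2 by linarith)
    linarith
  set B : ℝ := D ^ (-δ) * exp (ε / 4 * z / w) with hB
  have hB0 : 0 ≤ B := by positivity
  -- the inner sums
  have hinner : ∀ m ∈ ((Icc 1 M) ×ˢ (Icc 1 M)).filter (fun m => Nat.Coprime m.1 m.2),
      ∑ d ∈ (Icc 1 x).filter (fun d : ℕ => D < (d : ℝ) ∧ Adm m.1 m.2 d), 1 / (d : ℝ) ≤ B := by
    intro m hm
    rw [mem_filter, mem_product, mem_Icc, mem_Icc] at hm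
    obtain ⟨⟨⟨h1, h1'⟩, h2, h2'⟩, hcop⟩ := hm
    have l1 : log (m.1 : ℝ) ≤ z := by
      have : log (m.1 : ℝ) ≤ log M := log_le_log (by exact_mod_cast h1) (by exact_mod_cast h1')
      linarith
    have l2 : log (m.2 : ℝ) ≤ z := by
      have : log (m.2 : ℝ) ≤ log M := log_le_log (by exact_mod_cast h2) (by exact_mod_cast h2')
      linarith
    refine (hA x m.1 m.2 D δ h1 h2 hD1 hδ0 hδ1).trans ?_
    refine mul_le_mul_of_nonneg_left (exp_le_exp.2 ?_) (by positivity)
    exact hz₀ z hzz0 m.1 m.2 hcop h1 h2 l1 l2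
  have hsum : ∑ m ∈ ((Icc 1 M) ×ˢ (Icc 1 M)).filter (fun m => Nat.Coprime m.1 m.2),
        1 / ((m.1 : ℝ) * m.2) *
          ∑ d ∈ (Icc 1 x).filter (fun d : ℕ => D < (d : ℝ) ∧ Adm m.1 m.2 d), 1 / (d : ℝ) ≤
      (1 + 2 * lam) ^ 2 * B := by
    calc _ ≤ ∑ m ∈ ((Icc 1 M) ×ˢ (Icc 1 M)).filter (fun m => Nat.Coprime m.1 m.2),
        1 / ((m.1 : ℝ) * m.2) * B :=
          sum_le_sum fun m hm => mul_le_mul_of_nonneg_left (hinner m hm) (by positivity)
      _ ≤ ∑ m ∈ (Icc 1 M) ×ˢ (Icc 1 M), 1 / ((m.1 : ℝ) * m.2) * B :=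
          sum_le_sum_of_subset_of_nonneg (filter_subset _ _) fun _ _ _ => by positivity
      _ = (∑ m ∈ Icc 1 M, 1 / (m : ℝ)) ^ 2 * B := by
          rw [← sum_mul, sum_product, sq, sum_mul_sum]
          congr 1
          refine sum_congr rfl fun i _ => sum_congr rfl fun j _ => ?_
          rw [one_div_mul_one_div]
      _ ≤ (1 + 2 * lam) ^ 2 * B := by
          refine mul_le_mul_of_nonneg_right ?_ hB0
          refine pow_le_pow_left₀ (sum_nonneg fun _ _ => by positivity) ?_ 2
          exact (harm_31 M).trans (by linarith)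
  -- the size of B
  have hBe : B = exp (-δ * (z - 4 * lam) + ε / 4 * z / w) := by
    rw [hB, hDe, ← exp_mul, ← exp_add]
    ring_nf
  have hδz : δ * z = κ' * lam := by
    rw [hδ, hlam]
    ring
  have hδl : 4 * δ * lam ≤ ε / 4 * lam := by
    refine mul_le_mul_of_nonneg_right ?_ (by linarith)
    rw [hδ, ← mul_div_assoc, div_le_iff₀ hwp]
    linarith
  have hzw : ε / 4 * z / w ≤ ε / 4 * lam := by
    rw [hlam, ← mul_div_assoc]
    refine div_le_div_of_nonneg_right ?_ hwp.le
    have h0 : 0 ≤ ε / 4 * z := by positivity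
    have := le_mul_of_one_le_right h0 a3
    linarith
  have hlog : 1 + 2 * lam ≤ exp (ε / 8 * lam) := by
    have e1 : 1 + 2 * lam ≤ z := by linarith
    have e2 : w ≤ ε / 8 * lam := by
      have : 0 ≤ ε * lam := by positivity
      linarith
    calc 1 + 2 * lam ≤ z := e1
      _ = exp w := by rw [hw, exp_log (by linarith)]
      _ ≤ _ := exp_le_exp.2 e2
  have hmain : (1 + 2 * lam) ^ 2 * B ≤ exp (-(κ * lam)) := by
    rw [hBe]
    calc (1 + 2 * lam) ^ 2 * exp (-δ * (z - 4 * lam) + ε / 4 * z / w)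
        ≤ (exp (ε / 8 * lam)) ^ 2 * exp (-δ * (z - 4 * lam) + ε / 4 * z / w) := by
          refine mul_le_mul_of_nonneg_right ?_ (by positivity)
          exact pow_le_pow_left₀ (by linarith) hlog 2
      _ = exp (ε / 4 * lam + (-δ * (z - 4 * lam) + ε / 4 * z / w)) := by
          rw [← exp_nat_mul, ← exp_add]
          congr 1
          push_cast
          ring
      _ ≤ exp (-(κ * lam)) := by
          refine exp_le_exp.2 ?_
          have : κ * lam = κ' * lam - ε * lam := by rw [hε]; ring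
          have hel : 0 ≤ ε * lam := by positivity
          linarith
  -- the other terms
  have hother : 16 * (x : ℝ) / y + 2 * D * y + x / M * (1 + log x) ≤
      x * (1 / 2 * exp (-(κ * lam))) := by
    have t1 : 16 * (x : ℝ) / y = x * (16 * exp (-(2 * lam))) := by
      rw [hy, exp_neg]
      field_simp
    have t2 : 2 * D * y = x * (2 * exp (-(2 * lam))) := by
      rw [hD, hy]
      have : exp (-(4 * lam)) * exp (2 * lam) = exp (-(2 * lam)) := by
        rw [← exp_add]; ring_nf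
      linear_combination 2 * (x : ℝ) * this
    have t3 : x / M * (1 + log x) ≤ x * (2 * (1 + z) * exp (-(2 * lam))) := by
      have hMp : (0 : ℝ) < M := by exact_mod_cast hM1
      have : (x : ℝ) / M ≤ x * (2 * exp (-(2 * lam))) := by
        rw [div_le_iff₀ hMp, exp_neg, ← hy]
        have hyp : 0 < y := by linarith
        rw [mul_assoc]
        refine le_mul_of_one_le_right hx0.le ?_
        rw [mul_assoc, inv_mul_eq_div, ← mul_div_assoc, le_div_iff₀ hyp]
        linarith
      calc x / M * (1 + log x) ≤ x * (2 * exp (-(2 * lam))) * (1 + log x) :=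
            mul_le_mul_of_nonneg_right this (by rw [← hz]; linarith)
        _ = _ := by rw [← hz]; ring
    have t4 : 2 * (18 + 2 * (1 + z)) ≤ exp (2 * w) := by
      have : exp (2 * w) = z ^ 2 := by
        rw [two_mul, exp_add, hw, exp_log (by linarith), sq]
      rw [this]
      have h0 := mul_nonneg (show (0 : ℝ) ≤ z - 9 by linarith) (show (0 : ℝ) ≤ z + 5 by linarith)
      linarith
    have t5 : 2 * w ≤ (2 - κ) * lam := by
      have := mul_le_mul_of_nonneg_right (show (1 : ℝ) / 2 ≤ 2 - κ by linarith)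
        (show (0 : ℝ) ≤ lam by linarith)
      linarith
    have t6 : (18 + 2 * (1 + z)) * exp (-(2 * lam)) ≤ 1 / 2 * exp (-(κ * lam)) := by
      have e1 : exp (-(κ * lam)) = exp ((2 - κ) * lam) * exp (-(2 * lam)) := by
        rw [← exp_add]; ring_nf
      have e2 : exp (2 * w) ≤ exp ((2 - κ) * lam) := exp_le_exp.2 t5
      rw [e1, ← mul_assoc]
      refine mul_le_mul_of_nonneg_right ?_ (exp_pos _).le
      linarith
    calc _ ≤ x * (16 * exp (-(2 * lam))) + x * (2 * exp (-(2 * lam))) +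
          x * (2 * (1 + z) * exp (-(2 * lam))) := by rw [t1, t2]; linarith
      _ = x * ((18 + 2 * (1 + z)) * exp (-(2 * lam))) := by ring
      _ ≤ _ := mul_le_mul_of_nonneg_left t6 hx0.le
  have hgoal : κ * z * w2 / w = κ * lam := by
    rw [hlam]; ring
  calc (((Icc 1 x).filter Rig).card : ℝ) ≤ _ := hcnt
    _ ≤ x * (1 / 2 * exp (-(κ * lam))) + x / 2 * exp (-(κ * lam)) := by
        refine add_le_add hother ?_
        refine mul_le_mul_of_nonneg_left (hsum.trans hmain) (by positivity)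
    _ = x * exp (-(κ * z * w2 / w)) := by rw [hgoal]; ring

end Pool.Agent.Lib.MP_2d8e53_nt.W
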