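import Pool.Agent.Lib.MP_2d8e53_nt.W.Stmts95
import Pool.Agent.Lib.MLS.Prim53

set_option autoImplicit false

/-!
# Module MLP: the large sieve for the primitive characters
-/

namespace Pool.Agent.Lib.MP_2d8e53_nt.W

open Finset Real
open scoped Classical

/-- Module MLP. -/
theorem stMlp_53 : StMlp := by
  obtain ⟨C, hC, h⟩ := Pool.Agent.MLS.mls_filter
  refine ⟨C, hC, ?_⟩
  intro x M S hx hM hS
  have hS' : S ⊆ Ico (M + 1) (M + 1 + M) := by
    intro n hn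
    have := mem_Ioc.1 (hS hn)
    rw [mem_Ico]
    omega
  have h1 := h x (M + 1) M S (fun _ => 1) hM hS'
  simp only [norm_one, one_pow, sum_const, nsmul_eq_mul, mul_one, one_mul] at h1
  refine le_trans ?_ h1
  have e : ∑ q ∈ Icc 1 x, (q : ℝ) / q.totient *
      ∑ χ ∈ univ.filter (fun χ : DirichletCharacter ℂ q => χ.IsPrimitive), ‖∑ n ∈ S, χ n‖ ^ 2 =
      ∑ r ∈ range x, (((r + 1 : ℕ) : ℝ) / (r + 1).totient *
      ∑ χ ∈ univ.filter (fun χ : DirichletCharacter ℂ (r + 1) => χ.IsPrimitive),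
        ‖∑ n ∈ S, χ n‖ ^ 2) := by
    rw [Finset.range_eq_Ico, Finset.sum_Ico_add' (fun q : ℕ => (q : ℝ) / q.totient *
      ∑ χ ∈ univ.filter (fun χ : DirichletCharacter ℂ q => χ.IsPrimitive),
        ‖∑ n ∈ S, χ n‖ ^ 2) 0 x 1]
    rfl
  rw [e]
  refine sum_le_sum fun r _ => ?_
  have h2 : 0 ≤ V2 (r + 1) S := sum_nonneg fun _ _ => sq_nonneg _
  have h3 : (1 : ℝ) ≤ ((r + 1 : ℕ) : ℝ) / (r + 1).totient := by
    have h4 : (0 : ℝ) < ((r + 1).totient : ℝ) := by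
      exact_mod_cast Nat.totient_pos.2 (Nat.succ_pos r)
    rw [le_div_iff₀ h4, one_mul]
    exact_mod_cast Nat.totient_le (r + 1)
  have h5 : V2 (r + 1) S = ∑ χ ∈ univ.filter
      (fun χ : DirichletCharacter ℂ (r + 1) => χ.IsPrimitive), ‖∑ n ∈ S, χ n‖ ^ 2 := rfl
  rw [← h5]
  nlinarith

end Pool.Agent.Lib.MP_2d8e53_nt.W
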