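import Pool.Agent.Lib.MP_2d8e53_nt.W.T95d

/-!
# Module T: assembly
-/

set_option autoImplicit false

namespace Pool.Agent.Lib.MP_2d8e53_nt.W

open Finset Real
open scoped Classical

namespace T95

/-- The conditions on `z` for the final estimate. -/
lemma asym (C₁ C₂ ε : ℝ) (hε : 0 < ε) : ∃ z₀ : ℝ, ∀ z : ℝ, z₀ ≤ z →
    C₂ ≤ exp (log (log z)) ∧ 40 * log (log z) ≤ ε / 2 * log z ∧
      5 * C₁ ≤ ε / 2 * log (log z) ^ 2 ∧ C₁ ≤ log (log z) ∧ 1 ≤ log (log z) ∧ 1 ≤ log z := by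
  have h0 := tendsto_log_atTop
  have h1 : Filter.Tendsto (fun z : ℝ => log (log z)) Filter.atTop Filter.atTop := h0.comp h0
  have h2 : ∀ᶠ v : ℝ in Filter.atTop, C₂ ≤ exp v := tendsto_exp_atTop.eventually_ge_atTop C₂
  have h3 : ∀ᶠ w : ℝ in Filter.atTop, 40 * log w ≤ ε / 2 * w := by
    have := isLittleO_log_id_atTop.bound (show (0 : ℝ) < ε / 80 by positivity)
    filter_upwards [this, Filter.eventually_ge_atTop 1] with w hw hw1
    rw [id, norm_of_nonneg (log_nonneg hw1), norm_of_nonneg (by linarith)] at hw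
    linarith
  have h4 : ∀ᶠ v : ℝ in Filter.atTop, 5 * C₁ ≤ ε / 2 * v ^ 2 := by
    have : Filter.Tendsto (fun v : ℝ => ε / 2 * v ^ 2) Filter.atTop Filter.atTop :=
      (Filter.tendsto_pow_atTop (by norm_num)).const_mul_atTop (by positivity)
    exact this.eventually_ge_atTop _
  obtain ⟨z₀, hz⟩ := Filter.eventually_atTop.1 ((h1.eventually h2).and ((h0.eventually h3).and
    ((h1.eventually h4).and ((h1.eventually_ge_atTop C₁).and
      ((h1.eventually_ge_atTop 1).and (h0.eventually_ge_atTop 1))))))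
  exact ⟨z₀, fun z hz0 => hz z hz0⟩

/-- The final numerical inequality. -/
lemma final {z u w v L X δ C₁ C₂ ε : ℝ} (P : Par z u w v L X δ) (hC₁ : 0 < C₁)
    (hε : 0 < ε) (a1 : C₂ ≤ exp v) (a2 : 40 * v ≤ ε / 2 * w) (a3 : 5 * C₁ ≤ ε / 2 * v ^ 2)
    (a4 : C₁ ≤ v) :
    40 * exp (u * w) * exp (C₁ * u / v) * exp (-(u * w / 8)) +
      C₂ * exp (C₁ * u / v) ^ 4 * exp (u * w - 3 / 2 * X + 9 * δ * X + 17 * v) ≤
    exp (u * w) * exp (-((3 / 2 - ε) * X)) := by
  have hw := P.w1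
  have hv := P.v1
  have hX1 := P.X1
  have hX3 := P.X3
  have hw3 := P.w3
  have hδ0 := P.δ0
  have hL1 := P.L1
  have hu := P.u1
  have hX0 : 0 < X := by linarith
  have hu0 : 0 < u := by linarith
  have hv0 : 0 < v := by linarith
  have hw0 : 0 < w := by linarith
  -- `C₁ u / v ≤ u`
  have b1 : C₁ * u / v ≤ u := by
    rw [div_le_iff₀ hv0]
    nlinarith
  have huw : 10000000 * u ≤ u * w := by nlinarith
  have b2 : 40 * exp (u * w) * exp (C₁ * u / v) * exp (-(u * w / 8)) ≤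
      exp (u * w) * exp (-(3 / 2 * X)) := by
    have e1 : (40 : ℝ) ≤ exp 40 := by
      have := add_one_le_exp (40 : ℝ)
      linarith
    calc 40 * exp (u * w) * exp (C₁ * u / v) * exp (-(u * w / 8))
        ≤ exp 40 * exp (u * w) * exp u * exp (-(u * w / 8)) := by gcongr
      _ = exp (u * w) * exp (40 + u - u * w / 8) := by
          rw [show exp 40 * exp (u * w) * exp u * exp (-(u * w / 8)) =
            exp (u * w) * (exp 40 * exp u * exp (-(u * w / 8))) by ring, ← exp_add, ← exp_add]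
          congr 2
      _ ≤ _ := by
          gcongr
          linarith
  have b3 : C₂ * exp (C₁ * u / v) ^ 4 * exp (u * w - 3 / 2 * X + 9 * δ * X + 17 * v) ≤
      exp (u * w) * exp (-(3 / 2 * X)) * exp (ε * X - 1) := by
    have e1 : exp (C₁ * u / v) ^ 4 = exp (4 * (C₁ * u / v)) := by
      rw [← exp_nat_mul]
      norm_num
    rw [e1]
    calc C₂ * exp (4 * (C₁ * u / v)) * exp (u * w - 3 / 2 * X + 9 * δ * X + 17 * v)
        ≤ exp v * exp (4 * (C₁ * u / v)) * exp (u * w - 3 / 2 * X + 9 * δ * X + 17 * v) := by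
          gcongr
      _ = exp (u * w) * exp (-(3 / 2 * X)) *
          exp (4 * (C₁ * u / v) + 9 * δ * X + 18 * v) := by
          rw [← exp_add, ← exp_add, ← exp_add, ← exp_add]
          congr 1
          ring
      _ ≤ _ := by
          gcongr
          -- `4 C₁ u / v ≤ (5 C₁ / v ^ 2) X`
          have c1 : 4 * (C₁ * u / v) ≤ ε / 2 * X := by
            have d1 : u * (9 / 10 * v) ≤ X := by
              rw [P.hX]
              exact mul_le_mul_of_nonneg_left hL1 hu0.le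
            have d2 : 4 * (C₁ * u / v) = 4 * C₁ * (u * v) / v ^ 2 := by
              field_simp
            rw [d2, div_le_iff₀ (by positivity)]
            have d3 : 4 * C₁ * (u * v) ≤ 5 * C₁ * X := by nlinarith
            nlinarith
          have c2 : 9 * δ * X ≤ 18 * (v / w) * X := by
            have := P.δ1
            have : 9 * δ ≤ 18 * (v / w) := by
              have e : 2 * v / w = 2 * (v / w) := by ring
              rw [e] at this
              linarith
            exact mul_le_mul_of_nonneg_right this hX0.le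
          have c3 : 19 * v ≤ 22 * (v / w) * X := by
            have e : 22 * (v / w) * X = v * (22 * X / w) := by ring
            rw [e]
            have e2 : 19 ≤ 22 * X / w := by
              rw [le_div_iff₀ hw0]
              linarith
            nlinarith
          have c4 : 40 * (v / w) * X ≤ ε / 2 * X := by
            have e : 40 * (v / w) ≤ ε / 2 := by
              rw [← mul_div_assoc, div_le_iff₀ hw0]
              exact a2
            exact mul_le_mul_of_nonneg_right e hX0.le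
          linarith
  have b4 : 1 + exp (ε * X - 1) ≤ exp (ε * X) := by
    have e1 : exp (ε * X) = exp (ε * X - 1) * exp 1 := by
      rw [← exp_add]
      ring_nf
    have e2 : (2 : ℝ) ≤ exp 1 := by
      have := add_one_le_exp (1 : ℝ)
      linarith
    have e3 : 1 ≤ exp (ε * X - 1) := by
      apply one_le_exp
      have : 40 * v * 1 ≤ ε / 2 * w := by linarith
      have : ε * w ≤ ε * (10 / 9 * X) := by
        apply mul_le_mul_of_nonneg_left _ hε.le
        linarith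
      nlinarith
    rw [e1]
    nlinarith
  have b5 : exp (u * w) * exp (-((3 / 2 - ε) * X)) =
      exp (u * w) * exp (-(3 / 2 * X)) * exp (ε * X) := by
    rw [mul_assoc, ← exp_add (-(3 / 2 * X)) (ε * X)]
    congr 2
    ring
  rw [b5]
  have b6 : 0 < exp (u * w) * exp (-(3 / 2 * X)) := by positivity
  nlinarith

end T95

open T95

/-- Module T. -/
theorem stT_95 (hEu : StEu) (hBig : StBig) (hDiv : StDiv) (hBox : StBox) (hRk : StRk) : StT := by
  obtain ⟨C₁, z₁, hC₁, hEu⟩ := hEu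
  obtain ⟨z₂, hBig⟩ := hBig
  obtain ⟨C₂, hC₂, hBox⟩ := hBox
  obtain ⟨z₃, hpar⟩ := exists_par
  intro ε hε
  obtain ⟨z₄, hasym⟩ := asym C₁ C₂ ε hε
  refine ⟨max (max z₁ z₂) (max z₃ z₄), ?_⟩
  intro z hz u hu1 hu2 m₁ m₂ hco h1 h2 hl1 hl2
  have hz1 : z₁ ≤ z := (le_max_left _ _).trans ((le_max_left _ _).trans hz)
  have hz2 : z₂ ≤ z := (le_max_right _ _).trans ((le_max_left _ _).trans hz)
  have hz3 : z₃ ≤ z := (le_max_left _ _).trans ((le_max_right _ _).trans hz)
  have hz4 : z₄ ≤ z := (le_max_right _ _).trans ((le_max_right _ _).trans hz)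
  have P := hpar z hz3 u hu1 hu2
  obtain ⟨a1, a2, a3, a4, -, -⟩ := hasym z hz4
  set w := log z with hw'
  set v := log w with hv'
  set L := log u with hL'
  set X := u * L with hX'
  set δ := L / w with hδ'
  have hw := P.w1
  have hv := P.v1
  have hX1 := P.X1
  have hX3 := P.X3
  have hw3 := P.w3
  have hδ0 := P.δ0
  have hδ2 := P.δ2
  have hu := P.u1
  have hsq : √w ≤ u := by
    refine le_trans ?_ P.ulow
    rw [le_div_iff₀ (by linarith)]
    have e1 : v ≤ √w := by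
      apply le_sqrt_of_sq_le
      nlinarith [P.wv]
    calc √w * v ≤ √w * √w := mul_le_mul_of_nonneg_left e1 (sqrt_nonneg _)
      _ = w := mul_self_sqrt (by linarith)
  set K := exp (C₁ * u / v) with hK
  have hK1 : EP δ m₁ ≤ K := hEu z hz1 u hsq hu2 m₁ h1 hl1
  have hK2 : EP δ m₂ ≤ K := hEu z hz1 u hsq hu2 m₂ h2 hl2
  have hzu : z ^ u = exp (u * w) := P.zpow u
  rw [hzu]
  set t := exp (u * w) with ht
  have ht1 : 1 ≤ t := one_le_exp (by linarith)
  set Y := exp (u * w / 2) with hY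
  have hY1 : 1 ≤ Y := one_le_exp (by linarith)
  set S := m₁.divisors.filter fun a : ℕ => t < (a : ℝ) ∧ (a : ℝ) ≤ 2 * t ∧ a + 1 ∣ m₂ with hS
  set B₁ := m₁.divisors.filter fun a : ℕ => (a : ℝ) ≤ 2 * t ∧
      ∃ b : ℕ, b ∣ a ∧ Y < (b : ℝ) ∧ Rough (z ^ 2) b with hB₁
  set B₂ := m₂.divisors.filter fun a : ℕ => (a : ℝ) ≤ 3 * t ∧
      ∃ b : ℕ, b ∣ a ∧ Y < (b : ℝ) ∧ Rough (z ^ 2) b with hB₂
  set S₁ := S.filter fun a : ℕ => ∃ b : ℕ, b ∣ a ∧ Y < (b : ℝ) ∧ Rough (z ^ 2) b with hS₁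
  set S₂ := S.filter fun a : ℕ => ∃ b : ℕ, b ∣ a + 1 ∧ Y < (b : ℝ) ∧ Rough (z ^ 2) b with hS₂
  set S₃ := S.filter fun a : ℕ => (∀ b : ℕ, b ∣ a → Rough (z ^ 2) b → (b : ℝ) ≤ Y) ∧
    (∀ b : ℕ, b ∣ a + 1 → Rough (z ^ 2) b → (b : ℝ) ≤ Y) with hS₃
  have hcover : S ⊆ (S₁ ∪ S₂) ∪ S₃ := by
    intro a ha
    by_cases c1 : ∃ b : ℕ, b ∣ a ∧ Y < (b : ℝ) ∧ Rough (z ^ 2) b
    · exact mem_union_left _ (mem_union_left _ (mem_filter.2 ⟨ha, c1⟩))
    · by_cases c2 : ∃ b : ℕ, b ∣ a + 1 ∧ Y < (b : ℝ) ∧ Rough (z ^ 2) b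
      · exact mem_union_left _ (mem_union_right _ (mem_filter.2 ⟨ha, c2⟩))
      · refine mem_union_right _ (mem_filter.2 ⟨ha, ?_, ?_⟩)
        · intro b hb hr
          by_contra hc
          push Not at hc
          exact c1 ⟨b, hb, hc, hr⟩
        · intro b hb hr
          by_contra hc
          push Not at hc
          exact c2 ⟨b, hb, hc, hr⟩
  have hmem : ∀ a ∈ S, a ∣ m₁ ∧ a + 1 ∣ m₂ ∧ t < (a : ℝ) ∧ (a : ℝ) ≤ 2 * t := by
    intro a ha
    rw [hS, mem_filter, Nat.mem_divisors] at ha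
    exact ⟨ha.1.1, ha.2.2.2, ha.2.1, ha.2.2.1⟩
  have hS1 : S₁.card ≤ B₁.card := by
    apply card_le_card
    intro a ha
    rw [hS₁, mem_filter] at ha
    obtain ⟨q1, q2, q3, q4⟩ := hmem a ha.1
    rw [hB₁, mem_filter, Nat.mem_divisors]
    exact ⟨⟨q1, by omega⟩, q4, ha.2⟩
  have hS2 : S₂.card ≤ B₂.card := by
    apply card_le_card_of_injOn (fun a => a + 1)
    · intro a ha
      rw [mem_coe, hS₂, mem_filter] at ha
      obtain ⟨q1, q2, q3, q4⟩ := hmem a ha.1
      rw [mem_coe, hB₂, mem_filter, Nat.mem_divisors]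
      refine ⟨⟨q2, by omega⟩, ?_, ha.2⟩
      push_cast
      linarith
    · intro a _ b _ hab
      exact Nat.succ_injective hab
  have hpow : ∀ c : ℝ, 1 ≤ c → (c * t) ^ (1 - δ) ≤ c * t := by
    intro c hc
    have e1 : 1 ≤ c * t := by nlinarith
    calc (c * t) ^ (1 - δ) ≤ (c * t) ^ (1 : ℝ) := rpow_le_rpow_of_exponent_le e1 (by linarith)
      _ = c * t := rpow_one _
  have hYp : Y ^ (-(1 / 4 : ℝ)) = exp (-(u * w / 8)) := by
    rw [hY, ← exp_mul]
    congr 1
    ring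
  have hEPpos : ∀ m : ℕ, 1 ≤ m → 0 ≤ EP δ m := fun m hm => by
    have := (hRk δ m hδ0.le (by linarith) hm).1
    linarith
  have hbig : ∀ (m : ℕ) (c : ℝ), 1 ≤ m → log m ≤ z → EP δ m ≤ K → 1 ≤ c →
      8 * (c * t) ^ (1 - δ) * EP δ m * Y ^ (-(1 / 4 : ℝ)) ≤
        8 * c * t * K * exp (-(u * w / 8)) := by
    intro m c hm hml hmK hc
    rw [hYp]
    have e1 := hpow c hc
    have e2 := hEPpos m hm
    have e3 : 0 < c * t := by nlinarith
    calc 8 * (c * t) ^ (1 - δ) * EP δ m * exp (-(u * w / 8))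
        ≤ 8 * (c * t) * K * exp (-(u * w / 8)) := by gcongr
      _ = _ := by ring
  have hc1 : (B₁.card : ℝ) ≤ 8 * 2 * t * K * exp (-(u * w / 8)) :=
    (hBig z hz2 δ m₁ hδ0.le (by linarith) h1 hl1 (2 * t) Y (by linarith) hY1).trans
      (hbig m₁ 2 h1 hl1 hK1 (by norm_num))
  have hc2 : (B₂.card : ℝ) ≤ 8 * 3 * t * K * exp (-(u * w / 8)) :=
    (hBig z hz2 δ m₂ hδ0.le (by linarith) h2 hl2 (3 * t) Y (by linarith) hY1).trans
      (hbig m₂ 3 h2 hl2 hK2 (by norm_num))
  have hc3 := good hDiv hC₂ hBox P m₁ m₂ hco h1 h2 K hK1 hK2 S₃ (by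
    intro a ha
    rw [hS₃, mem_filter] at ha
    obtain ⟨q1, q2, q3, q4⟩ := hmem a ha.1
    exact ⟨q1, q2, q3, q4, ha.2.1, ha.2.2⟩)
  have hcard : (S.card : ℝ) ≤ B₁.card + B₂.card + S₃.card := by
    have e1 : S.card ≤ S₁.card + S₂.card + S₃.card :=
      (card_le_card hcover).trans ((card_union_le _ _).trans
        (Nat.add_le_add_right (card_union_le _ _) _))
    have e2 : S.card ≤ B₁.card + B₂.card + S₃.card := by omega
    exact_mod_cast e2
  have hfin := final P hC₁ hε a1 a2 a3 a4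
  have hgoal : exp (-((3 / 2 - ε) * u * L)) = exp (-((3 / 2 - ε) * X)) := by
    rw [hX', mul_assoc]
  rw [hgoal]
  linarith

end Pool.Agent.Lib.MP_2d8e53_nt.W
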