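import Pool.Agent.Lib.MP_2d8e53_nt.W.Rk61
import Pool.Agent.Lib.MP_2d8e53_nt.W.Eu12
import Pool.Agent.Lib.MP_2d8e53_nt.W.Big61
import Pool.Agent.Lib.MP_2d8e53_nt.W.Div12
import Pool.Agent.Lib.MP_2d8e53_nt.W.Mlp53
import Pool.Agent.Lib.MP_2d8e53_nt.W.Ch31
import Pool.Agent.Lib.MP_2d8e53_nt.W.Box61
import Pool.Agent.Lib.MP_2d8e53_nt.W.T95
import Pool.Agent.Lib.MP_2d8e53_nt.W.E61
import Pool.Agent.Lib.MP_2d8e53_nt.W.Cnt12
import Pool.Agent.Lib.MP_2d8e53_nt.W.Adm31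
import Pool.Agent.Lib.MP_2d8e53_nt.W.Fin31

set_option autoImplicit false

/-!
# The assembly
-/

namespace Pool.Agent.Lib.MP_2d8e53_nt.W

/-- The theorem. -/
theorem stFin_95 : StFin := by
  have hRk : StRk := stRk_61
  have hEu : StEu := stEu_12
  have hT : StT := stT_95 hEu (stBig_61 hRk) stDiv_12 (stBox_61 hRk stMlp_53 stCh_31) hRk
  exact stFin_31 stCnt_12 stAdm_31 (stE_61 hRk hEu hT)

end Pool.Agent.Lib.MP_2d8e53_nt.W
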