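import Pool.Agent.Lib.MP_2d8e53_nt.W.Stmts95

/-!
# Module T, first part: the combinatorial decomposition
-/

set_option autoImplicit false

namespace Pool.Agent.Lib.MP_2d8e53_nt.W

open Finset Real
open scoped Classical

namespace T95

/-- A number larger than `x₀` is in a dyadic interval `(2 ^ i x₀, 2 ^ (i + 1) x₀]`. -/
lemma dyad {x x₀ : ℕ} (h0 : 1 ≤ x₀) (h : x₀ < x) :
    ∃ i, 2 ^ i * x₀ < x ∧ x ≤ 2 * (2 ^ i * x₀) := by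
  set k := (x - 1) / x₀ with hk
  have hk1 : 1 ≤ k := (Nat.le_div_iff_mul_le h0).2 (by omega)
  refine ⟨Nat.log 2 k, ?_, ?_⟩
  · have h1 : 2 ^ Nat.log 2 k ≤ k := Nat.pow_log_le_self 2 (by omega)
    have h2 : k * x₀ ≤ x - 1 := Nat.div_mul_le_self _ _
    have h3 : 2 ^ Nat.log 2 k * x₀ ≤ k * x₀ := Nat.mul_le_mul_right _ h1
    omega
  · have h1 : k < 2 ^ (Nat.log 2 k + 1) := Nat.lt_pow_succ_log_self (by norm_num) k
    have h2 : x - 1 < (k + 1) * x₀ := by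
      have := Nat.lt_mul_div_succ (x - 1) (show 0 < x₀ by omega)
      rw [mul_comm, hk]
      exact this
    have h3 : (k + 1) * x₀ ≤ 2 ^ (Nat.log 2 k + 1) * x₀ := Nat.mul_le_mul_right _ h1
    rw [pow_succ] at h3
    have h4 : 2 ^ Nat.log 2 k * 2 * x₀ = 2 * (2 ^ Nat.log 2 k * x₀) := by ring
    omega

/-- The number of triples. -/
noncomputable def NB (m₁ H E G f : ℕ) : ℕ :=
  (((Dv m₁ H ×ˢ Dv m₁ E) ×ˢ Dv m₁ G).filter fun x => f ∣ x.1.1 * x.1.2 * x.2 + 1).card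

lemma mem_Dv {m M d : ℕ} : d ∈ Dv m M ↔ d ∈ m.divisors ∧ M < d ∧ d ≤ 2 * M := by
  unfold Dv
  rw [mem_filter]

/-- The decomposition: every element of `S` is `h e g` with `h`, `e`, `g` in the given ranges. -/
lemma decomp {m₁ m₂ : ℕ} (hm₁ : 1 ≤ m₁) (S : Finset ℕ) (hS : ∀ a ∈ S, a ∣ m₁ ∧ a + 1 ∣ m₂)
    (hm₂ : 1 ≤ m₂) (F : ℝ) (Q h₀ e₀ I : ℕ) (g₀ : ℕ → ℕ → ℕ) (hh : 1 ≤ h₀) (he : 1 ≤ e₀)
    (hg : ∀ i < I, ∀ j < I, 1 ≤ g₀ i j)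
    (h : ∀ a ∈ S, ∃ h e g f : ℕ, a = h * e * g ∧ h₀ < h ∧ h ≤ 2 ^ I * h₀ ∧ e₀ < e ∧
      e ≤ 2 ^ I * e₀ ∧ f ∣ a + 1 ∧ F < (f : ℝ) ∧ f ≤ Q ∧ ∀ i < I, ∀ j < I,
        2 ^ i * h₀ < h → h ≤ 2 * (2 ^ i * h₀) → 2 ^ j * e₀ < e → e ≤ 2 * (2 ^ j * e₀) →
          g₀ i j < g ∧ g ≤ 16 * g₀ i j) :
    (S.card : ℝ) ≤ ∑ i ∈ range I, ∑ j ∈ range I, ∑ l ∈ range 4,
      ∑ f ∈ m₂.divisors.filter (fun f : ℕ => F < (f : ℝ) ∧ f ≤ Q),
        (NB m₁ (2 ^ i * h₀) (2 ^ j * e₀) (2 ^ l * g₀ i j) f : ℝ) := by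
  set U : Finset ℕ := (range I).biUnion fun i => (range I).biUnion fun j =>
    (range 4).biUnion fun l =>
      (m₂.divisors.filter (fun f : ℕ => F < (f : ℝ) ∧ f ≤ Q)).biUnion fun f =>
        ((((Dv m₁ (2 ^ i * h₀) ×ˢ Dv m₁ (2 ^ j * e₀)) ×ˢ Dv m₁ (2 ^ l * g₀ i j)).filter
          fun x => f ∣ x.1.1 * x.1.2 * x.2 + 1).image fun x => x.1.1 * x.1.2 * x.2) with hU
  have hsub : S ⊆ U := by
    intro a ha
    obtain ⟨h', e, g, f, rfl, h1, h2, h3, h4, h5, h6, h7, h8⟩ := h a ha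
    obtain ⟨ha1, ha2⟩ := hS _ ha
    obtain ⟨i, hi1, hi2⟩ := dyad hh h1
    obtain ⟨j, hj1, hj2⟩ := dyad he h3
    have hiI : i < I := by
      by_contra hc
      have : 2 ^ I * h₀ ≤ 2 ^ i * h₀ :=
        Nat.mul_le_mul_right _ (Nat.pow_le_pow_right (by norm_num) (by omega))
      omega
    have hjI : j < I := by
      by_contra hc
      have : 2 ^ I * e₀ ≤ 2 ^ j * e₀ :=
        Nat.mul_le_mul_right _ (Nat.pow_le_pow_right (by norm_num) (by omega))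
      omega
    obtain ⟨h9, h10⟩ := h8 i hiI j hjI hi1 hi2 hj1 hj2
    obtain ⟨l, hl1, hl2⟩ := dyad (hg i hiI j hjI) h9
    have hl : l < 4 := by
      by_contra hc
      have h11 : 2 ^ 4 * g₀ i j ≤ 2 ^ l * g₀ i j :=
        Nat.mul_le_mul_right _ (Nat.pow_le_pow_right (by norm_num) (by omega))
      norm_num at h11
      omega
    have hm1' : m₁ ≠ 0 := by omega
    have hh' : h' ∣ m₁ := (Dvd.intro (e * g) (by ring)).trans ha1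
    have he' : e ∣ m₁ := (Dvd.intro (h' * g) (by ring)).trans ha1
    have hg' : g ∣ m₁ := (Dvd.intro (h' * e) (by ring)).trans ha1
    have hf : f ∣ m₂ := h5.trans ha2
    rw [hU]
    simp only [mem_biUnion, mem_range, mem_image, mem_filter, mem_product]
    refine ⟨i, hiI, j, hjI, l, hl, f, ⟨Nat.mem_divisors.2 ⟨hf, by omega⟩, h6, h7⟩,
      ((h', e), g), ⟨⟨⟨?_, ?_⟩, ?_⟩, h5⟩, rfl⟩
    · exact mem_Dv.2 ⟨Nat.mem_divisors.2 ⟨hh', hm1'⟩, hi1, hi2⟩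
    · exact mem_Dv.2 ⟨Nat.mem_divisors.2 ⟨he', hm1'⟩, hj1, hj2⟩
    · exact mem_Dv.2 ⟨Nat.mem_divisors.2 ⟨hg', hm1'⟩, hl1, hl2⟩
  have h1 : S.card ≤ ∑ i ∈ range I, ∑ j ∈ range I, ∑ l ∈ range 4,
      ∑ f ∈ m₂.divisors.filter (fun f : ℕ => F < (f : ℝ) ∧ f ≤ Q),
        NB m₁ (2 ^ i * h₀) (2 ^ j * e₀) (2 ^ l * g₀ i j) f := by
    refine (card_le_card hsub).trans ?_
    rw [hU]
    refine card_biUnion_le.trans (sum_le_sum fun i _ => ?_)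
    refine card_biUnion_le.trans (sum_le_sum fun j _ => ?_)
    refine card_biUnion_le.trans (sum_le_sum fun l _ => ?_)
    refine card_biUnion_le.trans (sum_le_sum fun f _ => ?_)
    exact card_image_le
  exact_mod_cast h1

end T95

end Pool.Agent.Lib.MP_2d8e53_nt.W
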