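import Pool.Agent.Lib.MP_2d8e53_nt.W.T95a

/-!
# Module T, second part: the choice of the parameters
-/

set_option autoImplicit false

namespace Pool.Agent.Lib.MP_2d8e53_nt.W

open Finset Real
open scoped Classical

namespace T95

lemma floor_half {x : ℝ} (hx : 1 ≤ x) : x / 2 ≤ (⌊x⌋₊ : ℝ) ∧ (1 ≤ ⌊x⌋₊) ∧ (⌊x⌋₊ : ℝ) ≤ x := by
  have h1 : 1 ≤ ⌊x⌋₊ := Nat.one_le_floor_iff x |>.2 hx
  have h2 : x < ⌊x⌋₊ + 1 := Nat.lt_floor_add_one x
  have h3 : (1 : ℝ) ≤ ⌊x⌋₊ := by exact_mod_cast h1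
  exact ⟨by linarith, h1, Nat.floor_le (by linarith)⟩

/-- The parameters: `w = log z`, `v = log w`, `L = log u`, `X = u log u`, `δ = log u / w`. -/
structure Par (z u w v L X δ : ℝ) : Prop where
  hw : log z = w
  hv : log w = v
  hL : log u = L
  hX : X = u * L
  hδ : δ = L / w
  z1 : 1 < z
  v1 : 100 ≤ v
  wv : 1000 * v ^ 2 ≤ w
  lv : log v ≤ v / 10
  ulow : w / v ≤ u
  uup : u ≤ w ^ 2

variable {z u w v L X δ : ℝ}

namespace Par

lemma w1 (P : Par z u w v L X δ) : 10000000 ≤ w := by nlinarith [P.wv, P.v1]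

lemma u1 (P : Par z u w v L X δ) : 1000 * v ≤ u := by
  refine le_trans ?_ P.ulow
  rw [le_div_iff₀ (by linarith [P.v1])]
  nlinarith [P.wv]

lemma L2 (P : Par z u w v L X δ) : L ≤ 2 * v := by
  rw [← P.hv, ← P.hL]
  calc log u ≤ log (w ^ 2) := log_le_log (by linarith [P.u1, P.v1]) P.uup
    _ = 2 * log w := by rw [log_pow]; norm_num

lemma L1 (P : Par z u w v L X δ) : 9 / 10 * v ≤ L := by
  have h0 := P.w1
  have h2 : log w - log v ≤ log u := by
    rw [← log_div (by linarith) (by linarith [P.v1])]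
    exact log_le_log (div_pos (by linarith) (by linarith [P.v1])) P.ulow
  rw [P.hv, P.hL] at h2
  linarith [P.lv]

lemma X1 (P : Par z u w v L X δ) : 9 / 10 * w ≤ X := by
  have h1 := P.L1
  have h2 := P.ulow
  have hv := P.v1
  have hw := P.w1
  rw [P.hX]
  calc 9 / 10 * w = w / v * (9 / 10 * v) := by field_simp
    _ ≤ u * L := by
        apply mul_le_mul h2 h1 (by linarith)
        linarith [P.u1]

lemma X2 (P : Par z u w v L X δ) : X ≤ 2 * u * v := by
  rw [P.hX]
  have := P.L2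
  have := P.u1
  nlinarith [P.v1]

/-- `X` is small against `u w`. -/
lemma X3 (P : Par z u w v L X δ) : 1000 * X ≤ u * w := by
  have h1 := P.X2
  have h2 := P.wv
  have h3 := P.v1
  have h4 := P.u1
  have h5 : 2000 * v ≤ w := by nlinarith
  nlinarith

lemma w3 (P : Par z u w v L X δ) : 1000 * w ≤ u * w := by
  have h4 := P.u1
  have h5 := P.w1
  have h6 := P.v1
  nlinarith

lemma δ0 (P : Par z u w v L X δ) : 0 < δ := by
  rw [P.hδ]
  exact div_pos (by linarith [P.L1, P.v1]) (by linarith [P.w1])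

lemma δ1 (P : Par z u w v L X δ) : δ ≤ 2 * v / w := by
  rw [P.hδ]
  have := P.w1
  gcongr
  exact P.L2

lemma δ2 (P : Par z u w v L X δ) : δ ≤ 1 / 500 := by
  refine P.δ1.trans ?_
  have h1 := P.w1
  rw [div_le_iff₀ (by linarith)]
  nlinarith [P.wv, P.v1]

lemma δw (P : Par z u w v L X δ) : δ * w = L := by
  rw [P.hδ]
  have := P.w1
  field_simp

lemma δX (P : Par z u w v L X δ) : δ * (u * w) = X := by
  rw [P.hX, ← P.δw]
  ring

lemma z0 (P : Par z u w v L X δ) : 0 < z := by linarith [P.z1]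

/-- powers of `z` -/
lemma zpow (P : Par z u w v L X δ) (s : ℝ) : z ^ s = exp (s * w) := by
  rw [rpow_def_of_pos P.z0, P.hw, mul_comm]

end Par

/-- The parameters exist for large `z`. -/
lemma exists_par : ∃ z₀ : ℝ, ∀ z : ℝ, z₀ ≤ z → ∀ u : ℝ, log z / log (log z) ≤ u →
    u ≤ log z ^ 2 →
    Par z u (log z) (log (log z)) (log u) (u * log u) (log u / log z) := by
  have h1 : Filter.Tendsto (fun z : ℝ => log (log z)) Filter.atTop Filter.atTop :=
    tendsto_log_atTop.comp tendsto_log_atTop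
  have h2 : ∀ᶠ z : ℝ in Filter.atTop, 100 ≤ log (log z) := h1.eventually_ge_atTop 100
  have h3 : ∀ᶠ v : ℝ in Filter.atTop, log v ≤ v / 10 := by
    have := isLittleO_log_id_atTop.bound (show (0 : ℝ) < 1 / 10 by norm_num)
    filter_upwards [this, Filter.eventually_ge_atTop 1] with v hv hv1
    rw [id, norm_of_nonneg (log_nonneg hv1), norm_of_nonneg (by linarith)] at hv
    linarith
  have h4 : ∀ᶠ v : ℝ in Filter.atTop, 1000 * v ^ 2 ≤ exp v := by
    have := (isLittleO_pow_exp_atTop (n := 2)).bound (show (0 : ℝ) < 1 / 1000 by norm_num)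
    filter_upwards [this] with v hv
    rw [norm_of_nonneg (by positivity), norm_of_nonneg (exp_pos _).le] at hv
    linarith
  have h5 := h1.eventually h3
  have h6 := h1.eventually h4
  obtain ⟨z₀, hz⟩ := Filter.eventually_atTop.1
    (h2.and (h5.and (h6.and ((tendsto_log_atTop.eventually_gt_atTop 1).and
      (Filter.eventually_gt_atTop 1)))))
  refine ⟨z₀, fun z hz0 u hu1 hu2 => ?_⟩
  obtain ⟨a1, a2, a3, a4, a5⟩ := hz z hz0
  refine ⟨rfl, rfl, rfl, rfl, rfl, a5, a1, ?_, a2, hu1, hu2⟩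
  rwa [exp_log (by linarith)] at a3

end T95

end Pool.Agent.Lib.MP_2d8e53_nt.W
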