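import Pool.Agent.Lib.MP_2d8e53_nt.W.T95b

/-!
# Module T, third part: the estimate of one box
-/

set_option autoImplicit false

namespace Pool.Agent.Lib.MP_2d8e53_nt.W

open Finset Real
open scoped Classical

namespace T95

variable {z u w v L X δ : ℝ}

lemma exp_mono_log {x y : ℝ} (hx : 0 < x) (h : x ≤ exp y) : log x ≤ y := by
  rw [log_le_iff_le_exp hx]
  exact h

/-- `x ^ s ≤ exp (s y)` if `x ≤ exp y` and `s ≥ 0`. -/
lemma rpow_le_exp {x y s : ℝ} (hx : 0 < x) (h : x ≤ exp y) (hs : 0 ≤ s) :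
    x ^ s ≤ exp (s * y) := by
  calc x ^ s ≤ (exp y) ^ s := rpow_le_rpow hx.le h hs
    _ = exp (s * y) := by rw [← exp_mul, mul_comm]

/-- `x ^ (-s) ≤ exp (-s y)` if `exp y ≤ x` and `s ≥ 0`. -/
lemma rpow_neg_le_exp {x y s : ℝ} (h : exp y ≤ x) (hs : 0 ≤ s) :
    x ^ (-s) ≤ exp (-s * y) := by
  have hx : 0 < x := (exp_pos y).trans_le h
  have h1 : exp (s * y) ≤ x ^ s := by
    calc exp (s * y) = (exp y) ^ s := by rw [← exp_mul, mul_comm]
      _ ≤ x ^ s := rpow_le_rpow (exp_pos _).le h hs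
  rw [rpow_neg hx.le, neg_mul, exp_neg]
  exact inv_anti₀ (exp_pos _) h1

lemma exp_three : (20 : ℝ) ≤ exp 3.1 := by
  have h1 : (2.7182818283 : ℝ) < exp 1 := exp_one_gt_d9
  have h2 : exp (3.1 : ℝ) = exp 3 * exp 0.1 := by rw [← exp_add]; norm_num
  have h3 : exp (3 : ℝ) = exp 1 ^ 3 := by rw [← exp_nat_mul]; norm_num
  have h4 : (1.1 : ℝ) ≤ exp 0.1 := by
    have := add_one_le_exp (0.1 : ℝ)
    linarith
  have h5 : (20.08 : ℝ) ≤ exp 1 ^ 3 := by
    calc (20.08 : ℝ) ≤ 2.7182818283 ^ 3 := by norm_num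
      _ ≤ exp 1 ^ 3 := pow_le_pow_left₀ (by norm_num) h1.le 3
  rw [h2, h3]
  nlinarith

theorem box_num (P : Par z u w v L X δ) (H E G Q : ℝ) (hH1 : exp (2 * X) / 2 ≤ H)
    (hH2 : H ≤ exp (3 * w + 2 * X)) (hE1 : exp (4 * X) / 2 ≤ E) (hE2 : E ≤ exp (3 * w + 4 * X))
    (hH3 : 1 ≤ H) (hE3 : 1 ≤ E) (hG3 : 1 ≤ G)
    (hG1 : exp (u * w) / (8 * H * E) ≤ G) (hG2 : H * E * G ≤ 2 * exp (u * w))
    (hQ1 : 1 ≤ Q) (hQ2 : Q ≤ exp (2 * w + u * w / 2 - 6 * X)) :
    exp (u * w / 2 - 6 * X) ^ (-δ) * H * (E * G) ^ (1 - δ) * (1 + log Q) *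
      ((exp X / 2) ^ δ + (E * G) ^ (δ / 2) * Q ^ δ *
        (1 / (exp X / 2) + √(1 / E + 1 / G) + Q / √(E * G))) ≤
    exp (u * w - 3 / 2 * X + 9 * δ * X + 14 * v) := by
  have hw := P.w1
  have hv := P.v1
  have hX1 := P.X1
  have hX3 := P.X3
  have hw3 := P.w3
  have hL1 := P.L1
  have hL2 := P.L2
  have hδ0 := P.δ0
  have hδ2 := P.δ2
  have hδw := P.δw
  have hδX := P.δX
  have hEG0 : 0 < E * G := by positivity
  have hH0 : 0 < H := by linarith
  have hE0 : 0 < E := by linarith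
  have hG0 : 0 < G := by linarith
  have hQ0 : 0 < Q := by linarith
  have hlog2 : log 2 ≤ 1 := by linarith [log_two_lt_d9]
  have hlog8 : log 8 ≤ 3 := by
    have : (8 : ℝ) = 2 ^ 3 := by norm_num
    rw [this, log_pow]
    push_cast
    linarith
  have he8 : (8 : ℝ) ≤ exp 3 := by rw [← log_le_iff_le_exp (by norm_num)]; exact hlog8
  have he2 : (2 : ℝ) ≤ exp 1 := by rw [← log_le_iff_le_exp (by norm_num)]; exact hlog2
  -- lower bound for `E G`
  have h1 : exp (u * w - 3 * w - 2 * X - 3) ≤ E * G := by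
    have e1 : exp (u * w) / (8 * H) ≤ E * G := by
      have : exp (u * w) / (8 * H) = E * (exp (u * w) / (8 * H * E)) := by
        field_simp
      rw [this]
      exact mul_le_mul_of_nonneg_left hG1 hE0.le
    refine le_trans ?_ e1
    rw [le_div_iff₀ (by positivity)]
    calc exp (u * w - 3 * w - 2 * X - 3) * (8 * H)
        ≤ exp (u * w - 3 * w - 2 * X - 3) * (exp 3 * exp (3 * w + 2 * X)) := by
          gcongr
      _ = exp (u * w) := by
          rw [← exp_add, ← exp_add]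
          congr 1
          ring
  -- upper bound for `E G`
  have h2 : E * G ≤ exp (u * w + 1) := by
    have e1 : E * G ≤ H * E * G := by nlinarith
    calc E * G ≤ 2 * exp (u * w) := e1.trans hG2
      _ ≤ exp 1 * exp (u * w) := by gcongr
      _ = exp (u * w + 1) := by rw [← exp_add]; ring_nf
  -- the factors
  have f1 : exp (u * w / 2 - 6 * X) ^ (-δ) = exp (-(1 / 2) * X + 6 * δ * X) := by
    rw [← exp_mul]
    congr 1
    linear_combination (-(1 : ℝ) / 2) * hδX
  have f2 : H * (E * G) ^ (1 - δ) ≤ exp (u * w - X + 3 * L + 2 * δ * X + 2) := by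
    have e1 : (E * G) ^ (1 - δ) = (E * G) * (E * G) ^ (-δ) := by
      rw [sub_eq_add_neg, rpow_add hEG0, rpow_one]
    rw [e1]
    have e2 := rpow_neg_le_exp h1 hδ0.le
    calc H * (E * G * (E * G) ^ (-δ)) = (H * E * G) * (E * G) ^ (-δ) := by ring
      _ ≤ (2 * exp (u * w)) * exp (-δ * (u * w - 3 * w - 2 * X - 3)) :=
          mul_le_mul hG2 e2 (by positivity) (by positivity)
      _ ≤ (exp 1 * exp (u * w)) * exp (-δ * (u * w - 3 * w - 2 * X - 3)) := by gcongr
      _ = exp (u * w - X + 3 * L + 2 * δ * X + (1 + 3 * δ)) := by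
          rw [← exp_add, ← exp_add]
          congr 1
          linear_combination (-1 : ℝ) * hδX + 3 * hδw
      _ ≤ _ := by
          apply exp_le_exp.2
          linarith
  have f3 : 1 + log Q ≤ exp (L + v) := by
    have e1 : log Q ≤ 2 * w + u * w / 2 - 6 * X := exp_mono_log hQ0 hQ2
    have e2 : exp (L + v) = u * w := by
      rw [exp_add, ← P.hL, ← P.hv, exp_log (by linarith [P.u1]), exp_log (by linarith)]
    rw [e2]
    linarith
  have f3' : 0 ≤ 1 + log Q := by
    have := log_nonneg hQ1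
    linarith
  have f4 : (exp X / 2) ^ δ ≤ exp (δ * X) := by
    refine rpow_le_exp (by positivity) ?_ hδ0.le
    have := exp_pos X
    linarith
  have f5 : (E * G) ^ (δ / 2) ≤ exp (1 / 2 * X + 1) := by
    refine (rpow_le_exp hEG0 h2 (by positivity)).trans (exp_le_exp.2 ?_)
    have : δ / 2 * (u * w + 1) = 1 / 2 * X + δ / 2 := by
      linear_combination (1 / 2 : ℝ) * hδX
    rw [this]
    linarith
  have f6 : Q ^ δ ≤ exp (2 * L + 1 / 2 * X) := by
    refine (rpow_le_exp hQ0 hQ2 hδ0.le).trans (exp_le_exp.2 ?_)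
    have : δ * (2 * w + u * w / 2 - 6 * X) = 2 * L + 1 / 2 * X - 6 * δ * X := by
      linear_combination (1 / 2 : ℝ) * hδX + 2 * hδw
    rw [this]
    have : 0 ≤ 6 * δ * X := by
      have : 0 ≤ X := by linarith
      positivity
    linarith
  have f7 : 1 / (exp X / 2) = 2 * exp (-X) := by
    rw [exp_neg]
    field_simp
  have f8 : √(1 / E + 1 / G) ≤ 2 * exp (-X) := by
    have e0 : exp (4 * X) / 2 ≤ G := by
      refine le_trans ?_ hG1
      rw [div_le_div_iff₀ (by norm_num) (by positivity)]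
      calc exp (4 * X) * (8 * H * E)
          ≤ exp (4 * X) * (exp 3 * exp (3 * w + 2 * X) * exp (3 * w + 4 * X)) := by
            gcongr
        _ = exp (6 * w + 10 * X + 3) := by
            rw [← exp_add, ← exp_add, ← exp_add]
            congr 1
            ring
        _ ≤ exp (u * w) := exp_le_exp.2 (by linarith)
        _ ≤ exp (u * w) * 2 := by linarith [exp_pos (u * w)]
    have e1 : 1 / E ≤ 2 * exp (-(4 * X)) := by
      rw [div_le_iff₀ hE0, exp_neg]
      have := exp_pos (4 * X)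
      calc (1 : ℝ) = 2 * (exp (4 * X))⁻¹ * (exp (4 * X) / 2) := by field_simp
        _ ≤ 2 * (exp (4 * X))⁻¹ * E := by gcongr
    have e2 : 1 / G ≤ 2 * exp (-(4 * X)) := by
      rw [div_le_iff₀ hG0, exp_neg]
      have := exp_pos (4 * X)
      calc (1 : ℝ) = 2 * (exp (4 * X))⁻¹ * (exp (4 * X) / 2) := by field_simp
        _ ≤ 2 * (exp (4 * X))⁻¹ * G := by gcongr
    have e3 : 1 / E + 1 / G ≤ (2 * exp (-X)) ^ 2 := by
      have e4 : (2 * exp (-X)) ^ 2 = 4 * exp (-(2 * X)) := by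
        rw [mul_pow, ← exp_nat_mul]
        norm_num
      rw [e4]
      have e5 : exp (-(4 * X)) ≤ exp (-(2 * X)) := exp_le_exp.2 (by linarith)
      linarith
    calc √(1 / E + 1 / G) ≤ √((2 * exp (-X)) ^ 2) := sqrt_le_sqrt e3
      _ = 2 * exp (-X) := sqrt_sq (by positivity)
  have f9 : Q / √(E * G) ≤ 3 * exp (-X) := by
    have e1 : exp ((u * w - 3 * w - 2 * X - 3) / 2) ≤ √(E * G) := by
      rw [le_sqrt (exp_pos _).le hEG0.le, ← exp_nat_mul]
      refine le_trans (le_of_eq ?_) h1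
      congr 1
      push_cast
      ring
    rw [div_le_iff₀ ((exp_pos _).trans_le e1)]
    calc Q ≤ exp (2 * w + u * w / 2 - 6 * X) := hQ2
      _ ≤ 3 * exp (-X) * exp ((u * w - 3 * w - 2 * X - 3) / 2) := by
          rw [mul_assoc, ← exp_add]
          have e2 : exp (2 * w + u * w / 2 - 6 * X) ≤
              exp (-X + (u * w - 3 * w - 2 * X - 3) / 2) := by
            apply exp_le_exp.2
            linarith
          linarith [exp_pos (-X + (u * w - 3 * w - 2 * X - 3) / 2)]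
      _ ≤ 3 * exp (-X) * √(E * G) := by gcongr
  have f10 : (exp X / 2) ^ δ + (E * G) ^ (δ / 2) * Q ^ δ *
      (1 / (exp X / 2) + √(1 / E + 1 / G) + Q / √(E * G)) ≤ exp (δ * X + 2 * L + 4.1) := by
    have e1 : (E * G) ^ (δ / 2) * Q ^ δ *
        (1 / (exp X / 2) + √(1 / E + 1 / G) + Q / √(E * G)) ≤
        exp (1 / 2 * X + 1) * exp (2 * L + 1 / 2 * X) * (7 * exp (-X)) := by
      apply mul_le_mul
      · exact mul_le_mul f5 f6 (by positivity) (by positivity)
      · rw [f7]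
        linarith
      · positivity
      · positivity
    have e2 : exp (1 / 2 * X + 1) * exp (2 * L + 1 / 2 * X) * (7 * exp (-X)) =
        7 * exp (2 * L + 1) := by
      rw [show exp (1 / 2 * X + 1) * exp (2 * L + 1 / 2 * X) * (7 * exp (-X)) =
        7 * (exp (1 / 2 * X + 1) * exp (2 * L + 1 / 2 * X) * exp (-X)) by ring,
        ← exp_add, ← exp_add, show 1 / 2 * X + 1 + (2 * L + 1 / 2 * X) + -X = 2 * L + 1 by ring]
    have e3 : exp (2 * L + 1) ≤ exp (δ * X + 2 * L + 1) := by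
      apply exp_le_exp.2
      have : 0 ≤ δ * X := mul_nonneg hδ0.le (by linarith)
      linarith
    have e4 : exp (δ * X) ≤ exp (δ * X + 2 * L + 1) := exp_le_exp.2 (by linarith)
    have e5 : exp (δ * X + 2 * L + 4.1) = exp 3.1 * exp (δ * X + 2 * L + 1) := by
      rw [← exp_add]
      congr 1
      ring
    rw [e5]
    have e6 := exp_three
    have e7 := exp_pos (δ * X + 2 * L + 1)
    nlinarith
  have g0 : 0 ≤ (exp X / 2) ^ δ + (E * G) ^ (δ / 2) * Q ^ δ *
      (1 / (exp X / 2) + √(1 / E + 1 / G) + Q / √(E * G)) := by positivity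
  calc exp (u * w / 2 - 6 * X) ^ (-δ) * H * (E * G) ^ (1 - δ) * (1 + log Q) *
      ((exp X / 2) ^ δ + (E * G) ^ (δ / 2) * Q ^ δ *
        (1 / (exp X / 2) + √(1 / E + 1 / G) + Q / √(E * G)))
      = exp (-(1 / 2) * X + 6 * δ * X) * (H * (E * G) ^ (1 - δ)) * (1 + log Q) *
      ((exp X / 2) ^ δ + (E * G) ^ (δ / 2) * Q ^ δ *
        (1 / (exp X / 2) + √(1 / E + 1 / G) + Q / √(E * G))) := by rw [f1]; ring
    _ ≤ exp (-(1 / 2) * X + 6 * δ * X) * exp (u * w - X + 3 * L + 2 * δ * X + 2) *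
        exp (L + v) * exp (δ * X + 2 * L + 4.1) := by
        apply mul_le_mul _ f10 g0 (by positivity)
        apply mul_le_mul _ f3 f3' (by positivity)
        apply mul_le_mul_of_nonneg_left f2 (exp_pos _).le
    _ = exp (u * w - 3 / 2 * X + 9 * δ * X + (6 * L + v + 6.1)) := by
        rw [← exp_add, ← exp_add, ← exp_add]
        congr 1
        ring
    _ ≤ _ := by
        apply exp_le_exp.2
        linarith

end T95

end Pool.Agent.Lib.MP_2d8e53_nt.W
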