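import Pool.Agent.Lib.MP_2d8e53_nt.W.T95c

/-!
# Module T, fourth part: the good divisors
-/

set_option autoImplicit false

namespace Pool.Agent.Lib.MP_2d8e53_nt.W

open Finset Real
open scoped Classical

namespace T95

variable {z u w v L X δ : ℝ}

/-- The exponent `I` with `2 ^ I` between `2 exp (2 w)` and `exp (3 w)`. -/
lemma two_pow (P : Par z u w v L X δ) :
    2 * exp (2 * w) ≤ (2 : ℝ) ^ ⌈4 * w⌉₊ ∧ (2 : ℝ) ^ ⌈4 * w⌉₊ ≤ exp (3 * w) ∧
      (⌈4 * w⌉₊ : ℝ) ≤ 5 * w := by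
  have hw := P.w1
  have h1 : 4 * w ≤ ⌈4 * w⌉₊ := Nat.le_ceil _
  have h2 : (⌈4 * w⌉₊ : ℝ) < 4 * w + 1 := Nat.ceil_lt_add_one (by linarith)
  have h3 : (2 : ℝ) ^ ⌈4 * w⌉₊ = exp (⌈4 * w⌉₊ * log 2) := by
    rw [exp_nat_mul, exp_log (by norm_num)]
  have h4 := log_two_gt_d9
  have h5 := log_two_lt_d9
  have h6 : (2 : ℝ) = exp (log 2) := (exp_log (by norm_num)).symm
  refine ⟨?_, ?_, by linarith⟩
  · rw [h3]
    calc 2 * exp (2 * w) = exp (log 2 + 2 * w) := by rw [exp_add, ← h6]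
      _ ≤ _ := by
        apply exp_le_exp.2
        nlinarith
  · rw [h3]
    apply exp_le_exp.2
    nlinarith

/-- The range of `g`. -/
lemma grange {h e g HH EE x T : ℝ} {n : ℕ} (hH : 1 ≤ HH) (hE : 1 ≤ EE) (hg : 0 ≤ g)
    (hT : T = x * (4 * HH * EE)) (hx : 0 < x) (h1 : HH < h) (h2 : h ≤ 2 * HH) (h3 : EE < e)
    (h4 : e ≤ 2 * EE) (h5 : T < h * e * g) (h6 : h * e * g ≤ 2 * T) (hn1 : x / 2 ≤ n)
    (hn2 : (n : ℝ) ≤ x) : (n : ℝ) < g ∧ g ≤ 16 * n := by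
  have hhe : h * e ≤ 4 * (HH * EE) := by
    calc h * e ≤ (2 * HH) * (2 * EE) := mul_le_mul h2 h4 (by linarith) (by linarith)
      _ = 4 * (HH * EE) := by ring
  have hhe' : HH * EE < h * e := mul_lt_mul'' h1 h3 (by linarith) (by linarith)
  have hHE : 0 < HH * EE := by positivity
  constructor
  · refine lt_of_le_of_lt hn2 ?_
    by_contra hc
    push Not at hc
    have r1 : h * e * g ≤ 4 * (HH * EE) * x := mul_le_mul hhe hc hg (by positivity)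
    rw [hT] at h5
    linarith
  · have : g ≤ 8 * x := by
      by_contra hc
      push Not at hc
      have r1 : HH * EE * (8 * x) < h * e * g :=
        mul_lt_mul'' hhe' hc (by positivity) (by positivity)
      rw [hT] at h6
      linarith
    linarith

/-- The good part. -/
theorem good (hDiv : StDiv) {C : ℝ} (hC : 0 < C)
    (hBox : ∀ (m₁ m₂ H E G Q : ℕ) (δ K F R₀ : ℝ),
      Nat.Coprime m₁ m₂ → 1 ≤ m₁ → 1 ≤ m₂ → 0 ≤ δ → δ ≤ 1 / 16 → EP δ m₁ ≤ K → EP δ m₂ ≤ K →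
      1 ≤ H → 1 ≤ E → 1 ≤ G → 1 ≤ F → 1 ≤ R₀ → R₀ ≤ Q → R₀ ^ 2 ≤ H →
      ∑ f ∈ m₂.divisors.filter (fun f : ℕ => F < (f : ℝ) ∧ f ≤ Q),
          ((((Dv m₁ H ×ˢ Dv m₁ E) ×ˢ Dv m₁ G).filter
            fun x => f ∣ x.1.1 * x.1.2 * x.2 + 1).card : ℝ) ≤
        C * K ^ 4 * F ^ (-δ) * H * ((E : ℝ) * G) ^ (1 - δ) * (1 + log Q) *
          (R₀ ^ δ + ((E : ℝ) * G) ^ (δ / 2) * (Q : ℝ) ^ δ *
            (1 / R₀ + √(1 / (E : ℝ) + 1 / G) + Q / √((E : ℝ) * G))))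
    (P : Par z u w v L X δ) (m₁ m₂ : ℕ) (hco : Nat.Coprime m₁ m₂) (h1 : 1 ≤ m₁) (h2 : 1 ≤ m₂)
    (K : ℝ) (hK1 : EP δ m₁ ≤ K) (hK2 : EP δ m₂ ≤ K) (S : Finset ℕ)
    (hS : ∀ a ∈ S, a ∣ m₁ ∧ a + 1 ∣ m₂ ∧ exp (u * w) < (a : ℝ) ∧ (a : ℝ) ≤ 2 * exp (u * w) ∧
      (∀ b : ℕ, b ∣ a → Rough (z ^ 2) b → (b : ℝ) ≤ exp (u * w / 2)) ∧
      (∀ b : ℕ, b ∣ a + 1 → Rough (z ^ 2) b → (b : ℝ) ≤ exp (u * w / 2))) :
    (S.card : ℝ) ≤ C * K ^ 4 * exp (u * w - 3 / 2 * X + 9 * δ * X + 17 * v) := by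
  have hw := P.w1
  have hv := P.v1
  have hX1 := P.X1
  have hX3 := P.X3
  have hw3 := P.w3
  have hδ0 := P.δ0
  have hδ2 := P.δ2
  obtain ⟨p1, p2, p3⟩ := two_pow P
  set I := ⌈4 * w⌉₊ with hI
  have hz2 : z ^ 2 = exp (2 * w) := by
    have := P.zpow 2
    rw [← this]
    norm_num
  obtain ⟨a1, a2, a3⟩ := floor_half (x := exp (2 * X)) (one_le_exp (by linarith))
  obtain ⟨b1, b2, b3⟩ := floor_half (x := exp (4 * X)) (one_le_exp (by linarith))
  set h₀ := ⌊exp (2 * X)⌋₊ with hh₀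
  set e₀ := ⌊exp (4 * X)⌋₊ with he₀
  set F := exp (u * w / 2 - 6 * X) with hF
  obtain ⟨c1, c2, c3⟩ := floor_half (x := exp (2 * w + u * w / 2 - 6 * X))
    (one_le_exp (by linarith))
  set Q := ⌊exp (2 * w + u * w / 2 - 6 * X)⌋₊ with hQ
  set g₀ : ℕ → ℕ → ℕ := fun i j =>
    ⌊exp (u * w) / (4 * ((2 ^ i * h₀ : ℕ) : ℝ) * ((2 ^ j * e₀ : ℕ) : ℝ))⌋₊ with hg₀
  have hh0r : (0 : ℝ) < h₀ := by exact_mod_cast a2
  have he0r : (0 : ℝ) < e₀ := by exact_mod_cast b2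
  have hHup : ∀ i < I, ((2 ^ i * h₀ : ℕ) : ℝ) ≤ exp (3 * w + 2 * X) := by
    intro i hi
    push_cast
    rw [exp_add]
    apply mul_le_mul _ a3 hh0r.le (exp_pos _).le
    exact (pow_le_pow_right₀ (by norm_num) hi.le).trans p2
  have hEup : ∀ j < I, ((2 ^ j * e₀ : ℕ) : ℝ) ≤ exp (3 * w + 4 * X) := by
    intro i hi
    push_cast
    rw [exp_add]
    apply mul_le_mul _ b3 he0r.le (exp_pos _).le
    exact (pow_le_pow_right₀ (by norm_num) hi.le).trans p2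
  have hHlo : ∀ i, exp (2 * X) / 2 ≤ ((2 ^ i * h₀ : ℕ) : ℝ) := by
    intro i
    refine a1.trans ?_
    exact_mod_cast Nat.le_mul_of_pos_left _ (by positivity)
  have hElo : ∀ i, exp (4 * X) / 2 ≤ ((2 ^ i * e₀ : ℕ) : ℝ) := by
    intro i
    refine b1.trans ?_
    exact_mod_cast Nat.le_mul_of_pos_left _ (by positivity)
  have hH1 : ∀ i, 1 ≤ 2 ^ i * h₀ := fun i => Nat.one_le_iff_ne_zero.2 (by positivity)
  have hE1 : ∀ i, 1 ≤ 2 ^ i * e₀ := fun i => Nat.one_le_iff_ne_zero.2 (by positivity)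
  have hH1r : ∀ i, (1 : ℝ) ≤ ((2 ^ i * h₀ : ℕ) : ℝ) := fun i => by exact_mod_cast hH1 i
  have hE1r : ∀ i, (1 : ℝ) ≤ ((2 ^ i * e₀ : ℕ) : ℝ) := fun i => by exact_mod_cast hE1 i
  have hx1 : ∀ i < I, ∀ j < I,
      1 ≤ exp (u * w) / (4 * ((2 ^ i * h₀ : ℕ) : ℝ) * ((2 ^ j * e₀ : ℕ) : ℝ)) := by
    intro i hi j hj
    have q1 := hH1r i
    have q2 := hE1r j
    rw [le_div_iff₀ (by positivity), one_mul]
    have he8 : (4 : ℝ) ≤ exp 3 := by
      have := add_one_le_exp (3 : ℝ)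
      linarith
    calc 4 * ((2 ^ i * h₀ : ℕ) : ℝ) * ((2 ^ j * e₀ : ℕ) : ℝ)
        ≤ exp 3 * exp (3 * w + 2 * X) * exp (3 * w + 4 * X) := by
          apply mul_le_mul _ (hEup j hj) (by positivity) (by positivity)
          exact mul_le_mul he8 (hHup i hi) (by positivity) (by positivity)
      _ = exp (6 * w + 6 * X + 3) := by
          rw [← exp_add, ← exp_add]
          congr 1
          ring
      _ ≤ exp (u * w) := exp_le_exp.2 (by linarith)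
  have hg1 : ∀ i < I, ∀ j < I, 1 ≤ g₀ i j := fun i hi j hj => (floor_half (hx1 i hi j hj)).2.1
  -- the decomposition
  have hdec := decomp h1 S (fun a ha => ⟨(hS a ha).1, (hS a ha).2.1⟩) h2 F Q h₀ e₀ I g₀ a2 b2 hg1
    (by
      intro a ha
      obtain ⟨s1, s2, s3, s4, s5, s6⟩ := hS a ha
      have ha1 : 1 ≤ a := by
        have : (0 : ℝ) < a := (exp_pos _).trans s3
        exact_mod_cast this
      have hZ : 2 ≤ z ^ 2 := by
        rw [hz2]
        have := add_one_le_exp (2 * w)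
        linarith
      obtain ⟨-, k2⟩ := hDiv (z ^ 2) (exp (u * w / 2)) a hZ (one_le_exp (by linarith)) ha1 s5
      obtain ⟨k1, -⟩ := hDiv (z ^ 2) (exp (u * w / 2)) (a + 1) hZ (one_le_exp (by linarith))
        (by omega) s6
      obtain ⟨h, e, g, rfl, t1, t2, t3, t4⟩ := k2 (exp (2 * X)) (exp (4 * X))
        (one_le_exp (by linarith)) (one_le_exp (by linarith)) (by
          refine lt_of_le_of_lt ?_ s3
          rw [hz2, ← exp_add, ← exp_add, ← exp_add]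
          apply exp_le_exp.2
          linarith)
      obtain ⟨f, t5, t6, t7⟩ := k1 F (one_le_exp (by linarith)) (by
        push_cast
        have : F * exp (u * w / 2) ≤ exp (u * w) := by
          rw [hF, ← exp_add]
          apply exp_le_exp.2
          linarith
        push_cast at s3
        linarith)
      refine ⟨h, e, g, f, rfl, ?_, ?_, ?_, ?_, t5, t6, ?_, ?_⟩
      · have : (h₀ : ℝ) < h := a3.trans_lt t1
        exact_mod_cast this
      · have : (h : ℝ) ≤ ((2 ^ I * h₀ : ℕ) : ℝ) := by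
          push_cast
          calc (h : ℝ) ≤ z ^ 2 * exp (2 * X) := t2
            _ = 2 * exp (2 * w) * (exp (2 * X) / 2) := by rw [hz2]; ring
            _ ≤ 2 ^ I * h₀ := mul_le_mul p1 a1 (by positivity) (by positivity)
        exact_mod_cast this
      · have : (e₀ : ℝ) < e := b3.trans_lt t3
        exact_mod_cast this
      · have : (e : ℝ) ≤ ((2 ^ I * e₀ : ℕ) : ℝ) := by
          push_cast
          calc (e : ℝ) ≤ z ^ 2 * exp (4 * X) := t4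
            _ = 2 * exp (2 * w) * (exp (4 * X) / 2) := by rw [hz2]; ring
            _ ≤ 2 ^ I * e₀ := mul_le_mul p1 b1 (by positivity) (by positivity)
        exact_mod_cast this
      · apply Nat.le_floor
        refine t7.trans (le_of_eq ?_)
        rw [hz2, hF, ← exp_add]
        congr 1
        ring
      · intro i hi j hj i1 i2 j1 j2
        set x := exp (u * w) / (4 * ((2 ^ i * h₀ : ℕ) : ℝ) * ((2 ^ j * e₀ : ℕ) : ℝ)) with hx
        obtain ⟨y1, y2, y3⟩ := floor_half (hx1 i hi j hj)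
        have i1' : ((2 ^ i * h₀ : ℕ) : ℝ) < h := by exact_mod_cast i1
        have i2' : (h : ℝ) ≤ 2 * ((2 ^ i * h₀ : ℕ) : ℝ) := by exact_mod_cast i2
        have j1' : ((2 ^ j * e₀ : ℕ) : ℝ) < e := by exact_mod_cast j1
        have j2' : (e : ℝ) ≤ 2 * ((2 ^ j * e₀ : ℕ) : ℝ) := by exact_mod_cast j2
        have q1 := hH1r i
        have q2 := hE1r j
        push_cast at s3 s4
        have hxe : exp (u * w) =
            x * (4 * ((2 ^ i * h₀ : ℕ) : ℝ) * ((2 ^ j * e₀ : ℕ) : ℝ)) := by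
          rw [hx]
          field_simp
        have hx0 : 0 < x := by
          rw [hx]
          positivity
        obtain ⟨o1, o2⟩ := grange (n := g₀ i j) q1 q2 (Nat.cast_nonneg g) hxe hx0 i1' i2' j1' j2'
          s3 s4 y1 y3
        exact ⟨by exact_mod_cast o1, by exact_mod_cast o2⟩)
  -- every box
  have hbox : ∀ i ∈ range I, ∀ j ∈ range I, ∀ l ∈ range 4,
      ∑ f ∈ m₂.divisors.filter (fun f : ℕ => F < (f : ℝ) ∧ f ≤ Q),
        (NB m₁ (2 ^ i * h₀) (2 ^ j * e₀) (2 ^ l * g₀ i j) f : ℝ) ≤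
      C * K ^ 4 * exp (u * w - 3 / 2 * X + 9 * δ * X + 14 * v) := by
    intro i hi j hj l hl
    rw [mem_range] at hi hj hl
    obtain ⟨y1, y2, y3⟩ := floor_half (hx1 i hi j hj)
    have q1 := hH1r i
    have q2 := hE1r j
    have hG1 : 1 ≤ 2 ^ l * g₀ i j := Nat.one_le_iff_ne_zero.2 (by
      have := hg1 i hi j hj
      positivity)
    have hG1r : (1 : ℝ) ≤ ((2 ^ l * g₀ i j : ℕ) : ℝ) := by exact_mod_cast hG1
    have hpl : (2 : ℝ) ^ l ≤ 8 := by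
      calc (2 : ℝ) ^ l ≤ 2 ^ 3 := pow_le_pow_right₀ (by norm_num) (by omega)
        _ = 8 := by norm_num
    have hpl1 : (1 : ℝ) ≤ 2 ^ l := one_le_pow₀ (by norm_num)
    have y1' : exp (u * w) / (4 * ((2 ^ i * h₀ : ℕ) : ℝ) * ((2 ^ j * e₀ : ℕ) : ℝ)) / 2 ≤
        (g₀ i j : ℝ) := y1
    have y3' : (g₀ i j : ℝ) ≤
        exp (u * w) / (4 * ((2 ^ i * h₀ : ℕ) : ℝ) * ((2 ^ j * e₀ : ℕ) : ℝ)) := y3
    have hcast : ((2 ^ l * g₀ i j : ℕ) : ℝ) = 2 ^ l * (g₀ i j : ℝ) := by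
      rw [Nat.cast_mul, Nat.cast_pow, Nat.cast_ofNat]
    have hX0 : 1 ≤ exp X / 2 := by
      have := add_one_le_exp X
      linarith
    have hb := hBox m₁ m₂ (2 ^ i * h₀) (2 ^ j * e₀) (2 ^ l * g₀ i j) Q δ K F (exp X / 2) hco h1 h2
      hδ0.le (by linarith) hK1 hK2 (hH1 i) (hE1 j) hG1 (one_le_exp (by linarith)) hX0
      (by
        have : exp X ≤ exp (2 * w + u * w / 2 - 6 * X) := exp_le_exp.2 (by linarith)
        linarith)
      (by
        refine le_trans ?_ (hHlo i)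
        have : (exp X / 2) ^ 2 = exp (2 * X) / 4 := by
          rw [div_pow, ← exp_nat_mul]
          norm_num
        rw [this]
        have := exp_pos (2 * X)
        linarith)
    have hn := box_num P ((2 ^ i * h₀ : ℕ) : ℝ) ((2 ^ j * e₀ : ℕ) : ℝ) ((2 ^ l * g₀ i j : ℕ) : ℝ)
      (Q : ℝ) (hHlo i) (hHup i hi) (hElo j) (hEup j hj) q1 q2 hG1r
      (by
        have r1 : exp (u * w) / (8 * ((2 ^ i * h₀ : ℕ) : ℝ) * ((2 ^ j * e₀ : ℕ) : ℝ)) =
            exp (u * w) / (4 * ((2 ^ i * h₀ : ℕ) : ℝ) * ((2 ^ j * e₀ : ℕ) : ℝ)) / 2 := by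
          field_simp
          ring
        rw [r1, hcast]
        exact y1'.trans (le_mul_of_one_le_left (Nat.cast_nonneg _) hpl1))
      (by
        have r1 : ((2 ^ l * g₀ i j : ℕ) : ℝ) ≤
            8 * (exp (u * w) / (4 * ((2 ^ i * h₀ : ℕ) : ℝ) * ((2 ^ j * e₀ : ℕ) : ℝ))) := by
          rw [hcast]
          exact mul_le_mul hpl y3' (Nat.cast_nonneg _) (by norm_num)
        calc ((2 ^ i * h₀ : ℕ) : ℝ) * ((2 ^ j * e₀ : ℕ) : ℝ) * ((2 ^ l * g₀ i j : ℕ) : ℝ)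
            ≤ ((2 ^ i * h₀ : ℕ) : ℝ) * ((2 ^ j * e₀ : ℕ) : ℝ) *
              (8 * (exp (u * w) / (4 * ((2 ^ i * h₀ : ℕ) : ℝ) * ((2 ^ j * e₀ : ℕ) : ℝ)))) := by
              gcongr
          _ = 2 * exp (u * w) := by
              field_simp
              ring)
      (by exact_mod_cast c2) c3
    calc ∑ f ∈ m₂.divisors.filter (fun f : ℕ => F < (f : ℝ) ∧ f ≤ Q),
        (NB m₁ (2 ^ i * h₀) (2 ^ j * e₀) (2 ^ l * g₀ i j) f : ℝ) ≤ _ := hb
      _ = C * K ^ 4 * (F ^ (-δ) * ((2 ^ i * h₀ : ℕ) : ℝ) *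
          (((2 ^ j * e₀ : ℕ) : ℝ) * ((2 ^ l * g₀ i j : ℕ) : ℝ)) ^ (1 - δ) * (1 + log Q) *
          ((exp X / 2) ^ δ + (((2 ^ j * e₀ : ℕ) : ℝ) * ((2 ^ l * g₀ i j : ℕ) : ℝ)) ^ (δ / 2) *
            (Q : ℝ) ^ δ * (1 / (exp X / 2) +
              √(1 / ((2 ^ j * e₀ : ℕ) : ℝ) + 1 / ((2 ^ l * g₀ i j : ℕ) : ℝ)) +
              Q / √(((2 ^ j * e₀ : ℕ) : ℝ) * ((2 ^ l * g₀ i j : ℕ) : ℝ))))) := by ring
      _ ≤ _ := by
          apply mul_le_mul_of_nonneg_left hn (by positivity)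
  -- the number of boxes
  have hnum : ((I : ℝ) * (I * 4)) ≤ exp (3 * v) := by
    have r1 : exp (3 * v) = w ^ 2 * exp v := by
      have : w = exp v := by rw [← P.hv, exp_log (by linarith)]
      rw [this, ← exp_nat_mul, ← exp_add]
      congr 1
      push_cast
      ring
    have r2 : (100 : ℝ) ≤ exp v := by
      have := add_one_le_exp v
      linarith
    rw [r1]
    have r3 : (0 : ℝ) ≤ I := Nat.cast_nonneg _
    calc (I : ℝ) * (I * 4) ≤ (5 * w) * (5 * w * 4) := by gcongr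
      _ = w ^ 2 * 100 := by ring
      _ ≤ w ^ 2 * exp v := by gcongr
  calc (S.card : ℝ) ≤ _ := hdec
    _ ≤ ∑ i ∈ range I, ∑ j ∈ range I, ∑ l ∈ range 4,
        C * K ^ 4 * exp (u * w - 3 / 2 * X + 9 * δ * X + 14 * v) :=
        sum_le_sum fun i hi => sum_le_sum fun j hj => sum_le_sum fun l hl => hbox i hi j hj l hl
    _ = ((I : ℝ) * (I * 4)) * (C * K ^ 4 * exp (u * w - 3 / 2 * X + 9 * δ * X + 14 * v)) := by
        simp only [sum_const, card_range, nsmul_eq_mul]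
        push_cast
        ring
    _ ≤ exp (3 * v) * (C * K ^ 4 * exp (u * w - 3 / 2 * X + 9 * δ * X + 14 * v)) := by
        gcongr
    _ = C * K ^ 4 * exp (u * w - 3 / 2 * X + 9 * δ * X + 17 * v) := by
        have : exp (u * w - 3 / 2 * X + 9 * δ * X + 17 * v) =
            exp (3 * v) * exp (u * w - 3 / 2 * X + 9 * δ * X + 14 * v) := by
          rw [← exp_add]
          congr 1
          ring
        rw [this]
        ring

end T95

end Pool.Agent.Lib.MP_2d8e53_nt.W
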